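import Pool.Agent.Lib.MP_a1e562_co.SF.Stm

/-!
# [SF E2] of MP_a1e562_co: uniqueness of roots (norm argument)
-/

set_option autoImplicit false

namespace Pool.Agent.TP3

open Configuration Polynomial

theorem sfe2_semiconj {K V : Type} [Field K] [AddCommGroup V] [Module K V]
    (A T T' : Module.End K V) (h : A * T = T' * A) (φ : K[X]) :
    A * aeval T φ = aeval T' φ * A := by
  induction φ using Polynomial.induction_on with
  | C a => rw [aeval_C, aeval_C, Algebra.commutes]
  | add p q hp hq => rw [map_add, map_add, mul_add, add_mul, hp, hq]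
  | monomial n a hn =>
    have e1 : (C a * X ^ (n + 1) : K[X]) = C a * X ^ n * X := by rw [pow_succ, mul_assoc]
    rw [e1, map_mul (aeval T) (C a * X ^ n) X, map_mul (aeval T') (C a * X ^ n) X, aeval_X,
      aeval_X, ← mul_assoc, hn, mul_assoc, h, mul_assoc]

theorem sfe2_sq {K V : Type} [Field K] [AddCommGroup V] [Module K V]
    {m : V →ₗ[K] V →ₗ[K] V} {e : V} (h : SF K V m e) (hFL : FieldLem m) {c : K} {x : V}
    (hx0 : x ≠ 0) (hx : m x x = c • e) (A : Module.End K V) (hA : A = m x) :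
    A * A = c • 1 := by
  have h1 := hFL e x A h.e_ne hx0 (fun v => by rw [h.left, hA]) e (X ^ 2 - C c) h.e_ne (by
    rw [map_sub, map_pow, aeval_X, aeval_C, LinearMap.sub_apply, pow_two,
      Module.End.mul_apply, Module.algebraMap_end_apply, hA, h.right, hx, sub_self])
  rw [map_sub, map_pow, aeval_X, aeval_C, sub_eq_zero, pow_two, Algebra.algebraMap_eq_smul_one]
    at h1
  exact h1

theorem s_SFE2 : S_SFE2 := by
  intro hB9 K V _ _ _ _ _ m e h h2 hLE hFL hHF c x y hc hx hy
  have hce : c • e ≠ 0 := smul_ne_zero hc h.e_ne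
  have hx0 : x ≠ 0 := by
    rintro rfl
    exact hce (by rw [← hx]; simp)
  have hy0 : y ≠ 0 := by
    rintro rfl
    exact hce (by rw [← hy]; simp)
  obtain ⟨A, hA⟩ : ∃ A : Module.End K V, A = m x := ⟨_, rfl⟩
  obtain ⟨B, hB⟩ : ∃ B : Module.End K V, B = m y := ⟨_, rfl⟩
  have hAA := sfe2_sq h hFL hx0 hx A hA
  have hBB := sfe2_sq h hFL hy0 hy B hB
  have hcc : c⁻¹ * c = 1 := inv_mul_cancel₀ hc
  obtain ⟨T, hT⟩ : ∃ T : Module.End K V, T = c⁻¹ • (A * B) := ⟨_, rfl⟩
  obtain ⟨T', hT'⟩ : ∃ T' : Module.End K V, T' = c⁻¹ • (B * A) := ⟨_, rfl⟩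
  have hAT : A * T = B := by
    rw [hT, mul_smul_comm, ← mul_assoc, hAA, smul_mul_assoc, one_mul, smul_smul, hcc, one_smul]
  have hT'A : T' * A = B := by
    rw [hT', smul_mul_assoc, mul_assoc, hAA, mul_smul_comm, mul_one, smul_smul, hcc, one_smul]
  have hT'T : T' * T = 1 := by
    rw [hT', smul_mul_assoc, mul_assoc, hAT, hBB, smul_smul, hcc, one_smul]
  have hAT2 : A * T = T' * A := by rw [hAT, hT'A]
  have hTv : ∀ v, m x (T v) = m y v := fun v => by
    have h3 := LinearMap.congr_fun hAT v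
    rw [Module.End.mul_apply, hA, hB] at h3
    exact h3
  obtain ⟨F, _, _, _, E, θ, hθ, hgen⟩ := hHF x y T hx0 hy0 hTv
  haveI : Nontrivial V := ⟨e, 0, h.e_ne⟩
  have hEinj : Function.Injective E := E.toRingHom.injective
  have hθ0 : θ ≠ 0 := by
    rintro rfl
    rw [map_zero] at hθ
    rw [← hθ, mul_zero] at hT'T
    exact zero_ne_one hT'T
  have hθ' : E θ⁻¹ = T' := by
    have h3 : T * E θ⁻¹ = 1 := by rw [← hθ, ← map_mul, mul_inv_cancel₀ hθ0, map_one]
    calc E θ⁻¹ = T' * T * E θ⁻¹ := by rw [hT'T, one_mul]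
      _ = T' := by rw [mul_assoc, h3, mul_one]
  have hpol : ∀ φ : K[X], aeval T φ = E (aeval θ φ) := fun φ => by
    rw [← hθ, aeval_algHom_apply]
  have hpol' : ∀ φ : K[X], aeval T' φ = E (aeval θ⁻¹ φ) := fun φ => by
    rw [← hθ', aeval_algHom_apply]
  by_cases hθ2 : θ * θ = 1
  · rcases mul_self_eq_one_iff.1 hθ2 with h3 | h3
    · left
      rw [h3, map_one] at hθ
      rw [← hθ, mul_one] at hAT
      have h4 := LinearMap.congr_fun hAT e
      rw [hA, hB, h.right, h.right] at h4
      exact h4.symm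
    · right
      rw [h3, map_neg, map_one] at hθ
      rw [← hθ, mul_neg, mul_one] at hAT
      have h4 := LinearMap.congr_fun hAT e
      rw [LinearMap.neg_apply, hA, hB, h.right, h.right] at h4
      exact h4.symm
  exfalso
  have hne : θ⁻¹ ≠ θ := fun h3 => hθ2 (by
    nth_rewrite 1 [← h3]
    exact inv_mul_cancel₀ hθ0)
  -- the automorphism
  have huniq : ∀ f1 f2 : F, E f1 * A = E f2 * A → f1 = f2 := by
    intro f1 f2 h3
    apply hEinj
    have h4 : E f1 * A * A = E f2 * A * A := by rw [h3]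
    rw [mul_assoc, mul_assoc, hAA, mul_smul_comm, mul_smul_comm, mul_one, mul_one] at h4
    exact smul_right_injective _ hc h4
  have hex : ∀ f : F, ∃ s : F, A * E f = E s * A := by
    intro f
    obtain ⟨φ, rfl⟩ := hgen f
    exact ⟨aeval θ⁻¹ φ, by rw [← hpol, ← hpol', sfe2_semiconj A T T' hAT2]⟩
  choose σ hσ using hex
  let s : F →+* F :=
    { toFun := σ
      map_one' := huniq _ _ (by rw [← hσ, map_one, mul_one, one_mul])
      map_mul' := fun f g => huniq _ _ (by
        rw [← hσ, map_mul, map_mul, ← mul_assoc, hσ, mul_assoc, hσ, mul_assoc])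
      map_zero' := huniq _ _ (by rw [← hσ, map_zero, mul_zero, zero_mul])
      map_add' := fun f g => huniq _ _ (by
        rw [← hσ, map_add, map_add, mul_add, add_mul, hσ, hσ]) }
  have hs : ∀ f, A * E f = E (s f) * A := hσ
  have hss : ∀ f, s (s f) = f := by
    intro f
    apply huniq
    have h3 : A * (A * E f) = E (s (s f)) * (A * A) := by
      rw [hs, ← mul_assoc, hs, mul_assoc]
    rw [← mul_assoc, hAA, smul_mul_assoc, one_mul, mul_smul_comm, mul_one] at h3
    have h4 : E f = E (s (s f)) := smul_right_injective _ hc h3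
    rw [← h4]
  have hsθ : s θ = θ⁻¹ := huniq _ _ (by rw [← hs, hθ, hθ', hAT2])
  have h2F : (2 : F) ≠ 0 := by
    intro h3
    apply h2
    apply (algebraMap K F).injective
    rw [map_zero, ← h3]
    exact map_ofNat (algebraMap K F) 2
  have hfix : s (algebraMap K F c⁻¹) = algebraMap K F c⁻¹ := huniq _ _ (by
    rw [← hs, AlgHom.commutes, Algebra.commutes])
  obtain ⟨l, hl⟩ := hB9 F h2F s hss ⟨θ, by rw [hsθ]; exact hne⟩ (algebraMap K F c⁻¹) hfix
  have hl0 : l ≠ 0 := by
    rintro rfl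
    rw [zero_mul] at hl
    have h3 := (algebraMap K F).injective (hl.symm.trans (map_zero (algebraMap K F)).symm)
    exact inv_ne_zero hc h3
  have hRR : (E l * A) * (E l * A) = 1 := by
    have h3 : (E l * A) * (E l * A) = E (l * s l) * (A * A) := by
      rw [map_mul, mul_assoc, ← mul_assoc A, hs, mul_assoc (E (s l)), ← mul_assoc (E l)]
    rw [h3, hl, AlgHom.commutes, hAA, Algebra.algebraMap_eq_smul_one, smul_mul_smul_comm, hcc,
      one_smul, one_mul]
  have hRne : ∃ u : V, (E l * A) u + u ≠ 0 := by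
    by_contra hcon
    push Not at hcon
    have h3 : E l * A = -1 := by
      ext u
      rw [LinearMap.neg_apply, Module.End.one_apply]
      exact eq_neg_of_add_eq_zero_left (hcon u)
    have h4 : E l * A * E θ = -E θ := by rw [h3, neg_one_mul]
    have h5 : E l * A * E θ = -E θ⁻¹ := by
      rw [mul_assoc, hs, hsθ, ← mul_assoc, ← map_mul, mul_comm l, map_mul, mul_assoc, h3,
        mul_neg_one]
    exact hne (hEinj (neg_injective (h5.symm.trans h4)))
  obtain ⟨u, hu⟩ := hRne
  obtain ⟨g, hg⟩ : ∃ g : V, g = (E l * A) u + u := ⟨_, rfl⟩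
  rw [← hg] at hu
  have hRg : (E l * A) g = g := by
    have h3 := LinearMap.congr_fun hRR u
    rw [Module.End.mul_apply, Module.End.one_apply] at h3
    rw [hg, map_add, h3, add_comm]
  have hAg : A g = E l⁻¹ g := by
    have h3 : E l⁻¹ ((E l * A) g) = A g := by
      rw [← Module.End.mul_apply, ← mul_assoc, ← map_mul, inv_mul_cancel₀ hl0, map_one, one_mul]
    rw [← h3, hRg]
  obtain ⟨φ, hφ⟩ := hgen (s l)
  obtain ⟨p, hp⟩ := hLE x y T hx0 hy0 hTv g φ
  have hkey : ∀ f : F, m p (E f g) = E (s f) g := by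
    intro f
    obtain ⟨ψ, hψ⟩ := hgen f
    have h3 := hp ψ
    rw [hpol, hpol, map_mul, ← hψ, ← hφ, ← hA] at h3
    have h4 : A (E (s l * f) g) = E (s f) g := by
      have h5 : A (E (s l * f) g) = (A * E (s l * f)) g := rfl
      rw [h5, hs, Module.End.mul_apply, hAg, ← Module.End.mul_apply, ← map_mul, map_mul s, hss,
        mul_comm l, mul_assoc, mul_inv_cancel₀ hl0, mul_one]
    rw [h3, h4]
  have hpe : p = e := by
    have h3 := hkey 1
    rw [map_one, map_one, map_one, Module.End.one_apply] at h3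
    exact h.toPS.cancelR hu (h3.trans (h.left g).symm)
  have h5 := hkey θ
  rw [hpe, h.left, hsθ] at h5
  have h6 : E (θ - θ⁻¹) g = 0 := by
    rw [map_sub, LinearMap.sub_apply, h5, sub_self]
  have h7 : θ - θ⁻¹ ≠ 0 := fun h8 => hne (sub_eq_zero.1 h8).symm
  apply hu
  calc g = E ((θ - θ⁻¹)⁻¹ * (θ - θ⁻¹)) g := by
        rw [inv_mul_cancel₀ h7, map_one, Module.End.one_apply]
    _ = 0 := by rw [map_mul, Module.End.mul_apply, h6, map_zero]

end Pool.Agent.TP3
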