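import Pool.Agent.Lib.MP_a1e562_co.SF.Stm

/-!
# [SF E3] of MP_a1e562_co: roots of the isotopes
-/

set_option autoImplicit false

namespace Pool.Agent.TP3

open Configuration Polynomial

private theorem se3_sq {K V : Type} [Field K] [AddCommGroup V] [Module K V]
    {m : V →ₗ[K] V →ₗ[K] V} (hF : FieldLem m) {p0 p1 : V} {T : Module.End K V}
    (hp0 : p0 ≠ 0) (hp1 : p1 ≠ 0) (hT : ∀ v, m p0 (T v) = m p1 v) (c : K) {g : V} (hg : g ≠ 0)
    (h : T (T g) = c • g) : ∀ v, T (T v) = c • v := by
  have key : ∀ v, aeval T ((X : K[X]) ^ 2 - C c) v = T (T v) - c • v := by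
    intro v
    rw [map_sub, map_pow, aeval_X, aeval_C, LinearMap.sub_apply, pow_two]
    rfl
  have h1 := hF p0 p1 T hp0 hp1 hT g ((X : K[X]) ^ 2 - C c) hg (by rw [key, h, sub_self])
  intro v
  have h2 := key v
  rw [h1, LinearMap.zero_apply] at h2
  exact sub_eq_zero.1 h2.symm

theorem s_SFE3 : S_SFE3 := by
  intro K V _ _ _ _ m e h hL hR c x hc hx huq a k w ha haw hkw
  have hk : k ≠ 0 := by
    intro h0
    rw [h0, map_zero, LinearMap.zero_apply] at hkw
    exact (smul_ne_zero hc ha) hkw.symm
  obtain ⟨M, hM⟩ := h.toPS.exT ha k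
  have hMe : M e = w := by
    apply h.toPS.cancelL ha
    rw [hM, haw, h.right]
  have hMw : M w = c • e := by
    apply h.toPS.cancelL ha
    rw [hM, hkw, map_smul, h.right]
  have hMM : ∀ v, M (M v) = c • v :=
    se3_sq hL ha hk hM c h.e_ne (by rw [hMe, hMw])
  -- M g = ± x * g
  have hpm : ∀ g, (M - m x) g = 0 ∨ (M + m x) g = 0 := by
    intro g
    by_cases hg : g = 0
    · left; rw [hg, map_zero]
    have hMg : M g ≠ 0 := by
      intro h0
      have h1 := hMM g
      rw [h0, map_zero] at h1
      exact (smul_ne_zero hc hg) h1.symm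
    obtain ⟨t, ht⟩ := h.toPS.exR hg (M g)
    have ht0 : t ≠ 0 := by
      intro h0
      rw [h0, map_zero, LinearMap.zero_apply] at ht
      exact hMg ht.symm
    obtain ⟨N, hN⟩ := h.toPS.flip.exT hg (M g)
    have hN' : ∀ u, m (N u) g = m u (M g) := fun u => by simpa using hN u
    have hNa : N a = k := by
      apply h.toPS.cancelR hg
      rw [hN', hM]
    have hNk : N k = c • a := by
      apply h.toPS.cancelR hg
      rw [hN', ← hM (M g), hMM, map_smul, map_smul, LinearMap.smul_apply]
    have hNN : ∀ v, N (N v) = c • v :=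
      se3_sq hR hg hMg hN c ha (by rw [hNa, hNk])
    have hNe : N e = t := by
      apply h.toPS.cancelR hg
      rw [hN', h.left, ht]
    have hNt : N t = c • e := by rw [← hNe, hNN]
    have htt : m t (m t g) = c • g := by
      rw [ht, ← hN', hNt, map_smul, LinearMap.smul_apply, h.left]
    have hLt : ∀ v, m t (m t v) = c • v :=
      se3_sq hL h.e_ne ht0 (T := m t) (fun v => h.left _) c hg htt
    have hte : m t t = c • e := by
      have := hLt e
      rwa [h.right] at this
    rcases huq t hte with h1 | h1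
    · left
      rw [LinearMap.sub_apply, ← h1, ht, sub_self]
    · right
      have h2 : x = -t := by rw [h1, neg_neg]
      rw [LinearMap.add_apply, h2, map_neg, LinearMap.neg_apply, ht, add_neg_cancel]
  rcases union_ker (M - m x) (M + m x) hpm with h1 | h1
  · have hMx : ∀ v, M v = m x v := fun v => by
      have := LinearMap.congr_fun h1 v
      rw [LinearMap.sub_apply, LinearMap.zero_apply] at this
      exact sub_eq_zero.1 this
    have hka : k = m a x := by
      rw [← haw, ← hMe, hMx, h.right]
    refine ⟨Or.inl hka, fun v => ?_⟩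
    rw [← hka, ← hM, hMx]
  · have hMx : ∀ v, M v = -m x v := fun v => by
      have := LinearMap.congr_fun h1 v
      rw [LinearMap.add_apply, LinearMap.zero_apply] at this
      exact eq_neg_of_add_eq_zero_left this
    have hka : k = -m a x := by
      rw [← haw, ← hMe, hMx, h.right, map_neg]
    refine ⟨Or.inr hka, fun v => ?_⟩
    have h2 : m a x = -k := by rw [hka, neg_neg]
    rw [h2, map_neg, LinearMap.neg_apply, ← hM, hMx, map_neg, neg_neg]

end Pool.Agent.TP3
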