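import Pool.Agent.Lib.MP_a1e562_co.SF.Stm

/-!
# Semifield planes of characteristic three, piece E5: roots are central
-/

set_option autoImplicit false

namespace Pool.Agent.TP3

theorem s_SFE5 : S_SFE5 := by
  intro K V _ _ _ _ c hc hroot hE3 hE4
  -- the nucleus property and commutativity, for every semifield
  have hN : ∀ (m : V →ₗ[K] V →ₗ[K] V) (e : V), SF K V m e → ∀ x : V, m x x = c • e →
      ∀ a v, m (m a x) v = m a (m x v) := by
    intro m e h x hx a v
    by_cases ha : a = 0
    · simp [ha]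
    · obtain ⟨m', A, hSF, hm', hA1, -, -⟩ := h.isotope ha
      obtain ⟨k, hk⟩ := hroot m' a hSF
      rw [hm'] at hk
      exact hE3 m e h x hx a k (A k) ha (hA1 k) hk v
  have hC : ∀ (m : V →ₗ[K] V →ₗ[K] V) (e : V), SF K V m e → ∀ x : V, m x x = c • e →
      ∀ a, m a x = m x a := fun m e h x hx => hE4 m e h x hx (hN m e h x hx)
  intro m e h x hx
  have hNx := hN m e h x hx
  have hCx := hC m e h x hx
  have hR : ∀ a v, m (m a v) x = m (m a x) v := by
    intro a v
    by_cases ha : a = 0
    · simp [ha]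
    · obtain ⟨m', A, hSF, hm', -, hA2, -⟩ := h.isotope ha
      have hk : m' (m a x) (m a x) = c • a := by
        rw [hm', hA2, hNx, hx, map_smul, h.right]
      have h1 := hC m' a hSF (m a x) hk (m a v)
      rw [hm', hm', hA2, hA2] at h1
      exact h1
  refine ⟨hCx, hNx, fun a v => ?_, fun a v => ?_⟩
  · rw [← hCx a, ← hR a v, hCx (m a v)]
  · rw [hR a v, hNx a v, ← hCx v]

end Pool.Agent.TP3
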