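import Pool.Agent.Lib.MP_a1e562_co.SF.Stm

/-!
# MP_a1e562_co, piece [SF END]: the end of the odd case
-/

set_option autoImplicit false

namespace Pool.Agent.TP3

open Configuration Polynomial

/-- the order of a nontrivial element of order a power of `ℓ` -/
private theorem end_dvd {F : Type} [Field F] [Finite F] (ℓ j : ℕ) (hℓ : ℓ.Prime) (x : F)
    (hx : x ≠ 0) (hx1 : x ≠ 1) (hj : x ^ (ℓ ^ j) = 1) : ℓ ∣ Nat.card F - 1 := by
  haveI : Fintype F := Fintype.ofFinite F
  have h1 : orderOf x ∣ ℓ ^ j := orderOf_dvd_of_pow_eq_one hj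
  obtain ⟨i, -, hi⟩ := (Nat.dvd_prime_pow hℓ).1 h1
  have hi0 : i ≠ 0 := by
    rintro rfl
    rw [pow_zero] at hi
    exact hx1 (orderOf_eq_one_iff.1 hi)
  have h2 : orderOf x ∣ Fintype.card F - 1 :=
    orderOf_dvd_of_pow_eq_one (FiniteField.pow_card_sub_one_eq_one x hx)
  rw [Nat.card_eq_fintype_card]
  refine dvd_trans ?_ h2
  rw [hi]
  exact dvd_pow_self ℓ hi0

theorem s_SFEND : S_SFEND := by
  intro K V _ _ _ _ _ m e hSF hLE hFL hHF ℓ hℓ hprim b j hb hbb hpow
  have hT : ∀ v, m e (m b v) = m b v := fun v => hSF.left _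
  haveI : Nontrivial V := ⟨⟨e, 0, hSF.e_ne⟩⟩
  haveI : FiniteDimensional K V := Module.Finite.of_finite
  obtain ⟨F, _, _, _, E, θ, hθ, hgen⟩ := hHF e b (m b) hSF.e_ne hb hT
  haveI : FiniteDimensional K F := Module.Finite.of_finite
  have hEinj : Function.Injective E := E.toRingHom.injective
  -- the power of `T`
  have hTp : (m b : Module.End K V) ^ (2 * ℓ ^ j) = 1 := by
    have h1 := hFL e b (m b) hSF.e_ne hb hT e (X ^ (2 * ℓ ^ j) - 1) hSF.e_ne (by
      simp only [map_sub, map_pow, aeval_X, map_one, LinearMap.sub_apply, Module.End.one_apply]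
      rw [hpow, sub_self])
    simp only [map_sub, map_pow, aeval_X, map_one] at h1
    exact sub_eq_zero.1 h1
  have hθp : (θ ^ 2) ^ (ℓ ^ j) = 1 := by
    apply hEinj
    rw [← pow_mul, map_pow, hθ, hTp, map_one]
  have hθ1 : θ ^ 2 ≠ 1 := by
    intro h
    have h1 : E (θ ^ 2) = 1 := by rw [h, map_one]
    rw [map_pow, hθ] at h1
    apply hbb
    have h2 : ((m b : Module.End K V) ^ 2) e = e := by rw [h1]; rfl
    rw [pow_two, Module.End.mul_apply, hSF.right] at h2
    exact h2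
  have hθ0 : θ ^ 2 ≠ 0 := by
    intro h
    rw [h, zero_pow (pow_ne_zero _ hℓ.ne_zero)] at hθp
    exact zero_ne_one hθp
  have hdvd : ℓ ∣ Nat.card K ^ Module.finrank K F - 1 := by
    have h1 := end_dvd ℓ j hℓ (θ ^ 2) hθ0 hθ1 hθp
    rwa [Module.natCard_eq_pow_finrank (K := K) (V := F)] at h1
  have hr0 : 0 < Module.finrank K F := Module.finrank_pos
  have hrd : Module.finrank K V ≤ Module.finrank K F := by
    by_contra hc
    exact hprim _ hr0 (not_le.1 hc) hdvd
  -- the linear map `f ↦ E f e`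
  let Φ : F →ₗ[K] V := (LinearMap.applyₗ e).comp E.toLinearMap
  have hΦ : ∀ f, Φ f = E f e := fun f => rfl
  have hΦinj : Function.Injective Φ := by
    rw [← LinearMap.ker_eq_bot, LinearMap.ker_eq_bot']
    intro f hf
    by_contra hf0
    have h1 : E (f⁻¹ * f) e = e := by rw [inv_mul_cancel₀ hf0, map_one]; rfl
    rw [map_mul, Module.End.mul_apply, ← hΦ f, hf, map_zero] at h1
    exact hSF.e_ne h1.symm
  have hfr : Module.finrank K F = Module.finrank K V :=
    le_antisymm (LinearMap.finrank_le_finrank_of_injective hΦinj) hrd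
  have hΦsurj : Function.Surjective Φ :=
    (LinearMap.injective_iff_surjective_of_finrank_eq_finrank hfr).1 hΦinj
  have hmul : ∀ f f' : F, m (E f e) (E f' e) = E (f * f') e := by
    intro f f'
    obtain ⟨φ, hφ⟩ := hgen f
    obtain ⟨ψ, hψ⟩ := hgen f'
    obtain ⟨p, hp⟩ := hLE e b (m b) hSF.e_ne hb hT e φ
    have hEa : ∀ χ : K[X], E (aeval θ χ) = aeval (m b : Module.End K V) χ := by
      intro χ
      rw [← hθ, aeval_algHom_apply]
    have hp1 : p = E f e := by
      have h1 := hp 1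
      rw [mul_one, hSF.left, map_one, Module.End.one_apply, hSF.right] at h1
      rw [h1, hφ, hEa]
    have h2 := hp ψ
    rw [hSF.left, hp1, ← hEa, ← hEa, map_mul, ← hφ, ← hψ] at h2
    exact h2
  refine ⟨?_, ?_⟩
  · intro x y
    obtain ⟨f, rfl⟩ := hΦsurj x
    obtain ⟨f', rfl⟩ := hΦsurj y
    rw [hΦ, hΦ, hmul, hmul, mul_comm]
  · intro x y z
    obtain ⟨f, rfl⟩ := hΦsurj x
    obtain ⟨f', rfl⟩ := hΦsurj y
    obtain ⟨f'', rfl⟩ := hΦsurj z
    rw [hΦ, hΦ, hΦ, hmul, hmul, hmul, hmul, mul_assoc]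

end Pool.Agent.TP3
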