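import Pool.Agent.Lib.MP_a1e562_co.SF.Stm

/-!
# Piece EVD: determinant parity
-/

set_option autoImplicit false

namespace Pool.Agent.TP3

theorem s_SFEVD : S_SFEVD := by
  intro K V _ _ _ _ h f hf hh
  by_contra hodd
  rw [Nat.not_even_iff_odd] at hodd
  obtain ⟨k, hk⟩ := hodd
  apply hf
  have e1 : h ∘ₗ h = f • (LinearMap.id : V →ₗ[K] V) := by
    ext v
    simpa using hh v
  have e2 : LinearMap.det h * LinearMap.det h = f ^ (2 * k + 1) := by
    rw [← LinearMap.det_comp, e1, LinearMap.det_smul, LinearMap.det_id, mul_one, hk]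
  by_cases hf0 : f = 0
  · rw [hf0]
    exact ⟨0, by ring⟩
  · refine ⟨LinearMap.det h / f ^ k, ?_⟩
    have h3 : f ^ k ≠ 0 := pow_ne_zero _ hf0
    rw [div_mul_div_comm, e2, eq_div_iff (mul_ne_zero h3 h3)]
    ring

end Pool.Agent.TP3
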