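import Pool.Agent.Lib.MP_a1e562_co.SF.Defs
import Pool.Agent.Lib.MP_a1e562_co.Stm

/-!
# Statements of the pieces [SF ..] of MP_a1e562_co

THEOREM. Every finite semifield plane of characteristic 3 is desarguesian.

Every `def S_SFxx : Prop` below is one independent piece; its docstring contains the complete
proof.  Put the proof of `S_SFxx` in `SF/Xx.lean` as `theorem s_SFxx : S_SFxx`.

Notation in the docstrings: `a * b` is `m a b` (the product, bilinear, NOT associative);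
`L_a v = a * v` is the linear map `m a`; `K[T]` is the set of all `aeval T φ`, `φ : K[X]`; a
*root* is an `x` with `x * x = c • e`.  Useful lemmas in `SF/Defs.lean`: `PS.flip`, `SF.flip`
(the opposite product), `PS.cancelL`, `PS.cancelR`, `PS.mul_ne`, `PS.exL`, `PS.exR`,
`PS.equivL`, `PS.exT` (the operator `L_{p0}⁻¹ L_{p1}`), `PS.T_inj`, `SF.isotope`,
`SF.two_sided`, `union_ker`.
-/

set_option autoImplicit false

namespace Pool.Agent.TP3

open Configuration Polynomial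

/-! ## G. geometry -/

/-- [SF G0] (about 200 lines) Coordinates of a semifield plane.

Proof. Get `V, mul, ℓ, φ` from `SemifieldPlane`. `V × V` is equivalent to a subtype of `P`, so `V`
is finite (if `V × V` is finite then `V` is: `Prod` with the element `0`). The plane has a
quadrangle, so it has a point off `ℓ` and two lines... `V` has a nonzero element: otherwise there
is only one point off `ℓ`; but by `exists_config` (or: a line `≠ ℓ` has at least three points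
(`ProjectivePlane`: `2 < pointCount`), only one of them is on `ℓ`) there are at least two
points off `ℓ`.
Put `pt x y = φ⁻¹ (x, y)`, `inf = ℓ`, `vt c`, `ln k b` = the lines given by the last two
conditions, `Z = mkPoint (vt 0 ∩ ℓ)`, `sl k = mkPoint (ln k 0 ∩ ℓ)`.
Two different lines `vt c`, `vt c'` have no common point off `ℓ`, so their common point is on `ℓ`;
hence all `vt c` meet `ℓ` in the same point `Z` (`vt c` has just one point on `ℓ`, as
`vt c ≠ ℓ`). Similarly all `ln k b` (`k` fixed) contain `sl k`. If `sl j ∈ ln k b` then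
`sl j ∈ ln k 0`, and `ln j 0`, `ln k 0` share the points `sl j` and `pt 0 0`, so they are equal
(`eq_or_eq`), so (compare the points `pt x (mul x j)`, for a fixed `x ≠ 0`)
`mul x j = mul x k`, `mul x (j-k) = 0`, `j = k`. If `sl k ∈ vt c` then `sl k ∈ vt 0`, and
`ln k 0`, `vt 0` share `sl k`, `pt 0 0`, so they are equal, but `pt 0 y ∈ vt 0` for all `y`.
Same for `Z ∉ ln k b`. Every point `z` of `ℓ` is `Z` or some `sl k`: the line joining `z` and
`pt 0 0` is not `ℓ`; by the second condition it is a line `x = c` or `y = x ∘ k + b` with `c = 0`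
resp. `b = 0`, so it has the same affine points as `vt 0` or `ln k 0` and is equal to it (two
lines with the same affine points are equal as they have at least two affine points). Every line
`≠ ℓ` has the same affine points as some `vt c` or `ln k b`, hence is equal to it.
(The file `A6b.lean` of this library does the same for translation planes and can be copied.) -/
def S_SFG0 : Prop :=
  ∀ (P L : Type) [Membership P L] [ProjectivePlane P L] [Finite P], SemifieldPlane P L →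
    ∃ (V : Type) (_ : AddCommGroup V) (_ : Finite V) (mul : V →+ V →+ V),
      (∀ x y : V, mul x y = 0 → x = 0 ∨ y = 0) ∧ (∃ x : V, x ≠ 0) ∧
        Nonempty (SCoor P L V mul)

/-- [SF G0B] (about 60 lines) A unit (Kaplansky's trick).

Proof. Let `x0 ≠ 0`. `R x = mul x x0` and `L k = mul x0 k` are injective additive maps of the
finite group `V`, so they are bijective (`AddEquiv.ofBijective`). `mul' x k = mul (R⁻¹ x) (L⁻¹ k)`
is biadditive without zero divisors, with unit `e = mul x0 x0`: `L⁻¹ e = x0`, so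
`mul' x e = mul (R⁻¹ x) x0 = x`, and `R⁻¹ e = x0`, `mul' e k = mul x0 (L⁻¹ k) = k`. Coordinates:
`pt' x y = pt (R⁻¹ x) y`, `sl' k = sl (L⁻¹ k)`, `vt' c = vt (R⁻¹ c)`, `ln' k b = ln (L⁻¹ k) b`,
`inf`, `Z` unchanged. -/
def S_SFG0B : Prop :=
  ∀ (P L V : Type) [Membership P L] [AddCommGroup V] [Finite V] (mul : V →+ V →+ V),
    (∀ x y : V, mul x y = 0 → x = 0 ∨ y = 0) → (∃ x : V, x ≠ 0) → SCoor P L V mul →
    ∃ (mul' : V →+ V →+ V) (e : V), (∀ x y : V, mul' x y = 0 → x = 0 ∨ y = 0) ∧ e ≠ 0 ∧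
      (∀ v, mul' e v = v) ∧ (∀ v, mul' v e = v) ∧ Nonempty (SCoor P L V mul')

/-- [SF G1] (about 100 lines) `V` has exponent three. (Copy of `A3.lean`.)

Proof. It suffices: `v + v + v = 0` for every `v ≠ 0`. Let `u` with ... use the lines of slope `e`
(`mul x e = x`). The points `pt 0 0, pt v v, sl 0, Z` form a quadrangle; take `C` from `Quad4`.
`inf`, `ln e 0`, `vt 0`, `ln 0 0` meet `C` twice, `sl e = inf ∩ ln e 0 ∈ C`.
Let `Y = {y | pt 0 y ∈ C}`. `vt 0` has 4 points of `C`, one is `Z`, the others are `pt 0 y`: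
`Y` has 3 elements.  `0 ∈ Y`, and if `y, y' ∈ Y` then `y + y' ∈ Y`: if `y = 0` or `y' = 0` clear;
`pt y y = ln 0 y ∩ ln e 0 ∈ C` (`ln 0 y ∋ sl 0, pt 0 y`), `vt y ∋ Z, pt y y`,
`ln e y' ∋ sl e, pt 0 y'`, so `pt y (y+y') = vt y ∩ ln e y' ∈ C`, `ln 0 (y+y') ∋ sl 0,
pt y (y+y')` meets `vt 0` in `pt 0 (y+y') ∈ C`.  `v ∈ Y` (`pt 0 v = ln 0 v ∩ vt 0`,
`ln 0 v ∋ sl 0, pt v v`). `Y` is finite, closed under addition, `0 ∈ Y`, `|Y| = 3`, so it is a
subgroup of order 3 and `3 v = 0`. -/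
def S_SFG1 : Prop :=
  ∀ (P L V : Type) [Membership P L] [ProjectivePlane P L] [AddCommGroup V] [Finite V]
    (mul : V →+ V →+ V) (e : V), e ≠ 0 → (∀ v, mul e v = v) → (∀ v, mul v e = v) →
    SCoor P L V mul → Quad4 P L → ∀ v : V, v + v + v = 0

/-- [SF G2] (about 150 lines) The incidence theorem. (Same style as `A2.lean`.)

Proof. Notation as in `IncJ`.  `X0, X0', X1, X1'` is a quadrangle: any three of them contain both
`X0, X0'` (their line is `r0`, and `X1, X1' ∉ r0` since `r0 ∩ r1 = Z`) or both `X1, X1'`. Take `C` from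
`Quad4`. Every line with two points of `C` has exactly 4 points of `C`, and two different such
lines meet in a point of `C`.
`Z = r0 ∩ r1 ∈ C`. `a ≠ a'` (else `a ∋ X0, X0'`, `a = r0 ∋ X1`), so `D ∈ C`; `b ≠ b'`, so `D' ∈ C`.
`D ≠ D'`: else `a` and `b` both contain `X0` and `D` (`X0 ≠ D` as `X0 ∉ v`), `a = b ∋ X1, X1'`, so
`a = r1 ∋ X0`, contradiction. So `v` meets `C` twice, and `c0 = r0 ∩ v ∈ C`, `c1 = r1 ∩ v ∈ C`
(`v ≠ r0, r1` since `Z ∉ v`). `c0 ≠ c1` (else it is `r0 ∩ r1 = Z ∈ v`). `s ∋ c0, X1`,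
`t ∋ c1, X0` meet `C` twice, `s ≠ t` (else it contains `c0, c1`, is `v`, `∋ X1`), `X2 ∈ C`.
`X2 ≠ Z` (else `s ∋ c0, Z`, `s = r0 ∋ X1`). So `r2 = Z X2` meets `C` twice, `c2 ∈ C`.
`c2 ≠ c0`: else `r2 ∋ Z, c0`, `r2 = r0`, `X2 ∈ r0 ∩ s = c0`, `t ∋ c0, c1`, `t = v ∋ X0`. `c2 ≠ c1`: else
`r2 = r1`, `X2 ∈ r1 ∩ t = c1`, `s ∋ c0, c1`, `s = v ∋ X1`.
Let `g` be the line joining `X0` and `c2`; `g ≠ r1`, `Y = g ∩ r1 ∈ C`. `r1 ∩ C = {Z, c1, X1, X1'}`
(four different points), so `Y` is one of them. `Y = Z`: `g = r0 ∋ c2`, `c2 = c0`, no. `Y = c1`: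
`g ∋ c1, c2`, `g = v ∋ X0`, no. `Y = X1'`: `g = b` and `c2 ∈ b`, done.
`Y = X1` is impossible: then `g = a ∋ c2`. `v` has a fourth point `c3 ∈ C` (different from `c0, c1,
c2`); `n` = the line `Z c3`, different from `r0, r1, r2`, contains exactly four points of `C`:
`Z, c3, Y1, Y2`. The lines `a, s, t` do not contain `Z` (`a = r0 ∋ X1`, `s = r0 ∋ X1`,
`t = r1 ∋ X0` otherwise) and not `c3` (they meet `v` in `c2, c0, c1`), so each of the three points
`a ∩ n, s ∩ n, t ∩ n` (all in `C`) is `Y1` or `Y2`, and two of them coincide. If `a ∩ n = s ∩ n`: it is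
`a ∩ s = X1` (`a ≠ s` as they meet `v` in different points), so `X1 ∈ n ∩ r1 = Z`, no.
If `a ∩ n = t ∩ n`: it is `X0 ∈ n ∩ r0 = Z`, no. If `s ∩ n = t ∩ n`: it is `X2 ∈ n ∩ r2 = Z`, no. -/
def S_SFG2 : Prop :=
  ∀ (P L : Type) [Membership P L] [ProjectivePlane P L], Quad4 P L → IncJ P L

/-- [SF G3] (about 120 lines) The hexagon law of the product.

Proof. Given `p0 = w, p1 = w2, q = w1, g0 = A, g1 = b, g2 = k`: `w, A ≠ 0`, `w1 b = w A`,
`w2 A = w b`, `w k = w1 A` (products `mul`); to show `w2 k = w A`.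
If `w2 = w` then `w A = w b`, `A = b`, `w1 = w` (cancel `A`), `k = A`, fine. So assume `w2 ≠ w`.
(All cancellations from `hnz`.) `c1 := (w - w2) A ≠ 0`, `b ≠ 0` (else `w A = 0`),
`w2 ≠ 0` (else `w b = 0`), and `v ≠ -v` for `v ≠ 0` (`h3`: `v + v + v = 0`).
Lemma: for all `x, x', c` with `(x, x') ≠ ..` there are lines `a ∋ pt x 0, pt x' c`,
`a' ∋ pt (-x) 0, pt (-x') c` and a point `D ∈ a, a', vt 0`: if `x = x'` take `a = vt x`,
`a' = vt (-x)`, `D = Z`. Otherwise there is `μ` with `(x' - x) μ = c` (the injective additive map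
`mul (x' - x)` of the finite group `V` is onto), `β = -(x μ)`, `a = ln μ β`, `a' = ln (-μ) β`,
`D = pt 0 β`.
Apply `IncJ` with `Z := sl 0`, `v = vt 0`, `r0 = ln 0 0`, `r1 = ln 0 c1`, `X0 = pt (-w) 0`,
`X0' = pt w 0`, `X1 = pt (w - w2) c1`, `X1' = pt (-(w - w2)) c1`, the lemma for `(-w, w - w2, c1)`
gives `a, a', D`, for `(-w, -(w - w2), c1)` gives `b, b', D'` (there `x ≠ x'` since `w2 ≠ 0`),
`c0 = pt 0 0`, `c1 = pt 0 c1`, `s = ln A 0`, `t = ln (A - b) c1` (contains `X0`: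
`(-w)(A - b) + c1 = 0` since `w2 A = w b`), `X2 = pt (w1 - w) ((w1 - w) A)` (on `t`:
`(w1 - w) A = (w1 - w)(A - b) + c1` iff `(w1 - w) b = c1`, true since `w1 b = w A`, `w b = w2 A`),
`r2 = ln 0 ((w1 - w) A)`, `c2 = pt 0 ((w1 - w) A)`. Conclusion `c2 ∈ b`, where `b = ln μ β`:
`β = (w1 - w) A = w k - w A = w (k - A)`, and `pt (-w) 0 ∈ b`: `w μ = β = w (k - A)`, so
`μ = k - A`; and `X1' ∈ b`: `c1 = -(w - w2)(k - A) + w (k - A) = w2 (k - A)`, i.e.
`w2 k = w2 A + c1 = w A`. -/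
def S_SFG3 : Prop :=
  ∀ (P L V : Type) [Membership P L] [ProjectivePlane P L] [AddCommGroup V] [Finite V]
    (mul : V →+ V →+ V), (∀ x y : V, mul x y = 0 → x = 0 ∨ y = 0) →
    (∀ v : V, v + v + v = 0) → SCoor P L V mul → IncJ P L → HexLaw (fun x y => mul x y)

/-- [SF G4] (about 80 lines) The plane over a field is desarguesian.

Proof. `hA7b : S_A7b` (a plane with coordinates over a field is desarguesian; structure `Coor`).
Let `F` be `V` with the field structure with the given addition and the product `mul` (one `e`;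
inverse of `x ≠ 0`: `mul x` is injective, hence onto as `V` is finite). Let `S` be the set of all
`F`-linear maps `M k : V → V`, `x ↦ mul x k` (`V` as a module over `F`: scalar product `mul`).
Build `C : Coor P L F V` with `C.S = S`, `pt, inf, Z, vt` from the given `SCoor`,
`Zp M = sl (M e)`, `ln M b = ln (M e) b`. `ex`: `x ≠ 0`, `y`: `k` with `mul x k = y`. `uq`: cancel.
Apply `hA7b` with `F`, `r = id : V ≃ F`, `t : C.S ≃ F`, `t M = M e`:
`M x + b = mul (M e) x + b`. -/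
def S_SFG4 : Prop :=
  S_A7b → ∀ (P L V : Type) [Membership P L] [ProjectivePlane P L] [AddCommGroup V] [Finite V]
    (mul : V →+ V →+ V) (e : V), (∀ x y : V, mul x y = 0 → x = 0 ∨ y = 0) → e ≠ 0 →
    (∀ v, mul e v = v) → (∀ v, mul v e = v) →
    (∀ x y, mul x y = mul y x) → (∀ x y z, mul (mul x y) z = mul x (mul y z)) →
    SCoor P L V mul → Desarguesian P L

/-! ## B. left elements and the field lemma -/

/-- [SF DS] (about 120 lines) Left elements `p_k`.

Proof. `T` is a linear bijection (`T_inj`, finite), let `T` also denote the element of the group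
`V ≃ₗ[K] V`, so that `T ^ j` makes sense for `j : ℤ`. Let `A = L_{p0}`; `L_{p1} = A T`.
(a) If `A T⁻¹`-step: let `w ≠ 0` and `q` the element with `q * w = A T⁻¹ w` (`exR`). Then
`q * (T⁻¹ w) = A T⁻¹ T⁻¹ w`. This is the hexagon law with `g0 = T⁻¹ w`, `g1 = w`, `g2 = T⁻¹ g0`... in
detail: let `g0 = T⁻¹ w`, so `p1 * g0 = p0 * w` (`g1 = w`), `q * g1 = p0 * g0`; let `g2` be the
element with `p0 * g2 = q * g0`. The law gives `p1 * g2 = p0 * g0`, i.e. `T g2 = g0`, so
`q * g0 = p0 * g2 = A T⁻¹ g0`.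
(b) By cancellation the element `q` belonging to `w` is also the element belonging to `T⁻¹ w`; by
induction (`T` has finite order, or use `zpow` induction) `q * (T^j w) = A T^(j-1) w` for all `j : ℤ`.
(c) Exchange `p0, p1` (`T` becomes `T⁻¹`, `A` becomes `A T`): for every `w ≠ 0` there is `p` with
`p * (T^j w) = A T^(j+2) w` for all `j : ℤ`. (This holds for every pair `p0, p1 ≠ 0`.)
(d) Induction on `k`: claim `p_k * (T^j g) = A T^(k+j) g` for all `j : ℤ`. `g ≠ 0` without loss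
(for `g = 0` anything). `p_0 = p0`, `p_1 = p1`. If `p_(k-1)`, `p_k` are found (both `≠ 0`), let
`T'' = L_{p_(k-1)}⁻¹ L_{p_k}`; `T'' (T^j g) = T^(j+1) g` since
`p_(k-1) * T^(j+1) g = A T^(k+j) g = p_k * T^j g`. So `T''^j g = T^j g`, and (c) for
`(p_(k-1), p_k, T'')` gives `p` with `p * (T^j g) = p_(k-1) * T^(j+2) g = A T^(k+1+j) g`. -/
def S_SFDS : Prop :=
  ∀ (K V : Type) [Field K] [AddCommGroup V] [Module K V] [Finite V]
    (m : V →ₗ[K] V →ₗ[K] V), PS K V m → ∀ (p0 p1 : V) (T : Module.End K V), p0 ≠ 0 → p1 ≠ 0 →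
      (∀ v, m p0 (T v) = m p1 v) → ∀ (g : V) (k : ℕ),
        ∃ p : V, ∀ j : ℕ, m p ((T ^ j) g) = m p0 ((T ^ (k + j)) g)

/-- [SF LE] (about 40 lines) Left elements for polynomials.

Proof. By linearity: `p = Σ_k (coeff φ k) • p_k`, or `Polynomial.induction_on` in `φ` (for sums add
the elements, for `C a * X^k` take `a • p_k`); for fixed `φ = a X^k` the identity for all `ψ` follows
from the one for `ψ = X^j` by linearity in `ψ`. -/
def S_SFLE : Prop :=
  S_SFDS → ∀ (K V : Type) [Field K] [AddCommGroup V] [Module K V] [Finite V]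
    (m : V →ₗ[K] V →ₗ[K] V), PS K V m → ∀ (p0 p1 : V) (T : Module.End K V), p0 ≠ 0 → p1 ≠ 0 →
      (∀ v, m p0 (T v) = m p1 v) → ∀ (g : V) (φ : K[X]),
        ∃ p : V, ∀ ψ : K[X], m p (aeval T ψ g) = m p0 (aeval T (φ * ψ) g)

/-- the conclusion of [SF LE] for one product -/
def LeftEl {K V : Type} [Field K] [AddCommGroup V] [Module K V] (m : V →ₗ[K] V →ₗ[K] V) : Prop :=
  ∀ (p0 p1 : V) (T : Module.End K V), p0 ≠ 0 → p1 ≠ 0 →
      (∀ v, m p0 (T v) = m p1 v) → ∀ (g : V) (φ : K[X]),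
        ∃ p : V, ∀ ψ : K[X], m p (aeval T ψ g) = m p0 (aeval T (φ * ψ) g)

/-- [SF FL] (about 60 lines) The field lemma: an element of `K[T]` that kills a nonzero vector is
zero.

Proof. (i) For `w ≠ 0` and `φ` with `aeval T φ w ≠ 0`: `aeval T φ` is injective on
`{aeval T ψ w}`, i.e. `aeval T (φ * ψ) w = 0 → aeval T ψ w = 0`: the left element `p` of `(φ, w)` has
`p * w = p0 * (φ(T) w) ≠ 0` (`ψ = 1`), so `p ≠ 0`, and `p * (ψ(T) w) = p0 * ((φψ)(T) w) = 0` gives
`ψ(T) w = 0`. (ii) hence, `V` being finite, there is `χ` with `aeval T (χ * φ) w = w` (the map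
`ψ(T) w ↦ (φψ)(T) w` of the finite set `{ψ(T) w}` is injective, hence onto).
Now let `g ≠ 0`, `φ(T) g = 0` and suppose `φ(T) u ≠ 0` for some `u`. By (ii) for `u` let `χ` with
`(χφ)(T) u = u`, `ψ = 1 - χ φ`: `ψ(T) u = 0`, `ψ(T) g = g`. Let `w = g + u`; `φ(T) w = φ(T) u ≠ 0`, so
`w ≠ 0`, `ψ(T) w = g ≠ 0`, but `(φψ)(T) w = φ(T) ψ(T) w = φ(T) g = 0`, contradicting (i). -/
def S_SFFL : Prop :=
  ∀ (K V : Type) [Field K] [AddCommGroup V] [Module K V] [Finite V]
    (m : V →ₗ[K] V →ₗ[K] V), PS K V m → LeftEl m → ∀ (p0 p1 : V) (T : Module.End K V),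
      p0 ≠ 0 → p1 ≠ 0 → (∀ v, m p0 (T v) = m p1 v) → ∀ (g : V) (φ : K[X]), g ≠ 0 →
        aeval T φ g = 0 → aeval T φ = 0

/-- the conclusion of [SF FL] for one product -/
def FieldLem {K V : Type} [Field K] [AddCommGroup V] [Module K V] (m : V →ₗ[K] V →ₗ[K] V) : Prop :=
  ∀ (p0 p1 : V) (T : Module.End K V), p0 ≠ 0 → p1 ≠ 0 → (∀ v, m p0 (T v) = m p1 v) →
    ∀ (g : V) (φ : K[X]), g ≠ 0 → aeval T φ g = 0 → aeval T φ = 0

/-- [SF FF] (about 60 lines) `K[T]` is a finite field.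

Proof. `Algebra.adjoin K {T}` is a commutative ring (`Algebra.adjoinCommRingOfComm` or the range of
`aeval T`, or use `K[X] ⧸ ker (aeval T)`), it is finite (a subset of the finite set
`Module.End K V`, which embeds in `V → V`), nontrivial and without zero divisors by the hypothesis:
if `φ(T) ψ(T) = 0` and `ψ(T) ≠ 0`, take `u` with `g = ψ(T) u ≠ 0`; `φ(T) g = 0` so `φ(T) = 0`. A finite
domain is a field (`Finite.isField_of_domain`, `Finite.isDomain_to_isField`,
`Fintype.fieldOfDomain`). -/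
def S_SFFF : Prop :=
  ∀ (K V : Type) [Field K] [AddCommGroup V] [Module K V] [Finite V] (T : Module.End K V),
    (∃ v : V, v ≠ 0) →
    (∀ (g : V) (φ : K[X]), g ≠ 0 → aeval T φ g = 0 → aeval T φ = 0) →
    ∃ (F : Type) (_ : Field F) (_ : Finite F) (_ : Algebra K F) (E : F →ₐ[K] Module.End K V)
      (θ : F), E θ = T ∧ ∀ f : F, ∃ φ : K[X], f = aeval θ φ

/-- the conclusion of [SF FF] for one operator: a finite field `F = K[θ]` acting on `V` with
`θ` acting as `T` -/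
def HasField {K V : Type} [Field K] [AddCommGroup V] [Module K V] (T : Module.End K V) : Prop :=
  ∃ (F : Type) (_ : Field F) (_ : Finite F) (_ : Algebra K F) (E : F →ₐ[K] Module.End K V)
      (θ : F), E θ = T ∧ ∀ f : F, ∃ φ : K[X], f = aeval θ φ

/-! ## H. Hua's identity -/

/-- [SF HU1] (about 60 lines)

Proof. Let `T` with `d' * (T v) = a' * v` (`exT`, `p0 = d'`, `p1 = a'`, both `≠ 0`). `T a = d`
(`d' * d = e = a' * a`), `T z = a` (`d' * a = a' * z`). So `a = T z`, `d = T² z`,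
`a + d = (T + T²) z`, `a + z = (1 + T) z`. Since `a + d ≠ 0`, `(1 + T) z ≠ 0`. Take the field `F`,
`E`, `θ` from `HasField T`; `E (1 + θ) z ≠ 0`, so `1 + θ ≠ 0`; let `φ : K[X]` with
`aeval θ φ = θ / (1 + θ)`; then `aeval T φ * (1 + T) = T`. The left element `p` of `(d', a', T)`, `z`, `φ`
satisfies `p * (ψ(T) z) = d' * ((φψ)(T) z)`. `ψ = X + X²`: `p * (a + d) = d' * (T² z) = d' * d = e`, and
`s * (a + d) = e`, so `p = s` (cancelR). `ψ = 1 + X`: `s * (a + z) = d' * (T z) = d' * a`. -/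
def S_SFHU1 : Prop :=
  ∀ (K V : Type) [Field K] [AddCommGroup V] [Module K V] [Finite V]
    (m : V →ₗ[K] V →ₗ[K] V) (e : V), SF K V m e → LeftEl m →
    (∀ (p0 p1 : V) (T : Module.End K V), p0 ≠ 0 → p1 ≠ 0 → (∀ v, m p0 (T v) = m p1 v) →
      HasField T) →
    ∀ a d a' d' s z : V, a ≠ 0 → d ≠ 0 → a + d ≠ 0 → m a' a = e → m d' d = e →
      m s (a + d) = e → m a' z = m d' a → m s (a + z) = m d' a

/-- [SF HU2] (about 60 lines) The two definitions of the quadratic operator agree.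

`h1` is the conclusion of HU1 for `m`, `h2` is the conclusion of HU1 for the opposite product (with
everything written in terms of `m`).
Proof. If `v = 0` then `z = z' = 0`. Let `v ≠ 0`, `d` with `m v d = e`, also `m d v = e`
(`two_sided`), `d ≠ 0`. `m b a = e` too. If `a + d = 0`: `m v a = -e`... so `v = -b` (`m (-b) a = -e
= m v a`, as `m v d = e` and `d = -a`), `m b z = m v a = -e = m b (-a)`, `z = -a`; `m z' b = m a v =
- m a b = -e = m (-a) b`, `z' = -a`. Otherwise let `s` with `m s (a + d) = e` (then also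
`m (a + d) s = e`). `h1` (with `a' = b`, `d' = v`): `m s (a + z) = m v a`. As
`m b (a + z) = e + m v a`: `m (b - s) (a + z) = e`. `h2` (with `a' = b`, `d' = v`):
`m (a + z') s = m a v`, and `m (a + z') b = e + m a v`, so `m (a + z') (b - s) = e`. By `two_sided`
`m (b - s) (a + z') = e = m (b - s) (a + z)` and `b - s ≠ 0`, so `z = z'`. -/
def S_SFHU2 : Prop :=
  ∀ (K V : Type) [Field K] [AddCommGroup V] [Module K V] [Finite V]
    (m : V →ₗ[K] V →ₗ[K] V) (e : V), SF K V m e →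
    (∀ a d a' d' s z : V, a ≠ 0 → d ≠ 0 → a + d ≠ 0 → m a' a = e → m d' d = e →
      m s (a + d) = e → m a' z = m d' a → m s (a + z) = m d' a) →
    (∀ a d a' d' s z : V, a ≠ 0 → d ≠ 0 → a + d ≠ 0 → m a a' = e → m d d' = e →
      m (a + d) s = e → m z a' = m a d' → m (a + z) s = m a d') →
    ∀ a b v z z' : V, a ≠ 0 → m a b = e → m b z = m v a → m z' b = m a v → z = z'

/-- [SF QD] (about 150 lines) Inverses and quadratic operators.

`h1` is HU1 for `m`, `h12` is the conclusion of HU2.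
Proof. `ι v` = the element with `m v (ι v) = e` for `v ≠ 0` (`exL`), `ι 0 = 0`; `m (ι v) v = e` by
`two_sided`. `ii`: `m (ι v) v = e` says `v` is the inverse of `ι v`. `is`: cancel
(`m (f • v) (f⁻¹ • ι v) = e`; for `f = 0` both sides are 0). For `a ≠ 0` let
`U a = L_{ι a}⁻¹ ∘ R_a` as a linear equivalence (`equivL` for `m` and for `m.flip`), `U 0 = 1`.
`Ul` holds by definition.
`Ui`: `v = 0` clear. `v ≠ 0`: let `z = ι v`, `y = U a v`, so `m (ι a) y = m v a`. Let `x = (U a)⁻¹ z`, i.e.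
`m x a = m (ι a) z`. Hexagon law with `p0 = ι a`, `g0 = a`, `q = v`, `g1 = z`, `p1 = x`, `g2 = y`:
`q g1 = m v (ι v) = e = p0 g0`, `p1 g0 = m x a = m (ι a) z = p0 g1`, `p0 g2 = m (ι a) y = m v a = q g0`;
conclusion `m x y = m (ι a) a = e`. So `x = ι y`, i.e. `ι (U a v) = (U a)⁻¹ (ι v)`.
`hua`: let `z = U a (ι d)`: `m (ι a) z = m (ι d) a`; `h1` with `a' = ι a`, `d' = ι d`, `s = ι (a + d)`:
`m s (a + z) = m (ι d) a`; so `m (ι a - s) (a + z) = e + m (ι a) z - m (ι d) a = e`, so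
`a + z = ι (ι a - s)`. -/
def S_SFQD : Prop :=
  ∀ (K V : Type) [Field K] [AddCommGroup V] [Module K V] [Finite V]
    (m : V →ₗ[K] V →ₗ[K] V) (e : V), SF K V m e →
    (∀ a d a' d' s z : V, a ≠ 0 → d ≠ 0 → a + d ≠ 0 → m a' a = e → m d' d = e →
      m s (a + d) = e → m a' z = m d' a → m s (a + z) = m d' a) →
    ∃ (ι : V → V) (U : V → (V ≃ₗ[K] V)), Qd K V m e ι U

/-! ## E. even dimension -/

/-- [SF PAR] (about 120 lines) Parity.

Proof. Let `X = {v // v ≠ 0}`, `ℙ` the set of lines `K v` (`Projectivization K V`, or the quotient of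
`X` by `Kˣ`). `ι` maps nonzero vectors to nonzero vectors (`ι 0 = 0` and `ι ι = id`) and induces an
involution of `ℙ` by `h_smul`. By `h_fix` and `h_e` its only fixed point is the class of `e` (a fixed
class `[v]` has `ι v = c • v`). So `|ℙ|` is odd (`Equiv.Perm.card_fixedPoints_modEq` or
`Function.Involutive.card_fixedPoints..`: `|ℙ| ≡ |fixed points| mod 2`). `|ℙ| (q - 1) = q^d - 1`
(`q = |K|` odd as `2 ≠ 0`: `-1 ≠ 1`.. an involution `x ↦ -x` without fixed points on `K \ 0`, or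
`FiniteField.even_card_iff_char_two`), so `|ℙ| = 1 + q + ... + q^(d-1) ≡ d mod 2` and `d` is odd. -/
def S_SFPAR : Prop :=
  ∀ (K V : Type) [Field K] [Finite K] [AddCommGroup V] [Module K V] [Finite V] (e : V)
    (ι : V → V), (2 : K) ≠ 0 → e ≠ 0 → (∀ v, ι (ι v) = v) →
    (∀ (f : K) (v : V), ι (f • v) = f⁻¹ • ι v) → (∃ c : K, ι e = c • e) →
    (∀ v, (∃ c : K, ι v = c • v) → ∃ f : K, v = f • e) → Odd (Module.finrank K V)

/-- [SF ROOT] (about 80 lines) Existence of a root of a given nonsquare.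

Proof. Let `ι v` be the inverse of `v ≠ 0`, `ι 0 = 0` (as in `SF QD`: `ι ι = id` by `two_sided`,
`ι (f v) = f⁻¹ ι v`). By `hPAR` (contrapositive, `ι e = e`) there is `v ≠ f • e` for all `f`, with
`ι v = c' • v`. `v ≠ 0`, `c' ≠ 0`, so `v * (c' v) = e`, `v * v = c'⁻¹ • e`. `c'' = c'⁻¹` is not a
square: if `c'' = f²` then `(v - f e) * (v + f e) = v * v - f² e = 0`, so `v = ± f e`. The product of
two nonsquares of a finite field is a square (`quadraticChar`, or
`FiniteField.isSquare_or_..`), so `c = c'' g²` for some `g` (`c c'' = h²`, `g = h / c''`); take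
`x = g • v`. -/
def S_SFROOT : Prop :=
  S_SFPAR → ∀ (K V : Type) [Field K] [Finite K] [AddCommGroup V] [Module K V] [Finite V]
    (m : V →ₗ[K] V →ₗ[K] V) (e : V), SF K V m e → (2 : K) ≠ 0 → Even (Module.finrank K V) →
    ∀ c : K, ¬ IsSquare c → ∃ x : V, m x x = c • e

/-- [SF E2] (about 150 lines) Uniqueness of roots.

Proof. `x, y ≠ 0`. `L_x² = c`, `L_y² = c`: `hFL` with `p0 = e`, `p1 = x`, `T = m x`, `φ = X² - C c`,
`g = e`. Put `T = c⁻¹ • (L_x L_y)`; `x * (T v) = c⁻¹ • L_x² L_y v = y * v`, so `T` is the operator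
`L_x⁻¹ L_y` (`p0 = x`, `p1 = y`). `c⁻¹ • (L_y L_x)` is its inverse. `L_x T = L_y = T⁻¹ L_x`. Take
`F, E, θ` from `HasField T`; `E θ = T`, `E θ⁻¹ = T⁻¹`, `E` is injective.
If `θ² = 1` then `θ = ±1`, `T = ±1`, `L_y = L_x T = ±L_x`, `y = ±x` (apply to `e`). Suppose `θ² ≠ 1`.
For `f ∈ F` there is a unique `σ f ∈ F` with `L_x (E f) = E (σ f) L_x`: for `f = aeval θ φ` take
`aeval θ⁻¹ φ` (`L_x φ(T) = φ(T⁻¹) L_x`); unique as `L_x` is bijective and `E` injective. So `σ` is a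
ring homomorphism with `σ σ = id` (`L_x² = c` commutes with everything), `σ θ = θ⁻¹ ≠ θ`, and `σ`
fixes `c⁻¹` (the image of `c⁻¹ ∈ K`). By `hB9` there is `λ ∈ F` with `λ σ(λ) = c⁻¹`. Let
`R = E(λ) L_x`: `R² = E(λ) E(σ λ) L_x² = 1`. `R ≠ -1` (otherwise `L_x = -E(λ⁻¹)` commutes with `T`
and `σ θ = θ`). So there is `u` with `g := R u + u ≠ 0`, and `R g = g`, i.e. `L_x g = E(λ⁻¹) g`.
The left element `p` for `(x, y, T)`, `g` and a polynomial `φ` with `aeval θ φ = σ λ` satisfies for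
all `f ∈ F`: `p * (E f g) = x * (E (σλ · f) g) = E (λ · σ f) L_x g = E (λ σ f λ⁻¹) g = E (σ f) g`.
For `f = 1`: `p * g = g = e * g`, so `p = e`. Hence `E f g = E (σ f) g` for all `f`; for `f = θ`:
`E (θ - θ⁻¹) g = 0` with `θ - θ⁻¹ ≠ 0` invertible, so `g = 0`, contradiction. -/
def S_SFE2 : Prop :=
  S_B9 → ∀ (K V : Type) [Field K] [Finite K] [AddCommGroup V] [Module K V] [Finite V]
    (m : V →ₗ[K] V →ₗ[K] V) (e : V), SF K V m e → (2 : K) ≠ 0 → LeftEl m → FieldLem m →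
    (∀ (p0 p1 : V) (T : Module.End K V), p0 ≠ 0 → p1 ≠ 0 → (∀ v, m p0 (T v) = m p1 v) →
      HasField T) →
    ∀ (c : K) (x y : V), c ≠ 0 → m x x = c • e → m y y = c • e → y = x ∨ y = -x

/-- [SF E3] (about 120 lines) Roots of the isotope with unit `a`.

`hL` is the field lemma for `m`, `hR` the field lemma for the opposite product, `huq` uniqueness.
Proof. `k ≠ 0` (`c ≠ 0`, `a ≠ 0`). Let `M` be the operator with `a * (M v) = k * v` (`exT`).
`M e = w` (`a * w = k = k * e`), `M w = c e` (`a * (M w) = k * w = c a = a * (c e)`). So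
`(M² - c) e = 0` and `M² = c` by `hL` (`p0 = a`, `p1 = k`). Let `g ≠ 0`, `g1 = M g` (`≠ 0` since
`M g1 = c g`), `t` with `t * g = g1` (`exR`), `t ≠ 0`. Let `N` be the operator with
`(N u) * g = u * g1` (`exT` for `m.flip`, `p0 = g`, `p1 = g1`). `N a = k`: `k * g = a * (M g) = a * g1`.
`N k = c a`: `(c a) * g = a * (M (M g)) = a * (M g1) = k * g1`. So `(N² - c) a = 0`, `N² = c` by `hR`.
`N e = t`, so `N t = c e`: `c g = (N t) * g = t * g1 = t * (t * g)`. So `(L_t² - c) g = 0` and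
`L_t² = c` by `hL` (`p0 = e`, `p1 = t`, `T = m t`); apply to `e`: `t * t = c e`, `t = ± x`. Hence
`M g = t * g = ± x * g`. This holds for every `g` (trivially for `g = 0`), so by `union_ker` for
`M - L_x` and `M + L_x`: `M = L_x` or `M = -L_x`. With `M = ε L_x`: `k = k * e = a * (M e) =
ε a * x`, and `ε (a * x) * v = k * v = a * (M v) = ε a * (x * v)`. -/
def S_SFE3 : Prop :=
  ∀ (K V : Type) [Field K] [AddCommGroup V] [Module K V] [Finite V]
    (m : V →ₗ[K] V →ₗ[K] V) (e : V), SF K V m e → FieldLem m → FieldLem m.flip →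
    ∀ (c : K) (x : V), c ≠ 0 → m x x = c • e → (∀ y, m y y = c • e → y = x ∨ y = -x) →
    ∀ a k w : V, a ≠ 0 → m a w = k → m k w = c • a →
      (k = m a x ∨ k = -m a x) ∧ ∀ v, m (m a x) v = m a (m x v)

/-- [SF E4] (about 80 lines) Roots commute with everything.

`hHU`: conclusion of HU2. `hN`: `x` is in the middle nucleus. `hR`: field lemma of the opposite
product. `huR`: E3 for the opposite product.
Proof. By `union_ker` (for `L_x - R_x` and `L_x + R_x`, `R_x = m.flip x`) it suffices: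
`a * x = ± x * a` for every `a ≠ 0`; then `L_x = R_x` or `L_x = -R_x`, and the latter is impossible
(at `e`: `x = -x`, `2 x = 0`, `x ≠ 0`).
Let `k = a * x ≠ 0`, `b` the inverse of `a`, `k'` the inverse of `k` (two-sided). `L_x² = c`: `hN` with
`a := x`: `x * (x * v) = (x * x) * v = c v`. `k * (x * v) = a * (x * (x * v)) = c (a * v)` and
`k * v = a * (x * v)`. With `v = k'`: `a * (x * k') = e`, so `x * k' = b`, and
`k * b = k * (x * k') = c (a * k')`. So `z' = c a` has `z' * k' = k * b`. `hHU` for `a := k`, `b := k'`,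
`v := b`: the `z` with `k' * z = b * k` is `z' = c a`, so `b * k = c (k' * a)`.
Let `w` with `w * a = k`. Let `N` be the operator with `(N u) * a = u * k` (`p0 = a`, `p1 = k` for
`m.flip`). `N e = w`. `N b = c k'` (`(N b) * a = b * k = c (k' * a)`), `N k' = b`
(`(N k') * a = k' * k = e = b * a`). So `(N² - c) b = c (N k') - c b = 0`, `N² = c` by `hR`, and
`N w = N² e = c e`: `w * k = (N w) * a = c a`. So `huR` gives `k = ± x * a`. -/
def S_SFE4 : Prop :=
  ∀ (K V : Type) [Field K] [AddCommGroup V] [Module K V] [Finite V]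
    (m : V →ₗ[K] V →ₗ[K] V) (e : V), SF K V m e → (2 : K) ≠ 0 → FieldLem m.flip →
    (∀ a b v z z' : V, a ≠ 0 → m a b = e → m b z = m v a → m z' b = m a v → z = z') →
    ∀ (c : K) (x : V), c ≠ 0 → m x x = c • e → (∀ a v, m (m a x) v = m a (m x v)) →
    (∀ a k w : V, a ≠ 0 → m w a = k → m w k = c • a → k = m x a ∨ k = -m x a) →
    ∀ a, m a x = m x a

/-- [SF E5] (about 80 lines) Roots are central.

`hroot`: existence of roots in every semifield (applied to isotopes), `hall`: E3 and E4 for every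
semifield over `K` on `V`.
Proof. First (N): `(a * x) * v = a * (x * v)` for all `a, v`: clear for `a = 0`; for `a ≠ 0` take the
isotope `m'`, `A` with unit `a` (`SF.isotope`), a root `k`: `m' k k = c • a` by `hroot`, so
`k * (A k) = c a` and `a * (A k) = k`; use `hE3`. Then (C): `a * x = x * a` for all `a` by `hE4` (with
(N)). Now let `a ≠ 0` and apply this to `m'`: the element `k = a * x` is a root of `m'`:
`m' k k = k * (A k) = (a * x) * x = a * (x * x) = c a` (`A (a * x) = x`). So by (C) for `m'`: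
`m' u k = m' k u` for all `u`, i.e. `u * x = (a * x) * (A u)`. Put `u = a * v`: `(a * v) * x =
(a * x) * v`. So `(a * v) * x = (a * x) * v = a * (x * v)`. Together with (C):
`a * (v * x) = a * (x * v) = (a * v) * x`, and `x * (a * v) = (a * v) * x = (a * x) * v =
(x * a) * v`. -/
def S_SFE5 : Prop :=
  ∀ (K V : Type) [Field K] [AddCommGroup V] [Module K V] [Finite V] (c : K), c ≠ 0 →
    (∀ (m : V →ₗ[K] V →ₗ[K] V) (e : V), SF K V m e → ∃ x : V, m x x = c • e) →
    (∀ (m : V →ₗ[K] V →ₗ[K] V) (e : V), SF K V m e → ∀ x : V, m x x = c • e →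
      ∀ a k w : V, a ≠ 0 → m a w = k → m k w = c • a → ∀ v, m (m a x) v = m a (m x v)) →
    (∀ (m : V →ₗ[K] V →ₗ[K] V) (e : V), SF K V m e → ∀ x : V, m x x = c • e →
      (∀ a v, m (m a x) v = m a (m x v)) → ∀ a, m a x = m x a) →
    ∀ (m : V →ₗ[K] V →ₗ[K] V) (e : V), SF K V m e → ∀ x : V, m x x = c • e →
      (∀ a, m a x = m x a) ∧ (∀ a v, m (m a x) v = m a (m x v)) ∧
      (∀ a v, m (m x a) v = m x (m a v)) ∧ (∀ a v, m (m a v) x = m a (m v x))

/-! ## O. odd dimension -/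

/-- [SF EVD] (about 20 lines)

Proof. `det(h)² = det(h ∘ h) = det(f • 1) = f^d` (`LinearMap.det_comp`, `LinearMap.det_smul`). If `d`
is odd, `d = 2k+1`, `f^(2k) f = det(h)²`, so `f` is a square (`f = 0` is a square too). -/
def S_SFEVD : Prop :=
  ∀ (K V : Type) [Field K] [AddCommGroup V] [Module K V] [FiniteDimensional K V]
    (h : Module.End K V) (f : K), ¬ IsSquare f → (∀ v, h (h v) = f • v) →
    Even (Module.finrank K V)

/-- [SF POW] (about 60 lines) Powers.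

Proof. Let `T = m b`, `p0 = e`, `p1 = b`. For `φ = X^k`, `g = e` the left element `p` satisfies
`p * (ψ(T) e) = (φψ)(T) e`; `ψ = 1`: `p = T^k e`; `ψ = X`: `(T^k e) * b = T^(k+1) e`.
`b'`: let `w` with `b * w = e`; by `two_sided` `w = b'` (`b' * b = e` gives `b * b' = e`). `V` finite:
`T` has finite order `N ≥ 1` (injective, `T^N = 1`), so `b' = T^(N-1) e` (`b * (T^(N-1) e) = e`), and
the left element for `φ = X^(N-1)` is `b'`: `b' * (T^(k+2) e) = T^(N-1+k+2) e = T^(k+1) e`. -/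
def S_SFPOW : Prop :=
  ∀ (K V : Type) [Field K] [AddCommGroup V] [Module K V] [Finite V]
    (m : V →ₗ[K] V →ₗ[K] V) (e : V), SF K V m e → LeftEl m →
    ∀ b b' : V, b ≠ 0 → m b' b = e → ∀ k : ℕ,
      m (((m b) ^ k) e) b = ((m b) ^ (k + 1)) e ∧
      m b' (((m b) ^ (k + 2)) e) = ((m b) ^ (k + 1)) e

/-- [SF SQC] (about 120 lines) Every line contains a square (odd dimension).

Proof. Let `F, E, θ` be the field of `T = m z`, `q = |K|`, `|F| = q^r` with `r = finrank K F`. `V` is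
a vector space over `F` through `E` and a tower, so `r` divides `finrank K V` (or: `|V|` is a power
of `|F|`: `q^d = q^(r s)`), and `r` is odd. `N := 1 + q + ... + q^(r-1)` is odd (`q` odd as
`2 ≠ 0`), `N (q - 1) = q^r - 1`. `(θ^N)^(q-1) = 1` (`θ ≠ 0`, `FiniteField.pow_card_sub_one_eq_one`),
and the roots of `X^(q-1) - 1` in `F` are exactly the `q - 1` elements `algebraMap K F f`, `f ≠ 0`
(a polynomial of degree `q - 1` has at most `q - 1` roots; or `FiniteField`: `x^q = x` iff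
`x ∈ K`). So `θ^N = f ∈ K`. Let `a = E(θ^((N+1)/2)) e = (m z)^((N+1)/2) e`. The left element for
`p0 = e`, `p1 = z`, `g = e`, `φ = X^i` is `T^i e` (`ψ = 1`), so `a * a = T^(N+1) e = E(f θ) e = f z`
(`T e = z`). `a ≠ 0` since `E(..)` is invertible. -/
def S_SFSQC : Prop :=
  ∀ (K V : Type) [Field K] [Finite K] [AddCommGroup V] [Module K V] [Finite V]
    (m : V →ₗ[K] V →ₗ[K] V) (e : V), SF K V m e → (2 : K) ≠ 0 → LeftEl m →
    (∀ (p0 p1 : V) (T : Module.End K V), p0 ≠ 0 → p1 ≠ 0 → (∀ v, m p0 (T v) = m p1 v) →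
      HasField T) →
    Odd (Module.finrank K V) →
    ∀ z : V, z ≠ 0 → ∃ (a : V) (f : K), a ≠ 0 ∧ f ≠ 0 ∧ m a a = f • z

/-- [SF FUND] (about 60 lines) The fundamental formula.

Proof. `D v = U (h b) (k v) - h (U b v)` is linear in `v`. Let `d ≠ 0`, `b + d ≠ 0` and `v = ι d`.
`k (ι d) = ι (h d)`, so by `hua` (with `h b`, `h d`, `h b + h d = h (b + d) ≠ 0`)
`U (h b) (k v) = U (h b) (ι (h d)) = ι (ι (h b) - ι (h (b + d))) - h b
 = ι (k (ι b - ι (b + d))) - h b = h (ι (ι b - ι (b + d))) - h b` (`ι (k w) = h (ι w)`, `StrGrp_swap`)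
`= h (U b (ι d) + b) - h b = h (U b v)`. So `D (ι d) = 0` for `d ≠ 0, -b`, i.e. `D v = 0` for all
`v ≠ 0` with `ι v ≠ -b`, i.e. `v ≠ ι (-b) = -ι b` (`is` with `f = -1`). `D (ι b) = 0` because
`ι b ≠ -ι b` (`2 ≠ 0`, `ι b ≠ 0`), so `D (-ι b) = -D (ι b) = 0` too. -/
def S_SFFUND : Prop :=
  ∀ (K V : Type) [Field K] [AddCommGroup V] [Module K V] [Finite V]
    (m : V →ₗ[K] V →ₗ[K] V) (e : V) (ι : V → V) (U : V → (V ≃ₗ[K] V)), Qd K V m e ι U →
    (2 : K) ≠ 0 → ∀ h k : V ≃ₗ[K] V, (h, k) ∈ StrGrp K ι → ∀ b v : V, b ≠ 0 →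
      U (h b) (k v) = h (U b v)

/-- [SF NOINV] (about 200 lines) No element of even order modulo scalars.

Hypotheses: `hPAR`, `hEVD` pieces; `hfund`: FUND; `hsq`: `ι v ∈ K v` only for `v ∈ K e`; `htr`: for
every `z ≠ 0` some `(h, k)` in the structure group has `h e = z`.
Proof. Let `G` be the structure group, `d = finrank K V` odd.
(P1) A subspace `W ∋ e` with `ι W ⊆ W` has odd dimension: `hPAR` for `W` and the restriction of `ι`
(`ι e = e`: cancel in `m e (ι e) = e`).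
(P2) If `(s, s') ∈ G` and `s e = e` then `s' = s`: `hfund` with `b = e`: `U e (s' v) = s (U e v)` and
`U e = 1` (`Ul` with `a = e`, `ι e = e`). So `ι (s v) = s (ι v)`.
Let `(h, k) ∈ G`, `h (h v) = f • v`. `f` is a square, `f = c²`, by `hEVD`; `c ≠ 0`. If `h v = -c v`
for all `v` we are done. Otherwise `v0 := h u + c u ≠ 0` for some `u`, and `h v0 = c v0`.
Take `(h1, k1) ∈ G` with `h1 e = v0` and `s = c⁻¹ h1⁻¹ h h1`, `s' = c k1⁻¹ k k1`; `(s, s') ∈ G`
(`StrGrp_scal`), `s e = e`, so `ι s = s ι` by (P2), and `s² = 1` (`c⁻² f`).  `V₊ = ker (s - 1) ∋ e` is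
`ι`-invariant, so `dim V₊` is odd by (P1). `V = V₊ ⊕ V₋`, `V₋ = ker (s + 1)` (`2 ≠ 0`), so
`dim V₋` is even. If `V₋ ≠ 0`, let `0 ≠ x0 ∈ V₋`, `(h2, k2) ∈ G` with `h2 e = x0`, and
`r = -h2⁻¹ s h2`, `(r, r') ∈ G` with `r' = -k2⁻¹ s k2`. `r e = -h2⁻¹ (s x0) = h2⁻¹ x0 = e`, so
`ι r = r ι` by (P2), and the fixed space of `r` is `h2⁻¹ (V₋)`, contains `e`, is `ι`-invariant, so
`dim V₋` is odd by (P1), contradiction. So `V₋ = 0`, `s = 1` (`v = (v + s v)/2 + (v - s v)/2`,
the last summand is in `V₋`), and `h = c • 1`. -/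
def S_SFNOINV : Prop :=
  S_SFPAR → S_SFEVD →
  ∀ (K V : Type) [Field K] [Finite K] [AddCommGroup V] [Module K V] [Finite V]
    (m : V →ₗ[K] V →ₗ[K] V) (e : V) (ι : V → V) (U : V → (V ≃ₗ[K] V)), Qd K V m e ι U →
    (2 : K) ≠ 0 → Odd (Module.finrank K V) →
    (∀ h k : V ≃ₗ[K] V, (h, k) ∈ StrGrp K ι → ∀ b v : V, b ≠ 0 → U (h b) (k v) = h (U b v)) →
    (∀ v, (∃ c : K, ι v = c • v) → ∃ f : K, v = f • e) →
    (∀ z : V, z ≠ 0 → ∃ h k : V ≃ₗ[K] V, (h, k) ∈ StrGrp K ι ∧ h e = z) →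
    ∀ h k : V ≃ₗ[K] V, (h, k) ∈ StrGrp K ι → (∃ f : K, ∀ v, h (h v) = f • v) →
      ∃ f : K, ∀ v, h v = f • v

/-- [SF SYL] (about 80 lines, group theory) An involutory automorphism fixes a Sylow subgroup.

Proof. `G ⧸ Z` has odd order: otherwise (`exists_prime_orderOf_dvd_card` for `2`) there is `g ∉ Z` with
`g * g ∈ Z`, contradicting `h2`. So `Z.index` is odd. The number of Sylow `ℓ`-subgroups is the
index of the normalizer of one of them (`Sylow.card_eq_index_normalizer`), which contains `Z`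
(central), so it divides `Z.index` (`Subgroup.index_dvd_of_le`) and is odd. `P ↦ P.map t` is an
involution on the finite set `Sylow ℓ G` of odd cardinality, so it has a fixed point. For such a
`P`: it is an `ℓ`-group, its index is not divisible by `ℓ` (`Sylow.not_dvd_index..`), and
`t x ∈ P` for `x ∈ P`. -/
def S_SFSYL : Prop :=
  ∀ (G : Type) [Group G] [Finite G] (Z : Subgroup G) (t : G ≃* G) (ℓ : ℕ), ℓ.Prime →
    Z ≤ Subgroup.center G → (∀ g : G, g * g ∈ Z → g ∈ Z) → (∀ g, t (t g) = g) →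
    ∃ P : Subgroup G, IsPGroup ℓ P ∧ ¬ ℓ ∣ P.index ∧ ∀ g ∈ P, t g ∈ P

/-- [SF GRP] (about 120 lines)

Proof. Let `G = StrGrp K ι` (finite: a subgroup of the finite group of pairs of bijections of `V`),
`t` the swap automorphism (`StrGrp_swap`), `Z` the subgroup of the pairs `(h, k)` with
`h v = f • v` for all `v`, for some `f : K` (it is central: linear maps commute with scalars; for the
second component, `k (ι v) = ι (h v) = f⁻¹ • ι v`, so `k = f⁻¹`). `h2` of `hSYL` is `hno`. Take `P`.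
Suppose `h e = e` or `h e = -e` for all `(h, k) ∈ P`. Then `h e = e`: the order of `(h, k)` is a power
of `ℓ`, odd (`ℓ ≠ 2`), and `h e = -e` would give `h^n e = -e ≠ e` for `n` odd. So `P` is contained in
the stabilizer of `e` in `G` (acting on `V`), whose index is the size of the orbit of `e`, i.e.
`|V| - 1` (`htr`; `h e ≠ 0` always), divisible by `ℓ`; so `ℓ ∣ P.index`, contradiction.
Hence some `(h, k) ∈ P` has `b := h e ≠ e, -e`; `b ≠ 0`. `hfund` with `b := e`: `U b (k v) = h (U e v) = h v`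
(`U e = 1`), so `U b = h k⁻¹`, and `(U b, (U b)⁻¹) = (h, k) * (k, h)⁻¹ ∈ P`, so it has order a power
of `ℓ`, `(U b)^(ℓ^j) = 1`. -/
def S_SFGRP : Prop :=
  S_SFSYL →
  ∀ (K V : Type) [Field K] [AddCommGroup V] [Module K V] [Finite V]
    (m : V →ₗ[K] V →ₗ[K] V) (e : V) (ι : V → V) (U : V → (V ≃ₗ[K] V)), Qd K V m e ι U →
    (2 : K) ≠ 0 →
    (∀ h k : V ≃ₗ[K] V, (h, k) ∈ StrGrp K ι → ∀ b v : V, b ≠ 0 → U (h b) (k v) = h (U b v)) →
    (∀ z : V, z ≠ 0 → ∃ h k : V ≃ₗ[K] V, (h, k) ∈ StrGrp K ι ∧ h e = z) →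
    (∀ h k : V ≃ₗ[K] V, (h, k) ∈ StrGrp K ι → (∃ f : K, ∀ v, h (h v) = f • v) →
      ∃ f : K, ∀ v, h v = f • v) →
    ∀ ℓ : ℕ, ℓ.Prime → ℓ ≠ 2 → ℓ ∣ Nat.card V - 1 →
      ∃ (b : V) (j : ℕ), b ≠ 0 ∧ b ≠ e ∧ b ≠ -e ∧ ∀ v, ((U b) ^ (ℓ ^ j)) v = v

/-- [SF ZSIG] (about 150 lines, number theory) A primitive prime divisor of `3^n - 1`.

Proof. Let `N = Φ_n(3)` (`(cyclotomic n ℤ).eval 3`); `N > 2^φ(n)`
(`Polynomial.sub_one_pow_totient_lt_cyclotomic_eval` with `q = 3`), so `N ≥ 2`. Let `ℓ` be a prime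
divisor of `N`. `Φ_n ∣ X^n - 1`, so `ℓ ∣ 3^n - 1`, `ℓ ≠ 3`. If some such `ℓ` does not divide `n` then 3
is a root of `Φ_n` in `ZMod ℓ`, so 3 has order exactly `n` modulo `ℓ`
(`Polynomial.isRoot_cyclotomic_iff`), and `ℓ` is as wanted. So suppose every prime divisor `ℓ` of
`N` divides `n`. Write `n = ℓ^a r`, `ℓ ∤ r`, `a ≥ 1`. Over `ZMod ℓ`: `Φ_n = Φ_r^(ℓ^a - ℓ^(a-1))`
(`Polynomial.cyclotomic_mul_prime_pow_eq`), so 3 is a root of `Φ_r`, 3 has order `r` modulo `ℓ`, so
`r ∣ ℓ - 1`. Hence `ℓ` is the largest prime divisor of `n` (all primes of `r` are `< ℓ`); so `N` has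
only one prime divisor `ℓ`, `N = ℓ^k`. Moreover `ℓ² ∤ N`: with `y = 3^(n/ℓ)`, `Φ_n` divides
`(X^n - 1)/(X^(n/ℓ) - 1)`, so `N` divides `(y^ℓ - 1)/(y - 1) = 1 + y + ... + y^(ℓ-1)`, and
`y ≡ 1 mod ℓ` (`r ∣ n/ℓ`). If `ℓ` is odd, `y = 1 + ℓ u` gives
`1 + y + ... + y^(ℓ-1) ≡ ℓ + ℓ u ℓ(ℓ-1)/2 ≡ ℓ mod ℓ²`. If `ℓ = 2` then `r = 1`, `n = 2^a ≥ 4`, `y` is
an even power of 3, `y ≡ 1 mod 4`, `1 + y ≡ 2 mod 4`. So `N = ℓ`. But `ℓ ∣ n` implies
`φ(n) ≥ ℓ - 1` (`Nat.totient_dvd_of_dvd`), so `N > 2^(ℓ-1) ≥ ℓ`, contradiction.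
(Another way to get a contradiction from every prime divisor of `N` divides `n` is welcome.) -/
def S_SFZSIG : Prop :=
  ∀ n : ℕ, 3 ≤ n → ∃ ℓ : ℕ, ℓ.Prime ∧ ℓ ∣ 3 ^ n - 1 ∧ ∀ i, 0 < i → i < n → ¬ ℓ ∣ 3 ^ i - 1

/-- [SF END] (about 100 lines)

Proof. `T = m b`. `hFL` (`p0 = e`, `p1 = b`, `T = m b`, `φ = X^(2 ℓ^j) - 1`, `g = e`): `T^(2 ℓ^j) = 1`.
Let `F, E, θ` be the field of `T`; `E` is injective, so `θ^(2 ℓ^j) = 1`, and `θ² ≠ 1` (else
`b * b = T² e = e`). So the order of `θ²` is a power of `ℓ`, `≠ 1`, hence `ℓ ∣ |F| - 1 = q^r - 1`,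
`q = |K|`, `r = finrank K F ≥ 1`. By `hprim`, `r ≥ d`. The `K`-linear map `F → V`, `f ↦ E f e`, is
injective (`E f` is invertible for `f ≠ 0`), so `r ≤ d` and it is bijective. For
`φ : K[X]` the left element `p` (`p0 = e`, `p1 = b`, `g = e`) satisfies `p * (ψ(T) e) = (φψ)(T) e`; with
`ψ = 1`, `p = φ(T) e`. So `(E f e) * (E f' e) = E (f f') e` for all `f, f' ∈ F`: every vector is of this
form, and the product is commutative and associative. -/
def S_SFEND : Prop :=
  ∀ (K V : Type) [Field K] [Finite K] [AddCommGroup V] [Module K V] [Finite V]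
    (m : V →ₗ[K] V →ₗ[K] V) (e : V), SF K V m e → LeftEl m → FieldLem m →
    (∀ (p0 p1 : V) (T : Module.End K V), p0 ≠ 0 → p1 ≠ 0 → (∀ v, m p0 (T v) = m p1 v) →
      HasField T) →
    ∀ ℓ : ℕ, ℓ.Prime →
      (∀ i, 0 < i → i < Module.finrank K V → ¬ ℓ ∣ (Nat.card K) ^ i - 1) →
    ∀ (b : V) (j : ℕ), b ≠ 0 → m b b ≠ e → ((m b) ^ (2 * ℓ ^ j)) e = e →
      (∀ x y, m x y = m y x) ∧ ∀ x y z, m (m x y) z = m x (m y z)

/-! ## Z. the center -/

/-- [SF CEN] (about 150 lines) The center as a field.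

Proof. The center `C = {c | c x = x c, (c x) y = c (x y), (x c) y = x (c y), (x y) c = x (y c) for
all x, y}` is closed under addition, negation, product, contains `0, e`; with the product `mul` it
is a commutative ring (closure under the product: standard, e.g. make `V` a `NonAssocRing` and use
`NonUnitalSubring.center` / `Set.center`), a finite domain, hence a field `K` (type `C`). `V` is
a `K`-module by `c • v = mul c v`, and `mul` is bilinear over `K`. `(3 : K) = 0` as `3 e = 0`. Any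
central `c` is `c • e` with `c : K`. -/
def S_SFCEN : Prop :=
  ∀ (V : Type) [AddCommGroup V] [Finite V] (mul : V →+ V →+ V) (e : V),
    (∀ x y : V, mul x y = 0 → x = 0 ∨ y = 0) → e ≠ 0 → (∀ v, mul e v = v) →
    (∀ v, mul v e = v) → (∀ v : V, v + v + v = 0) →
    ∃ (K : Type) (_ : Field K) (_ : Finite K) (_ : Module K V) (m : V →ₗ[K] V →ₗ[K] V),
      (3 : K) = 0 ∧ (∀ x y, m x y = mul x y) ∧
      ∀ c : V, (∀ x, mul c x = mul x c) → (∀ x y, mul (mul c x) y = mul c (mul x y)) →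
        (∀ x y, mul (mul x c) y = mul x (mul c y)) →
        (∀ x y, mul (mul x y) c = mul x (mul y c)) → ∃ k : K, c = k • e

end Pool.Agent.TP3
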