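import Mathlib
import Pool.Agent.Lib.MP_a1e562_co.SF.Stm

set_option autoImplicit false

namespace Pool.Agent.TP3

open Polynomial

/-- The kernel of the evaluation at `T` is prime. -/
private theorem sfff_prime {K V : Type} [Field K] [AddCommGroup V] [Module K V]
    (T : Module.End K V) (hV : ∃ v : V, v ≠ 0)
    (h : ∀ (g : V) (φ : K[X]), g ≠ 0 → aeval T φ g = 0 → aeval T φ = 0) :
    (RingHom.ker (aeval T : K[X] →ₐ[K] Module.End K V)).IsPrime := by
  refine ⟨?_, ?_⟩
  · intro htop
    obtain ⟨v, hv⟩ := hV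
    have h1 : (1 : K[X]) ∈ RingHom.ker (aeval T : K[X] →ₐ[K] Module.End K V) := by
      rw [htop]
      trivial
    rw [RingHom.mem_ker, map_one] at h1
    have h2 := congrArg (fun f : Module.End K V => f v) h1
    exact hv h2
  · intro φ ψ hφψ
    by_cases hψ : aeval T ψ = 0
    · exact Or.inr hψ
    · left
      obtain ⟨u, hu⟩ : ∃ u, aeval T ψ u ≠ 0 := by
        by_contra hcon
        push Not at hcon
        exact hψ (LinearMap.ext hcon)
      rw [RingHom.mem_ker, map_mul] at hφψ
      have h2 := congrArg (fun f : Module.End K V => f u) hφψ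
      exact h (aeval T ψ u) φ hu h2

/-- [SF FF] `K[T]` is a finite field. -/
theorem s_SFFF : S_SFFF := by
  intro K V _ _ _ _ T hV h
  have hprime := sfff_prime T hV h
  obtain ⟨I, hI⟩ : ∃ I : Ideal K[X], I = RingHom.ker (aeval T : K[X] →ₐ[K] Module.End K V) :=
    ⟨_, rfl⟩
  rw [← hI] at hprime
  have hlift : ∀ a : K[X], a ∈ I → (aeval T : K[X] →ₐ[K] Module.End K V) a = 0 := by
    intro a ha
    rw [hI] at ha
    exact ha
  let E : K[X] ⧸ I →ₐ[K] Module.End K V := Ideal.Quotient.liftₐ I (aeval T) hlift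
  have hE : ∀ φ : K[X], E (Ideal.Quotient.mk I φ) = aeval T φ := fun φ => rfl
  have hinj : Function.Injective E := by
    rw [injective_iff_map_eq_zero]
    intro a ha
    obtain ⟨φ, rfl⟩ := Ideal.Quotient.mk_surjective a
    rw [hE] at ha
    rw [Ideal.Quotient.eq_zero_iff_mem, hI]
    exact ha
  have hfin : Finite (Module.End K V) :=
    Finite.of_injective (fun f : Module.End K V => (f : V → V)) DFunLike.coe_injective
  have hfinF : Finite (K[X] ⧸ I) := Finite.of_injective E hinj
  have hdom : IsDomain (K[X] ⧸ I) := Ideal.Quotient.isDomain I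
  have hmax : I.IsMaximal := Ideal.Quotient.maximal_of_isField I (Finite.isField_of_domain _)
  refine ⟨K[X] ⧸ I, Ideal.Quotient.field I, hfinF, inferInstance, E, Ideal.Quotient.mk I X, ?_, ?_⟩
  · rw [hE, aeval_X]
  · intro f
    obtain ⟨φ, rfl⟩ := Ideal.Quotient.mk_surjective f
    refine ⟨φ, ?_⟩
    have h1 := Polynomial.aeval_algHom_apply (Ideal.Quotient.mkₐ K I) X φ
    rw [aeval_X_left_apply] at h1
    exact h1.symm

end Pool.Agent.TP3
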