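import Pool.Agent.Lib.MP_a1e562_co.SF.Stm

/-! # [SF FL] the field lemma -/

set_option autoImplicit false

namespace Pool.Agent.TP3

open Configuration Polynomial

section

variable {K V : Type} [Field K] [AddCommGroup V] [Module K V]

theorem sffl_inj {m : V →ₗ[K] V →ₗ[K] V} (h : PS K V m) (hL : LeftEl m) {p0 p1 : V}
    {T : Module.End K V} (h0 : p0 ≠ 0) (h1 : p1 ≠ 0) (hT : ∀ v, m p0 (T v) = m p1 v) {w : V}
    {φ : K[X]} (hw : aeval T φ w ≠ 0) (ψ : K[X]) (hψ : aeval T (φ * ψ) w = 0) :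
    aeval T ψ w = 0 := by
  obtain ⟨p, hp⟩ := hL p0 p1 T h0 h1 hT w φ
  have h2 := hp 1
  rw [mul_one, map_one] at h2
  have h3 : m p w ≠ 0 := by
    have h30 : m p w = m p0 (aeval T φ w) := h2
    rw [h30]
    exact h.mul_ne h0 hw
  have h4 : p ≠ 0 := by
    rintro rfl
    exact h3 (by simp)
  have h5 := hp ψ
  rw [hψ, map_zero] at h5
  exact (h.nz _ _ h5).resolve_left h4

theorem sffl_inv [Finite V] {m : V →ₗ[K] V →ₗ[K] V} (h : PS K V m) (hL : LeftEl m) {p0 p1 : V}
    {T : Module.End K V} (h0 : p0 ≠ 0) (h1 : p1 ≠ 0) (hT : ∀ v, m p0 (T v) = m p1 v) {w : V}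
    {φ : K[X]} (hw : aeval T φ w ≠ 0) : ∃ χ : K[X], aeval T (χ * φ) w = w := by
  let F : Set.range (fun ψ : K[X] => aeval T ψ w) → Set.range (fun ψ : K[X] => aeval T ψ w) :=
    fun x => ⟨aeval T φ x.1, by
      obtain ⟨ψ, hψ⟩ := x.2
      refine ⟨φ * ψ, ?_⟩
      rw [← hψ]
      simp only [map_mul, Module.End.mul_apply]⟩
  have hinj : Function.Injective F := by
    rintro ⟨x, a, ha⟩ ⟨y, b, hb⟩ hxy
    have ha' : aeval T a w = x := ha
    have hb' : aeval T b w = y := hb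
    have h2 : aeval T φ x = aeval T φ y := congrArg Subtype.val hxy
    have h3 : aeval T (φ * (a - b)) w = 0 := by
      rw [map_mul, map_sub, Module.End.mul_apply, LinearMap.sub_apply, ha', hb', map_sub, h2,
        sub_self]
    have h4 := sffl_inj h hL h0 h1 hT hw _ h3
    rw [map_sub, LinearMap.sub_apply, ha', hb', sub_eq_zero] at h4
    exact Subtype.ext h4
  obtain ⟨⟨x, χ, hχ⟩, hx⟩ := Finite.surjective_of_injective hinj ⟨w, 1, by simp⟩
  refine ⟨χ, ?_⟩
  have h2 : aeval T φ x = w := congrArg Subtype.val hx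
  have hχ' : aeval T χ w = x := hχ
  rw [mul_comm, map_mul, Module.End.mul_apply, hχ', h2]

end

theorem s_SFFL : S_SFFL := by
  intro K V _ _ _ _ m h hL p0 p1 T h0 h1 hT g φ hg hφ
  by_contra hne
  obtain ⟨u, hu⟩ : ∃ u, aeval T φ u ≠ 0 := by
    by_contra hc
    push Not at hc
    exact hne (LinearMap.ext fun u => by rw [hc u]; rfl)
  obtain ⟨χ, hχ⟩ := sffl_inv h hL h0 h1 hT hu
  have hu0 : aeval T (1 - χ * φ) u = 0 := by
    rw [map_sub, LinearMap.sub_apply, hχ, map_one]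
    simp
  have hg0 : aeval T (1 - χ * φ) g = g := by
    rw [map_sub, LinearMap.sub_apply, map_one, map_mul, Module.End.mul_apply, hφ, map_zero]
    simp
  have hw : aeval T φ (g + u) ≠ 0 := by
    rw [map_add, hφ, zero_add]
    exact hu
  have h3 : aeval T (φ * (1 - χ * φ)) (g + u) = 0 := by
    rw [map_mul, Module.End.mul_apply, map_add, hu0, hg0, add_zero, hφ]
  have h4 := sffl_inj h hL h0 h1 hT hw _ h3
  rw [map_add, hu0, hg0, add_zero] at h4
  exact hg h4

end Pool.Agent.TP3
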