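import Pool.Agent.Lib.MP_a1e562_co.SF.Stm

/-!
# Piece FUND: the fundamental formula
-/

set_option autoImplicit false

namespace Pool.Agent.TP3

theorem s_SFFUND : S_SFFUND := by
  intro K V _ _ _ _ m e ι U hQ h2 h k hhk b v hb
  have h1 : ∀ w, ι (h w) = k (ι w) := hhk
  have h3 : ∀ w, ι (k w) = h (ι w) := StrGrp_swap hQ.ii hhk
  have hne : ∀ w : V, w ≠ 0 → h w ≠ 0 := fun w hw hc => hw ((LinearEquiv.map_eq_zero_iff h).1 hc)
  have main : ∀ d : V, d ≠ 0 → b + d ≠ 0 → U (h b) (k (ι d)) = h (U b (ι d)) := by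
    intro d hd hbd
    have e1 := hQ.hua (h b) (h d) (hne b hb) (hne d hd) (by rw [← map_add]; exact hne _ hbd)
    have e2 := hQ.hua b d hb hd hbd
    rw [← h1 d, e1, e2, ← map_add, h1 b, h1 (b + d), ← map_sub, h3, map_sub]
  by_cases hv : v = 0
  · subst hv
    simp
  · have hd : ι v ≠ 0 := by
      intro hc
      apply hv
      rw [← hQ.ii v, hc, hQ.i0]
    by_cases hbd : b + ι v = 0
    · have e1 : ι v = (-1 : K) • b := by
        rw [neg_smul, one_smul]
        exact (neg_eq_of_add_eq_zero_right hbd).symm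
      have e2 : v = -ι b := by
        rw [← hQ.ii v, e1, hQ.is]
        have : ((-1 : K))⁻¹ = -1 := by norm_num
        rw [this, neg_smul, one_smul]
      have hbb : b + b ≠ 0 := by
        rw [← two_smul K b]
        exact smul_ne_zero h2 hb
      rw [e2, map_neg, map_neg, main b hb hbb, map_neg, map_neg]
    · have := main (ι v) hd hbd
      rw [hQ.ii] at this
      exact this

end Pool.Agent.TP3
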