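import Mathlib
import Pool.Agent.Lib.MP_a1e562_co.SF.Stm

/-!
# [SF G0] Coordinates of a semifield plane (helper8)
-/

set_option autoImplicit false

namespace Pool.Agent.TP3

open Configuration

private lemma SFG0_eq {P L : Type} [Membership P L] [ProjectivePlane P L] {p q : P} {l m : L}
    (hpq : p ≠ q) (h1 : p ∈ l) (h2 : q ∈ l) (h3 : p ∈ m) (h4 : q ∈ m) : l = m :=
  (Nondegenerate.eq_or_eq h1 h2 h3 h4).resolve_left hpq

private lemma SFG0_pt {P L : Type} [Membership P L] [ProjectivePlane P L] {p q : P} {l m : L}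
    (hlm : l ≠ m) (h1 : p ∈ l) (h2 : q ∈ l) (h3 : p ∈ m) (h4 : q ∈ m) : p = q :=
  (Nondegenerate.eq_or_eq h1 h2 h3 h4).resolve_right hlm

/-- not all points but one lie on a line -/
private lemma SFG0_two {P L : Type} [Membership P L] [ProjectivePlane P L] (ℓ : L) (o : P)
    (h : ∀ q : P, q ≠ o → q ∈ ℓ) : False := by
  obtain ⟨p1, p2, p3, l1, l2, l3, h12, h13, h21, h22, h23, h31, h32, h33⟩ :=
    ProjectivePlane.exists_config (P := P) (L := L)
  have n12 : p1 ≠ p2 := fun e => h12 (e ▸ h22)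
  have n13 : p1 ≠ p3 := fun e => h12 (e ▸ h32)
  have n23 : p2 ≠ p3 := fun e => h33 (e ▸ h23)
  by_cases e1 : p1 = o
  · have i2 : p2 ∈ ℓ := h _ (fun e => n12 (e1.trans e.symm))
    have i3 : p3 ∈ ℓ := h _ (fun e => n13 (e1.trans e.symm))
    have hl3 : l3 ≠ ℓ := fun e => h33 (e ▸ i3)
    have hl : l3 ≠ l1 := fun e => h21 (e ▸ h23)
    obtain ⟨x, hx3, hx1⟩ : ∃ x : P, x ∈ l3 ∧ x ∈ l1 :=
      ⟨HasPoints.mkPoint hl, HasPoints.mkPoint_ax hl⟩
    have hxo : x ≠ o := fun e => h13 (by rw [e1, ← e]; exact hx3)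
    have hx : x = p2 := SFG0_pt hl3 hx3 h23 (h x hxo) i2
    exact h21 (hx ▸ hx1)
  · have i1 : p1 ∈ ℓ := h _ e1
    have hl2 : l2 ≠ ℓ := fun e => h12 (e ▸ i1)
    have hl : l1 ≠ l2 := fun e => h21 (e ▸ h22)
    obtain ⟨x, hx1, hx2⟩ : ∃ x : P, x ∈ l1 ∧ x ∈ l2 :=
      ⟨HasPoints.mkPoint hl, HasPoints.mkPoint_ax hl⟩
    by_cases e2 : p2 = o
    · have i3 : p3 ∈ ℓ := h _ (fun e => n23 (e2.trans e.symm))
      have hxo : x ≠ o := fun e => h21 (by rw [e2, ← e]; exact hx1)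
      have hx : x = p3 := SFG0_pt hl2 hx2 h32 (h x hxo) i3
      exact h31 (hx ▸ hx1)
    · have i2 : p2 ∈ ℓ := h _ e2
      have e3 : p3 = o := by
        by_contra e3
        exact hl2 (SFG0_eq n23 h22 h32 i2 (h _ e3))
      have hxo : x ≠ o := fun e => h31 (by rw [e3, ← e]; exact hx1)
      have hx : x = p2 := SFG0_pt hl2 hx2 h22 (h x hxo) i2
      exact h21 (hx ▸ hx1)

theorem s_SFG0 : S_SFG0 := by
  intro P L _ _ _ hT
  obtain ⟨V, iV, mul, ℓ, φ, hnz, hl, hvt, hln⟩ := hT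
  classical
  -- finiteness
  have hfin : Finite V := by
    have h1 : Finite (V × V) := Finite.of_equiv _ φ
    exact Finite.of_injective (fun v : V => (v, (0 : V))) (fun a b h => (Prod.ext_iff.1 h).1)
  refine ⟨V, iV, hfin, mul, hnz, ?_⟩
  -- affine points
  set ap : V → V → P := fun x y => (φ.symm (x, y)).1 with hap
  have ap_not : ∀ x y, ap x y ∉ ℓ := fun x y => (φ.symm (x, y)).2
  have ap_inj : ∀ x y x' y', ap x y = ap x' y' → x = x' ∧ y = y' := by
    intro x y x' y' h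
    have := φ.symm.injective (Subtype.ext h)
    exact Prod.ext_iff.1 this
  have ap_surj : ∀ q : P, q ∉ ℓ → ∃ x y, q = ap x y := by
    intro q hq
    refine ⟨(φ ⟨q, hq⟩).1, (φ ⟨q, hq⟩).2, ?_⟩
    simp [hap]
  have hv : ∃ v : V, v ≠ 0 := by
    by_contra hc
    push Not at hc
    refine SFG0_two ℓ (ap 0 0) (fun q hq => ?_)
    by_contra hql
    obtain ⟨x, y, rfl⟩ := ap_surj q hql
    rw [hc x, hc y] at hq
    exact hq rfl
  refine ⟨hv, ?_⟩
  obtain ⟨v, hv0⟩ := hv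
  have hl' : ∀ m : L, m ≠ ℓ → (∃ c : V, ∀ x y, ap x y ∈ m ↔ x = c) ∨
      ∃ k b : V, ∀ x y, ap x y ∈ m ↔ y = mul x k + b := by
    intro m hm
    rcases hl m hm with ⟨c, h⟩ | ⟨k, b, h⟩
    · left
      refine ⟨c, fun x y => ?_⟩
      have := h (φ.symm (x, y))
      simpa [hap] using this
    · right
      refine ⟨k, b, fun x y => ?_⟩
      have := h (φ.symm (x, y))
      simpa [hap] using this
  choose VT hVT0 hVT1 using hvt
  choose LN hLN0 hLN1 using hln
  have hVT : ∀ c x y, ap x y ∈ VT c ↔ x = c := by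
    intro c x y
    have := hVT1 c (φ.symm (x, y))
    simpa [hap] using this
  have hLN : ∀ k b x y, ap x y ∈ LN k b ↔ y = mul x k + b := by
    intro k b x y
    have := hLN1 k b (φ.symm (x, y))
    simpa [hap] using this
  -- parallel lines
  have parV : ∀ c c' : V, ∀ z : P, z ∈ ℓ → z ∈ VT c → z ∈ VT c' := by
    intro c c' z hz hzc
    by_cases h : VT c = VT c'
    · rwa [← h]
    · obtain ⟨x, hx1, hx2⟩ : ∃ x : P, x ∈ VT c ∧ x ∈ VT c' :=
        ⟨HasPoints.mkPoint h, HasPoints.mkPoint_ax h⟩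
      have hxl : x ∈ ℓ := by
        by_contra hxl
        obtain ⟨u, w, rfl⟩ := ap_surj x hxl
        exact h (congrArg VT (((hVT _ _ _).1 hx1).symm.trans ((hVT _ _ _).1 hx2)))
      have : z = x := SFG0_pt (hVT0 c) hzc hx1 hz hxl
      rw [this]
      exact hx2
  have parL : ∀ k b b' : V, ∀ z : P, z ∈ ℓ → z ∈ LN k b → z ∈ LN k b' := by
    intro k b b' z hz hzc
    by_cases h : LN k b = LN k b'
    · rwa [← h]
    · obtain ⟨x, hx1, hx2⟩ : ∃ x : P, x ∈ LN k b ∧ x ∈ LN k b' :=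
        ⟨HasPoints.mkPoint h, HasPoints.mkPoint_ax h⟩
      have hxl : x ∈ ℓ := by
        by_contra hxl
        obtain ⟨u, w, rfl⟩ := ap_surj x hxl
        have h1 := (hLN _ _ _ _).1 hx1
        have h2 := (hLN _ _ _ _).1 hx2
        exact h (congrArg (LN k) (add_left_cancel (h1.symm.trans h2)))
      have : z = x := SFG0_pt (hLN0 k b) hzc hx1 hz hxl
      rw [this]
      exact hx2
  -- lines with the same affine points
  have lextV : ∀ c, ∀ m : L, (∀ x y, ap x y ∈ m ↔ x = c) → m = VT c := by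
    intro c m hm
    refine SFG0_eq (p := ap c 0) (q := ap c v) ?_ ((hm _ _).2 rfl) ((hm _ _).2 rfl)
      ((hVT _ _ _).2 rfl) ((hVT _ _ _).2 rfl)
    intro h
    exact hv0 (ap_inj _ _ _ _ h).2.symm
  have lextL : ∀ k b, ∀ m : L, (∀ x y, ap x y ∈ m ↔ y = mul x k + b) → m = LN k b := by
    intro k b m hm
    refine SFG0_eq (p := ap 0 (mul 0 k + b)) (q := ap v (mul v k + b)) ?_ ((hm _ _).2 rfl)
      ((hm _ _).2 rfl) ((hLN _ _ _ _).2 rfl) ((hLN _ _ _ _).2 rfl)
    intro h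
    exact hv0 (ap_inj _ _ _ _ h).1.symm
  -- the origin
  have oV : ap 0 0 ∈ VT 0 := (hVT _ _ _).2 rfl
  have oL : ∀ k, ap 0 0 ∈ LN k 0 := fun k => (hLN _ _ _ _).2 (by simp)
  have nol : ∀ z : P, z ∈ ℓ → z ≠ ap 0 0 := fun z hz h => ap_not 0 0 (h ▸ hz)
  have VL : ∀ k, VT 0 ≠ LN k 0 := by
    intro k h
    have h1 : ap 0 v ∈ LN k 0 := by
      rw [← h]
      exact (hVT _ _ _).2 rfl
    have h2 := (hLN _ _ _ _).1 h1
    simp only [map_zero, AddMonoidHom.zero_apply, add_zero] at h2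
    exact hv0 h2
  have LL : ∀ j k, LN j 0 = LN k 0 → j = k := by
    intro j k h
    have h1 : ap v (mul v j) ∈ LN k 0 := by
      rw [← h]
      exact (hLN _ _ _ _).2 (by simp)
    have h2 := (hLN _ _ _ _).1 h1
    rw [add_zero] at h2
    have h3 : mul v (j - k) = 0 := by rw [map_sub, h2, sub_self]
    exact sub_eq_zero.1 ((hnz _ _ h3).resolve_left hv0)
  -- points at infinity
  obtain ⟨Z, hZV, hZl⟩ : ∃ x : P, x ∈ VT 0 ∧ x ∈ ℓ :=
    ⟨HasPoints.mkPoint (hVT0 0), HasPoints.mkPoint_ax (hVT0 0)⟩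
  have hslex : ∀ k : V, ∃ z : P, z ∈ LN k 0 ∧ z ∈ ℓ := fun k =>
    ⟨HasPoints.mkPoint (hLN0 k 0), HasPoints.mkPoint_ax (hLN0 k 0)⟩
  choose sl hslL hsll using hslex
  refine ⟨{
    inf := ℓ
    Z := Z
    pt := ap
    sl := sl
    vt := VT
    ln := LN
    pts := ?_
    lns := ?_
    pt_inf := ap_not
    pt_vt := fun x y c => hVT c x y
    pt_ln := fun k b x y => hLN k b x y
    sl_inf := hsll
    sl_vt := ?_
    sl_ln := ?_
    Z_inf := hZl
    Z_vt := fun c => parV 0 c Z hZl hZV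
    Z_ln := ?_ }⟩
  · intro q
    by_cases hq : q ∈ ℓ
    · have hne : q ≠ ap 0 0 := nol q hq
      obtain ⟨m, hm1, hm2⟩ : ∃ m : L, q ∈ m ∧ ap 0 0 ∈ m :=
        ⟨HasLines.mkLine hne, HasLines.mkLine_ax hne⟩
      have hml : m ≠ ℓ := fun h => ap_not 0 0 (h ▸ hm2)
      rcases hl' m hml with ⟨c, hc⟩ | ⟨k, b, hk⟩
      · right
        right
        have h0 : (0 : V) = c := (hc 0 0).1 hm2
        have hm : m = VT 0 := by rw [h0]; exact lextV c m hc
        exact SFG0_pt hml hm1 (hm ▸ hZV) hq hZl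
      · right
        left
        have h0 : b = 0 := by
          have := (hk 0 0).1 hm2
          simpa using this.symm
        have hm : m = LN k 0 := by rw [← h0]; exact lextL k b m hk
        exact ⟨k, SFG0_pt hml hm1 (hm ▸ hslL k) hq (hsll k)⟩
    · exact Or.inl (ap_surj q hq)
  · intro l
    by_cases hll : l = ℓ
    · exact Or.inl hll
    right
    rcases hl' l hll with ⟨c, hc⟩ | ⟨k, b, hk⟩
    · exact Or.inl ⟨c, lextV c l hc⟩
    · exact Or.inr ⟨k, b, lextL k b l hk⟩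
  · intro k c h
    have h1 := parV c 0 _ (hsll k) h
    exact VL k (SFG0_eq (nol _ (hsll k)) h1 oV (hslL k) (oL k))
  · intro j k b
    constructor
    · intro h
      have h1 := parL k b 0 _ (hsll j) h
      exact LL j k (SFG0_eq (nol _ (hsll j)) (hslL j) (oL j) h1 (oL k))
    · rintro rfl
      exact parL j 0 b _ (hsll j) (hslL j)
  · intro k b h
    have h1 := parL k b 0 _ hZl h
    exact VL k (SFG0_eq (nol _ hZl) hZV oV h1 (oL k))

end Pool.Agent.TP3
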