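import Pool.Agent.Lib.MP_a1e562_co.SF.Stm

/-!
# [SF G0B] a unit for the coordinates of a semifield plane (helper98)
-/

set_option autoImplicit false

namespace Pool.Agent.TP3

theorem s_SFG0B : S_SFG0B := by
  intro P L V _ _ _ mul nz hex S
  obtain ⟨x0, hx0⟩ := hex
  have hRi : Function.Injective (mul.flip x0) := by
    rw [injective_iff_map_eq_zero]
    intro a ha
    rw [AddMonoidHom.flip_apply] at ha
    exact (nz a x0 ha).resolve_right hx0
  have hLi : Function.Injective (mul x0) := by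
    rw [injective_iff_map_eq_zero]
    intro a ha
    exact (nz x0 a ha).resolve_left hx0
  obtain ⟨R, hR⟩ : ∃ R : V ≃+ V, ∀ x, R x = mul x x0 :=
    ⟨AddEquiv.ofBijective (mul.flip x0) ⟨hRi, Finite.surjective_of_injective hRi⟩, fun _ => rfl⟩
  obtain ⟨Lq, hL⟩ : ∃ Lq : V ≃+ V, ∀ x, Lq x = mul x0 x :=
    ⟨AddEquiv.ofBijective (mul x0) ⟨hLi, Finite.surjective_of_injective hLi⟩, fun _ => rfl⟩
  obtain ⟨mul', hmul⟩ : ∃ mul' : V →+ V →+ V, ∀ x k, mul' x k = mul (R.symm x) (Lq.symm k) :=
    ⟨(mul.comp R.symm.toAddMonoidHom).compl₂ Lq.symm.toAddMonoidHom, fun _ _ => rfl⟩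
  have hRe : R.symm (mul x0 x0) = x0 := by
    rw [← hR x0, AddEquiv.symm_apply_apply]
  have hLe : Lq.symm (mul x0 x0) = x0 := by
    rw [← hL x0, AddEquiv.symm_apply_apply]
  refine ⟨mul', mul x0 x0, ?_, ?_, ?_, ?_, ?_⟩
  · intro x y hxy
    rw [hmul] at hxy
    rcases nz _ _ hxy with h | h
    · exact Or.inl (by simpa using h)
    · exact Or.inr (by simpa using h)
  · intro h
    exact (nz _ _ h).elim hx0 hx0
  · intro v
    rw [hmul, hRe, ← hL, AddEquiv.apply_symm_apply]
  · intro v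
    rw [hmul, hLe, ← hR, AddEquiv.apply_symm_apply]
  · exact ⟨{
      inf := S.inf
      Z := S.Z
      pt := fun x y => S.pt (R.symm x) y
      sl := fun k => S.sl (Lq.symm k)
      vt := fun c => S.vt (R.symm c)
      ln := fun k b => S.ln (Lq.symm k) b
      pts := by
        intro q
        rcases S.pts q with ⟨x, y, h⟩ | ⟨k, h⟩ | h
        · exact Or.inl ⟨R x, y, by simpa using h⟩
        · exact Or.inr (Or.inl ⟨Lq k, by simpa using h⟩)
        · exact Or.inr (Or.inr h)
      lns := by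
        intro l
        rcases S.lns l with h | ⟨c, h⟩ | ⟨k, b, h⟩
        · exact Or.inl h
        · exact Or.inr (Or.inl ⟨R c, by simpa using h⟩)
        · exact Or.inr (Or.inr ⟨Lq k, b, by simpa using h⟩)
      pt_inf := fun x y => S.pt_inf _ _
      pt_vt := fun x y c => (S.pt_vt _ y _).trans R.symm.injective.eq_iff
      pt_ln := fun k b x y => by rw [hmul]; exact S.pt_ln _ b _ y
      sl_inf := fun k => S.sl_inf _
      sl_vt := fun k c => S.sl_vt _ _
      sl_ln := fun j k b => (S.sl_ln _ _ b).trans Lq.symm.injective.eq_iff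
      Z_inf := S.Z_inf
      Z_vt := fun c => S.Z_vt _
      Z_ln := fun k b => S.Z_ln _ b }⟩

end Pool.Agent.TP3
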