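import Pool.Agent.Lib.MP_a1e562_co.SF.Stm

/-! # [SF G1] exponent three -/

set_option autoImplicit false

namespace Pool.Agent.TP3

open Configuration

private theorem SFG1_four {P : Type} {S : Set P} (h : S.ncard = 4) {a b c : P} (ha : a ∈ S)
    (hb : b ∈ S) (hc : c ∈ S) (hab : a ≠ b) (hac : a ≠ c) (hbc : b ≠ c) :
    ∃ d ∈ S, d ≠ a ∧ d ≠ b ∧ d ≠ c ∧ ∀ x ∈ S, x = a ∨ x = b ∨ x = c ∨ x = d := by
  have hf : S.Finite := Set.finite_of_ncard_ne_zero (by rw [h]; norm_num)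
  have h3 : ({a, b, c} : Set P).ncard = 3 := Set.ncard_eq_three.2 ⟨a, b, c, hab, hac, hbc, rfl⟩
  have hsub : ({a, b, c} : Set P) ⊆ S := by
    intro x hx
    simp only [Set.mem_insert_iff, Set.mem_singleton_iff] at hx
    rcases hx with rfl | rfl | rfl
    · exact ha
    · exact hb
    · exact hc
  have h1 : (S \ {a, b, c}).ncard = 1 := by
    rw [Set.ncard_sdiff hsub (hf.subset hsub), h, h3]
  obtain ⟨d, hd⟩ := Set.ncard_eq_one.1 h1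
  have hdS : d ∈ S \ {a, b, c} := by rw [hd]; exact Set.mem_singleton d
  have hd2 := hdS.2
  simp only [Set.mem_insert_iff, Set.mem_singleton_iff, not_or] at hd2
  refine ⟨d, hdS.1, hd2.1, hd2.2.1, hd2.2.2, ?_⟩
  intro x hx
  by_cases hxa : x = a
  · exact Or.inl hxa
  by_cases hxb : x = b
  · exact Or.inr (Or.inl hxb)
  by_cases hxc : x = c
  · exact Or.inr (Or.inr (Or.inl hxc))
  refine Or.inr (Or.inr (Or.inr ?_))
  have : x ∈ S \ {a, b, c} := by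
    refine ⟨hx, ?_⟩
    simp only [Set.mem_insert_iff, Set.mem_singleton_iff, not_or]
    exact ⟨hxa, hxb, hxc⟩
  rw [hd] at this
  exact this

theorem s_SFG1 : S_SFG1 := by
  intro P L V _ _ _ _ mul u hu0 hul hur c hQ v
  by_cases he : v = 0
  · simp [he]
  -- incidences
  have l0 : ∀ b x : V, c.pt x b ∈ c.ln 0 b := fun b x => by
    rw [c.pt_ln]; simp
  have l1 : ∀ b x : V, c.pt x (x + b) ∈ c.ln u b := fun b x => by
    rw [c.pt_ln, hur]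
  have lv : ∀ x y : V, c.pt x y ∈ c.vt x := fun x y => (c.pt_vt x y x).2 rfl
  have hOe : c.pt 0 0 ∈ c.ln u 0 := by simpa using l1 0 0
  have hEe : c.pt v v ∈ c.ln u 0 := by simpa using l1 0 v
  have h10 : (0 : V) ≠ u := fun h => hu0 h.symm
  have hW : ∀ b : V, c.sl 0 ∈ c.ln 0 b := fun b => (c.sl_ln 0 0 b).2 rfl
  have hW1 : ∀ b : V, c.sl u ∈ c.ln u b := fun b => (c.sl_ln u u b).2 rfl
  have vl : ∀ d b : V, ∀ k : V, c.vt d ≠ c.ln k b :=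
    fun d b k h => c.Z_ln k b (h ▸ c.Z_vt d)
  have hOE : ∀ k : L, c.pt 0 0 ∈ k → c.pt v v ∈ k → k = c.ln u 0 := by
    intro k h1 h2
    rcases Nondegenerate.eq_or_eq h1 h2 hOe hEe with h | h
    · exfalso
      have h3 := (c.pt_vt v v 0).1 (h ▸ lv 0 0)
      exact he h3
    · exact h
  have ptZ : ∀ x y : V, c.pt x y ≠ c.Z := fun x y h => c.pt_inf x y (h ▸ c.Z_inf)
  have ptW : ∀ x y : V, ∀ k : V, c.pt x y ≠ c.sl k :=
    fun x y k h => c.pt_inf x y (h ▸ c.sl_inf k)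
  have WZ : ∀ k : V, c.sl k ≠ c.Z := fun k h => c.sl_vt k 0 (h ▸ c.Z_vt 0)
  have hWZ : ∀ k : L, c.sl 0 ∈ k → c.Z ∈ k → k = c.inf := by
    intro k h1 h2
    rcases Nondegenerate.eq_or_eq h1 h2 (c.sl_inf 0) c.Z_inf with h | h
    · exact absurd h (WZ 0)
    · exact h
  obtain ⟨C, hOC, hEC, hWC, hZC, hS⟩ := hQ (c.pt 0 0) (c.pt v v) (c.sl 0) c.Z
    (fun ⟨k, h1, h2, h3⟩ => h10 ((c.sl_ln 0 u 0).1 (hOE k h1 h2 ▸ h3)))
    (fun ⟨k, h1, h2, h3⟩ => c.Z_ln u 0 (hOE k h1 h2 ▸ h3))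
    (fun ⟨k, h1, h2, h3⟩ => c.pt_inf 0 0 (hWZ k h2 h3 ▸ h1))
    (fun ⟨k, h1, h2, h3⟩ => c.pt_inf v v (hWZ k h2 h3 ▸ h1))
  have meet : ∀ {k k' : L} {x : P}, (∃ p ∈ C, ∃ q ∈ C, p ≠ q ∧ p ∈ k ∧ q ∈ k) →
      (∃ p ∈ C, ∃ q ∈ C, p ≠ q ∧ p ∈ k' ∧ q ∈ k') → k ≠ k' → x ∈ k → x ∈ k' → x ∈ C := by
    rintro k k' x ⟨p, hp, q, hq, hpq, hpk, hqk⟩ ⟨p', hp', q', hq', hpq', hpk', hqk'⟩ hkk hx hx'
    exact hS.meet p hp q hq hpq p' hp' q' hq' hpq' k k' hkk hpk hqk hpk' hqk' x hx hx'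
  have Tinf : ∃ p ∈ C, ∃ q ∈ C, p ≠ q ∧ p ∈ c.inf ∧ q ∈ c.inf :=
    ⟨c.sl 0, hWC, c.Z, hZC, WZ 0, c.sl_inf 0, c.Z_inf⟩
  have Te : ∃ p ∈ C, ∃ q ∈ C, p ≠ q ∧ p ∈ c.ln u 0 ∧ q ∈ c.ln u 0 := by
    refine ⟨c.pt 0 0, hOC, c.pt v v, hEC, ?_, hOe, hEe⟩
    intro h
    exact he ((c.pt_vt v v 0).1 (h ▸ lv 0 0))
  have Tv0 : ∃ p ∈ C, ∃ q ∈ C, p ≠ q ∧ p ∈ c.vt 0 ∧ q ∈ c.vt 0 :=
    ⟨c.pt 0 0, hOC, c.Z, hZC, ptZ 0 0, lv 0 0, c.Z_vt 0⟩
  have hZ1C : c.sl u ∈ C :=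
    meet Tinf Te (fun h => c.pt_inf 0 0 (h ▸ hOe)) (c.sl_inf u) (hW1 0)
  -- a point (x, b) in C gives (0, b) in C
  have proj : ∀ x b : V, c.pt x b ∈ C → c.pt 0 b ∈ C := by
    intro x b h
    refine meet (k := c.ln 0 b) ⟨c.pt x b, h, c.sl 0, hWC, ptW x b 0, l0 b x, hW b⟩ Tv0
      (vl 0 b 0).symm (l0 b 0) (lv 0 b)
  have addc : ∀ y y' : V, c.pt 0 y ∈ C → c.pt 0 y' ∈ C → c.pt 0 (y + y') ∈ C := by
    intro y y' h h'
    have h1 : c.pt y y ∈ C := by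
      refine meet (k := c.ln 0 y) ⟨c.pt 0 y, h, c.sl 0, hWC, ptW 0 y 0, l0 y 0, hW y⟩ Te
        ?_ (l0 y y) (by simpa using l1 0 y)
      intro hh
      exact h10 ((c.sl_ln 0 u 0).1 (hh ▸ hW y))
    have h2 : c.pt y (y + y') ∈ C := by
      refine meet (k := c.vt y) (k' := c.ln u y')
        ⟨c.pt y y, h1, c.Z, hZC, ptZ y y, lv y y, c.Z_vt y⟩
        ⟨c.pt 0 y', h', c.sl u, hZ1C, ptW 0 y' u, by simpa using l1 y' 0, hW1 y'⟩
        (vl y y' u) (lv y _) (l1 y' y)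
    exact proj y _ h2
  have heY : c.pt 0 v ∈ C := proj v v hEC
  have ptinj : ∀ y y' : V, c.pt 0 y = c.pt 0 y' → y = y' := by
    intro y y' h
    have h1 := l0 y' 0
    rw [← h] at h1
    have h2 := (c.pt_ln 0 y' 0 y).1 h1
    simpa using h2
  have hfour : Set.ncard {x : P | x ∈ C ∧ x ∈ c.vt 0} = 4 :=
    hS.four _ hOC _ hZC (ptZ 0 0) _ (lv 0 0) (c.Z_vt 0)
  obtain ⟨d, ⟨hdC, hdv⟩, hdZ, hdO, hdE, hall⟩ := SFG1_four hfour (a := c.Z) (b := c.pt 0 0)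
    (c := c.pt 0 v) ⟨hZC, c.Z_vt 0⟩ ⟨hOC, lv 0 0⟩ ⟨heY, lv 0 v⟩ (ptZ 0 0).symm (ptZ 0 v).symm
    (fun h => he (ptinj _ _ h).symm)
  obtain ⟨f, rfl⟩ : ∃ f : V, d = c.pt 0 f := by
    rcases c.pts d with ⟨x, y, rfl⟩ | ⟨k, rfl⟩ | rfl
    · have := (c.pt_vt x y 0).1 hdv
      exact ⟨y, by rw [this]⟩
    · exact absurd hdv (c.sl_vt k 0)
    · exact absurd rfl hdZ
  have hf0 : f ≠ 0 := fun h => hdO (by rw [h])
  have hfe : f ≠ v := fun h => hdE (by rw [h])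
  have hY : ∀ y : V, c.pt 0 y ∈ C → y = 0 ∨ y = v ∨ y = f := by
    intro y hy
    rcases hall _ ⟨hy, lv 0 y⟩ with h | h | h | h
    · exact absurd h (ptZ 0 y)
    · exact Or.inl (ptinj _ _ h)
    · exact Or.inr (Or.inl (ptinj _ _ h))
    · exact Or.inr (Or.inr (ptinj _ _ h))
  have hef := hY _ (addc v f heY hdC)
  have hee := hY _ (addc v v heY heY)
  rcases hee with h | h | h
  · exfalso
    rcases hef with h' | h' | h'
    · have : f = v := by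
        have h5 : f = -v := by rw [eq_neg_iff_add_eq_zero, add_comm]; exact h'
        have h6 : v = -v := by rw [eq_neg_iff_add_eq_zero]; exact h
        rw [h5, ← h6]
      exact hfe this
    · exact hf0 (by simpa using h')
    · exact he (by simpa using h')
  · exact absurd (by simpa using h) he
  · rw [h, add_comm]
    rcases hef with h' | h' | h'
    · exact h'
    · exact absurd (by simpa using h') hf0
    · exact absurd (by simpa using h') he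

end Pool.Agent.TP3
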