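import Pool.Agent.Lib.MP_a1e562_co.SF.Stm

/-! # [SF G2] the incidence theorem for semifield planes -/

set_option autoImplicit false

namespace Pool.Agent.TP3

open Configuration

private theorem G2_ll {P L : Type} [Membership P L] [ProjectivePlane P L] {p q : P} {l m : L}
    (h : p ≠ q) (h1 : p ∈ l) (h2 : q ∈ l) (h3 : p ∈ m) (h4 : q ∈ m) : l = m :=
  (Nondegenerate.eq_or_eq h1 h2 h3 h4).resolve_left h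

private theorem G2_pp {P L : Type} [Membership P L] [ProjectivePlane P L] {p q : P} {l m : L}
    (h : l ≠ m) (h1 : p ∈ l) (h2 : q ∈ l) (h3 : p ∈ m) (h4 : q ∈ m) : p = q :=
  (Nondegenerate.eq_or_eq h1 h2 h3 h4).resolve_right h

private theorem G2_four {P : Type} {S : Set P} (h : S.ncard = 4) {a b c : P} (ha : a ∈ S)
    (hb : b ∈ S) (hc : c ∈ S) (hab : a ≠ b) (hac : a ≠ c) (hbc : b ≠ c) :
    ∃ d ∈ S, d ≠ a ∧ d ≠ b ∧ d ≠ c ∧ ∀ x ∈ S, x = a ∨ x = b ∨ x = c ∨ x = d := by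
  have hf : S.Finite := Set.finite_of_ncard_ne_zero (by rw [h]; norm_num)
  have h3 : ({a, b, c} : Set P).ncard = 3 := Set.ncard_eq_three.2 ⟨a, b, c, hab, hac, hbc, rfl⟩
  have hsub : ({a, b, c} : Set P) ⊆ S := by
    intro x hx
    simp only [Set.mem_insert_iff, Set.mem_singleton_iff] at hx
    rcases hx with rfl | rfl | rfl
    · exact ha
    · exact hb
    · exact hc
  have h1 : (S \ {a, b, c}).ncard = 1 := by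
    rw [Set.ncard_diff hsub (hf.subset hsub), h, h3]
  obtain ⟨d, hd⟩ := Set.ncard_eq_one.1 h1
  have hdS : d ∈ S \ {a, b, c} := by rw [hd]; exact Set.mem_singleton d
  have hd2 := hdS.2
  simp only [Set.mem_insert_iff, Set.mem_singleton_iff, not_or] at hd2
  refine ⟨d, hdS.1, hd2.1, hd2.2.1, hd2.2.2, ?_⟩
  intro x hx
  by_cases hxa : x = a
  · exact Or.inl hxa
  by_cases hxb : x = b
  · exact Or.inr (Or.inl hxb)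
  by_cases hxc : x = c
  · exact Or.inr (Or.inr (Or.inl hxc))
  refine Or.inr (Or.inr (Or.inr ?_))
  have : x ∈ S \ {a, b, c} := by
    refine ⟨hx, ?_⟩
    simp only [Set.mem_insert_iff, Set.mem_singleton_iff, not_or]
    exact ⟨hxa, hxb, hxc⟩
  rw [hd] at this
  exact this

theorem s_SFG2 : S_SFG2 := by
  intro P L _ _ hQ Z X0 X0' X1 X1' c0 c1 c2 X2 D D' v r0 r1 r2 a a' b b' s t
    hZv hr01 hZr0 hZr1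
    hX0r0 hX0'r0 hX00' hX0Z hX0'Z hX0v hX0'v
    hX1r1 hX1'r1 hX11' hX1Z hX1'Z hX1v hX1'v
    hX0a hX1a hX0'a' hX1'a' hDa hDa' hDv
    hX0b hX1'b hX0'b' hX1b' hD'b hD'b' hD'v
    hc0r0 hc0v hc1r1 hc1v
    hc0s hX1s hc1t hX0t hX2s hX2t
    hZr2 hX2r2 hc2r2 hc2v
  have nr : ∀ {p : P}, p ∈ r0 → p ∈ r1 → p = Z := fun h1 h2 => G2_pp hr01 h1 hZr0 h2 hZr1
  have hX1r0 : X1 ∉ r0 := fun h => hX1Z (nr h hX1r1)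
  have hX1'r0 : X1' ∉ r0 := fun h => hX1'Z (nr h hX1'r1)
  have hX0r1 : X0 ∉ r1 := fun h => hX0Z (nr hX0r0 h)
  have hX0'r1 : X0' ∉ r1 := fun h => hX0'Z (nr hX0'r0 h)
  obtain ⟨C, hX0C, hX0'C, hX1C, hX1'C, hS⟩ := hQ X0 X0' X1 X1'
    (fun ⟨k, h1, h2, h3⟩ => hX1r0 ((G2_ll hX00' h1 h2 hX0r0 hX0'r0) ▸ h3))
    (fun ⟨k, h1, h2, h3⟩ => hX1'r0 ((G2_ll hX00' h1 h2 hX0r0 hX0'r0) ▸ h3))
    (fun ⟨k, h1, h2, h3⟩ => hX0r1 ((G2_ll hX11' h2 h3 hX1r1 hX1'r1) ▸ h1))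
    (fun ⟨k, h1, h2, h3⟩ => hX0'r1 ((G2_ll hX11' h2 h3 hX1r1 hX1'r1) ▸ h1))
  have meet : ∀ {k k' : L} {x : P}, (∃ p ∈ C, ∃ q ∈ C, p ≠ q ∧ p ∈ k ∧ q ∈ k) →
      (∃ p ∈ C, ∃ q ∈ C, p ≠ q ∧ p ∈ k' ∧ q ∈ k') → k ≠ k' → x ∈ k → x ∈ k' → x ∈ C := by
    rintro k k' x ⟨p, hp, q, hq, hpq, hpk, hqk⟩ ⟨p', hp', q', hq', hpq', hpk', hqk'⟩ hkk hx hx'
    exact hS.meet p hp q hq hpq p' hp' q' hq' hpq' k k' hkk hpk hqk hpk' hqk' x hx hx'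
  have four : ∀ {k : L}, (∃ p ∈ C, ∃ q ∈ C, p ≠ q ∧ p ∈ k ∧ q ∈ k) →
      Set.ncard {x : P | x ∈ C ∧ x ∈ k} = 4 := by
    rintro k ⟨p, hp, q, hq, hpq, hpk, hqk⟩
    exact hS.four p hp q hq hpq k hpk hqk
  have hX0X1 : X0 ≠ X1 := fun h => hX1r0 (h ▸ hX0r0)
  have hX0'X1' : X0' ≠ X1' := fun h => hX1'r0 (h ▸ hX0'r0)
  have hX0X1' : X0 ≠ X1' := fun h => hX1'r0 (h ▸ hX0r0)
  have hX0'X1 : X0' ≠ X1 := fun h => hX1r0 (h ▸ hX0'r0)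
  have Tr0 : ∃ p ∈ C, ∃ q ∈ C, p ≠ q ∧ p ∈ r0 ∧ q ∈ r0 :=
    ⟨X0, hX0C, X0', hX0'C, hX00', hX0r0, hX0'r0⟩
  have Tr1 : ∃ p ∈ C, ∃ q ∈ C, p ≠ q ∧ p ∈ r1 ∧ q ∈ r1 :=
    ⟨X1, hX1C, X1', hX1'C, hX11', hX1r1, hX1'r1⟩
  have Ta : ∃ p ∈ C, ∃ q ∈ C, p ≠ q ∧ p ∈ a ∧ q ∈ a := ⟨X0, hX0C, X1, hX1C, hX0X1, hX0a, hX1a⟩
  have Ta' : ∃ p ∈ C, ∃ q ∈ C, p ≠ q ∧ p ∈ a' ∧ q ∈ a' :=
    ⟨X0', hX0'C, X1', hX1'C, hX0'X1', hX0'a', hX1'a'⟩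
  have Tb : ∃ p ∈ C, ∃ q ∈ C, p ≠ q ∧ p ∈ b ∧ q ∈ b :=
    ⟨X0, hX0C, X1', hX1'C, hX0X1', hX0b, hX1'b⟩
  have Tb' : ∃ p ∈ C, ∃ q ∈ C, p ≠ q ∧ p ∈ b' ∧ q ∈ b' :=
    ⟨X0', hX0'C, X1, hX1C, hX0'X1, hX0'b', hX1b'⟩
  have hZC : Z ∈ C := meet Tr0 Tr1 hr01 hZr0 hZr1
  have haa' : a ≠ a' := fun h => hX1r0 ((G2_ll hX00' hX0a (h ▸ hX0'a') hX0r0 hX0'r0) ▸ hX1a)
  have hbb' : b ≠ b' := fun h => hX1'r0 ((G2_ll hX00' hX0b (h ▸ hX0'b') hX0r0 hX0'r0) ▸ hX1'b)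
  have hDC : D ∈ C := meet Ta Ta' haa' hDa hDa'
  have hD'C : D' ∈ C := meet Tb Tb' hbb' hD'b hD'b'
  have hX0D : X0 ≠ D := fun h => hX0v (h ▸ hDv)
  have hDD' : D ≠ D' := fun h => by
    have e : a = b := G2_ll hX0D hX0a hDa hX0b (h ▸ hD'b)
    have e' : a = r1 := G2_ll hX11' hX1a (e ▸ hX1'b) hX1r1 hX1'r1
    exact hX0r1 (e' ▸ hX0a)
  have Tv : ∃ p ∈ C, ∃ q ∈ C, p ≠ q ∧ p ∈ v ∧ q ∈ v := ⟨D, hDC, D', hD'C, hDD', hDv, hD'v⟩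
  have hvr0 : v ≠ r0 := fun h => hZv (h ▸ hZr0)
  have hvr1 : v ≠ r1 := fun h => hZv (h ▸ hZr1)
  have hvr2 : v ≠ r2 := fun h => hZv (h ▸ hZr2)
  have hc0C : c0 ∈ C := meet Tv Tr0 hvr0 hc0v hc0r0
  have hc1C : c1 ∈ C := meet Tv Tr1 hvr1 hc1v hc1r1
  have hc0Z : c0 ≠ Z := fun h => hZv (h ▸ hc0v)
  have hc1Z : c1 ≠ Z := fun h => hZv (h ▸ hc1v)
  have hc01 : c0 ≠ c1 := fun h => hc0Z (nr hc0r0 (h ▸ hc1r1))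
  have hc0X1 : c0 ≠ X1 := fun h => hX1v (h ▸ hc0v)
  have hc1X0 : c1 ≠ X0 := fun h => hX0v (h ▸ hc1v)
  have Ts : ∃ p ∈ C, ∃ q ∈ C, p ≠ q ∧ p ∈ s ∧ q ∈ s := ⟨c0, hc0C, X1, hX1C, hc0X1, hc0s, hX1s⟩
  have Tt : ∃ p ∈ C, ∃ q ∈ C, p ≠ q ∧ p ∈ t ∧ q ∈ t := ⟨c1, hc1C, X0, hX0C, hc1X0, hc1t, hX0t⟩
  have hst : s ≠ t := fun h => hX1v ((G2_ll hc01 hc0s (h ▸ hc1t) hc0v hc1v) ▸ hX1s)
  have hX2C : X2 ∈ C := meet Ts Tt hst hX2s hX2t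
  have hZs : Z ∉ s := fun h => hX1r0 ((G2_ll hc0Z hc0s h hc0r0 hZr0) ▸ hX1s)
  have hZt : Z ∉ t := fun h => hX0r1 ((G2_ll hc1Z hc1t h hc1r1 hZr1) ▸ hX0t)
  have hZa : Z ∉ a := fun h => hX1r0 ((G2_ll hX0Z hX0a h hX0r0 hZr0) ▸ hX1a)
  have hX2Z : X2 ≠ Z := fun h => hZs (h ▸ hX2s)
  have Tr2 : ∃ p ∈ C, ∃ q ∈ C, p ≠ q ∧ p ∈ r2 ∧ q ∈ r2 :=
    ⟨X2, hX2C, Z, hZC, hX2Z, hX2r2, hZr2⟩
  have hc2C : c2 ∈ C := meet Tv Tr2 hvr2 hc2v hc2r2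
  have hsr0 : s ≠ r0 := fun h => hZs (h ▸ hZr0)
  have htr1 : t ≠ r1 := fun h => hZt (h ▸ hZr1)
  have hsv : s ≠ v := fun h => hX1v (h ▸ hX1s)
  have htv : t ≠ v := fun h => hX0v (h ▸ hX0t)
  have hav : a ≠ v := fun h => hX0v (h ▸ hX0a)
  have hc20 : c2 ≠ c0 := fun h => by
    have e : r2 = r0 := G2_ll hc0Z (h ▸ hc2r2) hZr2 hc0r0 hZr0
    have e' : X2 = c0 := G2_pp hsr0 hX2s hc0s (e ▸ hX2r2) hc0r0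
    exact htv (G2_ll hc01 (e' ▸ hX2t) hc1t hc0v hc1v)
  have hc21 : c2 ≠ c1 := fun h => by
    have e : r2 = r1 := G2_ll hc1Z (h ▸ hc2r2) hZr2 hc1r1 hZr1
    have e' : X2 = c1 := G2_pp htr1 hX2t hc1t (e ▸ hX2r2) hc1r1
    exact hsv (G2_ll hc01 hc0s (e' ▸ hX2s) hc0v hc1v)
  have hX0c2 : X0 ≠ c2 := fun h => hX0v (h ▸ hc2v)
  obtain ⟨g, hX0g, hc2g⟩ : ∃ g : L, X0 ∈ g ∧ c2 ∈ g :=
    ⟨HasLines.mkLine hX0c2, (HasLines.mkLine_ax hX0c2).1, (HasLines.mkLine_ax hX0c2).2⟩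
  have Tg : ∃ p ∈ C, ∃ q ∈ C, p ≠ q ∧ p ∈ g ∧ q ∈ g := ⟨X0, hX0C, c2, hc2C, hX0c2, hX0g, hc2g⟩
  have hgr1 : g ≠ r1 := fun h => hX0r1 (h ▸ hX0g)
  have hgv : g ≠ v := fun h => hX0v (h ▸ hX0g)
  obtain ⟨Y, hYg, hYr1⟩ : ∃ Y : P, Y ∈ g ∧ Y ∈ r1 :=
    ⟨HasPoints.mkPoint hgr1, (HasPoints.mkPoint_ax hgr1).1, (HasPoints.mkPoint_ax hgr1).2⟩
  have hYC : Y ∈ C := meet Tg Tr1 hgr1 hYg hYr1
  obtain ⟨d, -, hdZ, hdX1, hdX1', hall⟩ := G2_four (four Tr1) (a := Z) (b := X1) (c := X1')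
    ⟨hZC, hZr1⟩ ⟨hX1C, hX1r1⟩ ⟨hX1'C, hX1'r1⟩ hX1Z.symm hX1'Z.symm hX11'
  have hc1X1 : c1 ≠ X1 := fun h => hX1v (h ▸ hc1v)
  have hc1X1' : c1 ≠ X1' := fun h => hX1'v (h ▸ hc1v)
  have hdc1 : c1 = d := by
    rcases hall c1 ⟨hc1C, hc1r1⟩ with h | h | h | h
    · exact absurd h hc1Z
    · exact absurd h hc1X1
    · exact absurd h hc1X1'
    · exact h
  rcases hall Y ⟨hYC, hYr1⟩ with h | h | h | h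
  · -- Y = Z
    exfalso
    have e : g = r0 := G2_ll hX0Z hX0g (h ▸ hYg) hX0r0 hZr0
    exact hc20 (G2_pp hvr0 hc2v hc0v (e ▸ hc2g) hc0r0)
  · -- Y = X1
    exfalso
    have e : g = a := G2_ll hX0X1 hX0g (h ▸ hYg) hX0a hX1a
    have hc2a : c2 ∈ a := e ▸ hc2g
    obtain ⟨c3, ⟨hc3C, hc3v⟩, hc30, hc31, hc32, -⟩ := G2_four (four Tv) (a := c0) (b := c1)
      (c := c2) ⟨hc0C, hc0v⟩ ⟨hc1C, hc1v⟩ ⟨hc2C, hc2v⟩ hc01 hc20.symm hc21.symm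
    have hc3Z : c3 ≠ Z := fun h => hZv (h ▸ hc3v)
    obtain ⟨n, hc3n, hZn⟩ : ∃ n : L, c3 ∈ n ∧ Z ∈ n :=
      ⟨HasLines.mkLine hc3Z, (HasLines.mkLine_ax hc3Z).1, (HasLines.mkLine_ax hc3Z).2⟩
    have Tn : ∃ p ∈ C, ∃ q ∈ C, p ≠ q ∧ p ∈ n ∧ q ∈ n := ⟨c3, hc3C, Z, hZC, hc3Z, hc3n, hZn⟩
    have hc3a : c3 ∉ a := fun h => hc32 (G2_pp hav h hc2a hc3v hc2v)
    have hc3s : c3 ∉ s := fun h => hc30 (G2_pp hsv h hc0s hc3v hc0v)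
    have hc3t : c3 ∉ t := fun h => hc31 (G2_pp htv h hc1t hc3v hc1v)
    have hnr0 : n ≠ r0 := fun h => hc30 (G2_pp hvr0 hc3v hc0v (h ▸ hc3n) hc0r0)
    have hnr1 : n ≠ r1 := fun h => hc31 (G2_pp hvr1 hc3v hc1v (h ▸ hc3n) hc1r1)
    have hnr2 : n ≠ r2 := fun h => hc32 (G2_pp hvr2 hc3v hc2v (h ▸ hc3n) hc2r2)
    have han : a ≠ n := fun h => hZa (h ▸ hZn)
    have hsn : s ≠ n := fun h => hZs (h ▸ hZn)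
    have htn : t ≠ n := fun h => hZt (h ▸ hZn)
    obtain ⟨pa, hpaa, hpan⟩ : ∃ p : P, p ∈ a ∧ p ∈ n :=
      ⟨HasPoints.mkPoint han, (HasPoints.mkPoint_ax han).1, (HasPoints.mkPoint_ax han).2⟩
    obtain ⟨ps, hpss, hpsn⟩ : ∃ p : P, p ∈ s ∧ p ∈ n :=
      ⟨HasPoints.mkPoint hsn, (HasPoints.mkPoint_ax hsn).1, (HasPoints.mkPoint_ax hsn).2⟩
    obtain ⟨pt, hptt, hptn⟩ : ∃ p : P, p ∈ t ∧ p ∈ n :=
      ⟨HasPoints.mkPoint htn, (HasPoints.mkPoint_ax htn).1, (HasPoints.mkPoint_ax htn).2⟩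
    have hpaC : pa ∈ C := meet Ta Tn han hpaa hpan
    have hpsC : ps ∈ C := meet Ts Tn hsn hpss hpsn
    have hptC : pt ∈ C := meet Tt Tn htn hptt hptn
    have hpaZ : pa ≠ Z := fun h => hZa (h ▸ hpaa)
    have hpsZ : ps ≠ Z := fun h => hZs (h ▸ hpss)
    have hptZ : pt ≠ Z := fun h => hZt (h ▸ hptt)
    have hpac3 : pa ≠ c3 := fun h => hc3a (h ▸ hpaa)
    have hpsc3 : ps ≠ c3 := fun h => hc3s (h ▸ hpss)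
    have hptc3 : pt ≠ c3 := fun h => hc3t (h ▸ hptt)
    have has : a ≠ s := fun h => hc20 (G2_pp hav hc2a (h ▸ hc0s) hc2v hc0v)
    have hat : a ≠ t := fun h => hc21 (G2_pp hav hc2a (h ▸ hc1t) hc2v hc1v)
    have hpas : ps ≠ pa := fun h => by
      have e1 : ps = X1 := G2_pp has (h ▸ hpaa) hX1a hpss hX1s
      exact hX1Z (G2_pp hnr1 (e1 ▸ hpsn) hZn hX1r1 hZr1)
    have hpat : pt ≠ pa := fun h => by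
      have e1 : pt = X0 := G2_pp hat (h ▸ hpaa) hX0a hptt hX0t
      exact hX0Z (G2_pp hnr0 (e1 ▸ hptn) hZn hX0r0 hZr0)
    have hpst : ps ≠ pt := fun h => by
      have e1 : ps = X2 := G2_pp hst hpss hX2s (h ▸ hptt) hX2t
      exact hX2Z (G2_pp hnr2 (e1 ▸ hpsn) hZn hX2r2 hZr2)
    obtain ⟨d2, -, -, -, -, hall2⟩ := G2_four (four Tn) (a := Z) (b := c3) (c := pa)
      ⟨hZC, hZn⟩ ⟨hc3C, hc3n⟩ ⟨hpaC, hpan⟩ hc3Z.symm hpaZ.symm hpac3.symm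
    have e1 : ps = d2 := by
      rcases hall2 ps ⟨hpsC, hpsn⟩ with h | h | h | h
      · exact absurd h hpsZ
      · exact absurd h hpsc3
      · exact absurd h hpas
      · exact h
    have e2 : pt = d2 := by
      rcases hall2 pt ⟨hptC, hptn⟩ with h | h | h | h
      · exact absurd h hptZ
      · exact absurd h hptc3
      · exact absurd h hpat
      · exact h
    exact hpst (e1.trans e2.symm)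
  · -- Y = X1'
    have e : g = b := G2_ll hX0X1' hX0g (h ▸ hYg) hX0b hX1'b
    exact e ▸ hc2g
  · -- Y = c1
    exfalso
    have hYc1 : Y = c1 := h.trans hdc1.symm
    exact hgv (G2_ll hc21 hc2g (hYc1 ▸ hYg) hc2v hc1v)

end Pool.Agent.TP3
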