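import Mathlib
import Pool.Agent.Lib.MP_a1e562_co.SF.Stm

/-!
# Piece G3: the hexagon law of the product
-/

set_option autoImplicit false

namespace Pool.Agent.TP3

open Configuration

private theorem sfg3_lines {P L V : Type} [Membership P L] [AddCommGroup V]
    {mul : V →+ V →+ V} (C : SCoor P L V mul)
    (hs : ∀ u : V, u ≠ 0 → ∀ c : V, ∃ μ : V, mul u μ = c) (x x' c : V) :
    ∃ (a a' : L) (D : P), C.pt x 0 ∈ a ∧ C.pt x' c ∈ a ∧ C.pt (-x) 0 ∈ a' ∧ C.pt (-x') c ∈ a' ∧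
      D ∈ a ∧ D ∈ a' ∧ D ∈ C.vt 0 ∧ (x ≠ x' → ∃ μ β : V, a = C.ln μ β) := by
  by_cases hx : x = x'
  · subst hx
    refine ⟨C.vt x, C.vt (-x), C.Z, ?_, ?_, ?_, ?_, C.Z_vt _, C.Z_vt _, C.Z_vt _,
      fun h => absurd rfl h⟩
    · exact (C.pt_vt _ _ _).mpr rfl
    · exact (C.pt_vt _ _ _).mpr rfl
    · exact (C.pt_vt _ _ _).mpr rfl
    · exact (C.pt_vt _ _ _).mpr rfl
  · obtain ⟨μ, hμ⟩ := hs (x' - x) (sub_ne_zero.mpr (Ne.symm hx)) c
    rw [map_sub, AddMonoidHom.sub_apply] at hμ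
    refine ⟨C.ln μ (-(mul x μ)), C.ln (-μ) (-(mul x μ)), C.pt 0 (-(mul x μ)),
      ?_, ?_, ?_, ?_, ?_, ?_, ?_, fun _ => ⟨_, _, rfl⟩⟩
    · rw [C.pt_ln]
      abel
    · rw [C.pt_ln, ← hμ]
      abel
    · rw [C.pt_ln, map_neg, map_neg, AddMonoidHom.neg_apply]
      abel
    · rw [C.pt_ln, ← hμ, map_neg, map_neg, AddMonoidHom.neg_apply]
      abel
    · rw [C.pt_ln, map_zero, AddMonoidHom.zero_apply, zero_add]
    · rw [C.pt_ln, map_zero, AddMonoidHom.zero_apply, zero_add]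
    · rw [C.pt_vt]

theorem s_SFG3 : S_SFG3 := by
  intro P L V _ _ _ _ mul hnz h3 C hinc
  have subL : ∀ x y z : V, mul (x - y) z = mul x z - mul y z := by
    intro x y z
    rw [map_sub, AddMonoidHom.sub_apply]
  have negL : ∀ x z : V, mul (-x) z = -(mul x z) := by
    intro x z
    rw [map_neg, AddMonoidHom.neg_apply]
  have zeroL : ∀ z : V, mul 0 z = 0 := by
    intro z
    rw [map_zero, AddMonoidHom.zero_apply]
  have cancelL : ∀ p v u : V, p ≠ 0 → mul p v = mul p u → v = u := by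
    intro p v u hp e
    have h1 : mul p (v - u) = 0 := by rw [map_sub, e, sub_self]
    rcases hnz _ _ h1 with h | h
    · exact absurd h hp
    · exact sub_eq_zero.mp h
  have cancelR : ∀ p v u : V, p ≠ 0 → mul v p = mul u p → v = u := by
    intro p v u hp e
    have h1 : mul (v - u) p = 0 := by rw [subL, e, sub_self]
    rcases hnz _ _ h1 with h | h
    · exact sub_eq_zero.mp h
    · exact absurd h hp
  have hs : ∀ u : V, u ≠ 0 → ∀ c : V, ∃ μ : V, mul u μ = c := by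
    intro u hu c
    have hinj : Function.Injective (mul u) := fun a b hab => cancelL u a b hu hab
    exact Finite.surjective_of_injective hinj c
  have hneg : ∀ v : V, v ≠ 0 → v ≠ -v := by
    intro v hv h
    have h1 := h3 v
    have h2 : v + v = 0 := by
      nth_rewrite 2 [h]
      exact add_neg_cancel v
    rw [h2, zero_add] at h1
    exact hv h1
  have ptx : ∀ x y x' y' : V, C.pt x y = C.pt x' y' → x = x' := by
    intro x y x' y' h
    have h1 : C.pt x y ∈ C.vt x := (C.pt_vt _ _ _).mpr rfl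
    rw [h] at h1
    exact ((C.pt_vt _ _ _).mp h1).symm
  have ptsl : ∀ x y k : V, C.pt x y ≠ C.sl k := by
    intro x y k h
    have h1 := C.sl_inf k
    rw [← h] at h1
    exact C.pt_inf _ _ h1
  intro w w2 w1 A b k hw hA hb1 hb2 hk
  simp only at hb1 hb2 hk ⊢
  by_cases hww : w2 = w
  · subst hww
    have e1 : A = b := cancelL w2 _ _ hw hb2
    subst e1
    have e2 : w1 = w2 := cancelR A _ _ hA hb1
    subst e2
    have e3 : k = A := cancelL w1 _ _ hw hk
    rw [e3]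
  have hd : w - w2 ≠ 0 := sub_ne_zero.mpr (Ne.symm hww)
  have hc1 : mul (w - w2) A ≠ 0 := by
    intro h
    rcases hnz _ _ h with h | h
    · exact hd h
    · exact hA h
  have hw2 : w2 ≠ 0 := by
    intro h
    rw [h, zeroL] at hb2
    rcases hnz _ _ hb2.symm with h' | h'
    · exact hw h'
    · rw [h', map_zero] at hb1
      rcases hnz _ _ hb1.symm with h'' | h''
      · exact hw h''
      · exact hA h''
  set c1 : V := mul (w - w2) A with hc1d
  obtain ⟨a, a', D, ha1, ha2, ha3, ha4, ha5, ha6, ha7, -⟩ := sfg3_lines C hs (-w) (w - w2) c1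
  obtain ⟨l, l', D', hl1, hl2, hl3, hl4, hl5, hl6, hl7, hl8⟩ :=
    sfg3_lines C hs (-w) (-(w - w2)) c1
  rw [neg_neg] at ha3 hl3 hl4
  obtain ⟨μ, β, hμ⟩ := hl8 (by
    intro h
    have h1 : w2 = 0 := by
      have h2 : w = w - w2 := neg_injective h
      have h3 : w - (w - w2) = 0 := sub_eq_zero.mpr h2
      rwa [sub_sub_cancel] at h3
    exact hw2 h1)
  have hmain := hinc (C.sl 0) (C.pt (-w) 0) (C.pt w 0) (C.pt (w - w2) c1) (C.pt (-(w - w2)) c1)
    (C.pt 0 0) (C.pt 0 c1) (C.pt 0 (mul (w1 - w) A)) (C.pt (w1 - w) (mul (w1 - w) A)) D D'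
    (C.vt 0) (C.ln 0 0) (C.ln 0 c1) (C.ln 0 (mul (w1 - w) A)) a a' l l' (C.ln A 0)
    (C.ln (A - b) c1)
    (C.sl_vt _ _)
    (by
      intro h
      have h1 : C.pt 0 0 ∈ C.ln 0 0 := by
        rw [C.pt_ln, map_zero, add_zero]
      rw [h, C.pt_ln, map_zero, zero_add] at h1
      exact hc1 h1.symm)
    (by rw [C.sl_ln]) (by rw [C.sl_ln])
    (by rw [C.pt_ln, map_zero, add_zero]) (by rw [C.pt_ln, map_zero, add_zero])
    (fun h => hneg w hw (ptx _ _ _ _ h).symm) (ptsl _ _ _) (ptsl _ _ _)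
    (by
      rw [C.pt_vt]
      exact neg_ne_zero.mpr hw)
    (by
      rw [C.pt_vt]
      exact hw)
    (by rw [C.pt_ln, map_zero, zero_add]) (by rw [C.pt_ln, map_zero, zero_add])
    (fun h => hneg _ hd (ptx _ _ _ _ h)) (ptsl _ _ _) (ptsl _ _ _)
    (by
      rw [C.pt_vt]
      exact hd)
    (by
      rw [C.pt_vt]
      exact neg_ne_zero.mpr hd)
    ha1 ha2 ha3 ha4 ha5 ha6 ha7 hl1 hl2 hl3 hl4 hl5 hl6 hl7
    (by rw [C.pt_ln, map_zero, add_zero]) (by rw [C.pt_vt])
    (by rw [C.pt_ln, map_zero, zero_add]) (by rw [C.pt_vt])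
    (by rw [C.pt_ln, zeroL, add_zero])
    (by rw [C.pt_ln, add_zero])
    (by rw [C.pt_ln, zeroL, zero_add])
    (by
      rw [C.pt_ln, negL, map_sub, hc1d, subL, ← hb2]
      abel)
    (by rw [C.pt_ln, add_zero])
    (by
      rw [C.pt_ln, hc1d, subL, subL, subL, map_sub, map_sub, hb1, hb2]
      abel)
    (by rw [C.sl_ln])
    (by rw [C.pt_ln, map_zero, zero_add])
    (by rw [C.pt_ln, map_zero, zero_add])
    (by rw [C.pt_vt])
  rw [hμ] at hmain hl1 hl2
  rw [C.pt_ln] at hmain hl1 hl2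
  rw [zeroL, zero_add] at hmain
  rw [negL] at hl1 hl2
  -- `β = w μ`
  have e1 : β = mul w μ := by
    have : -(mul w μ) + β = 0 := hl1.symm
    rw [neg_add_eq_zero] at this
    exact this.symm
  have e2 : mul w μ = mul w (k - A) := by
    rw [← e1, ← hmain, subL, map_sub, hk]
  have e3 : μ = k - A := cancelL w _ _ hw e2
  rw [e1, e3, subL, map_sub, map_sub, hc1d, subL] at hl2
  have e4 : mul w2 k - mul w A = 0 := by
    have h : mul w A - mul w2 A - (-(mul w k - mul w A - (mul w2 k - mul w2 A)) +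
        (mul w k - mul w A)) = 0 := sub_eq_zero.mpr hl2
    have h2 : mul w2 k - mul w A = -(mul w A - mul w2 A -
        (-(mul w k - mul w A - (mul w2 k - mul w2 A)) + (mul w k - mul w A))) := by abel
    rw [h2, h, neg_zero]
  exact sub_eq_zero.mp e4

end Pool.Agent.TP3
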