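import Pool.Agent.Lib.MP_a1e562_co.SF.Stm

/-!
# [SF G4] The plane over a field is desarguesian
-/

set_option autoImplicit false

namespace Pool.Agent.TP3

open Configuration

private theorem SFG4_field (V : Type) [AddCommGroup V] [Finite V] (mul : V →+ V →+ V) (e : V)
    (hnz : ∀ x y : V, mul x y = 0 → x = 0 ∨ y = 0) (he : e ≠ 0)
    (hl : ∀ v, mul e v = v) (hr : ∀ v, mul v e = v) (hc : ∀ x y, mul x y = mul y x)
    (ha : ∀ x y z, mul (mul x y) z = mul x (mul y z)) :
    ∃ (F : Type) (_ : Field F) (r : V ≃ F), (∀ x y, r (x + y) = r x + r y) ∧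
      (∀ x y, r (mul x y) = r x * r y) ∧ r 0 = 0 ∧ r e = 1 := by
  classical
  have hinv : ∀ x : V, x ≠ 0 → ∃ y, mul x y = e := by
    intro x hx
    have hinj : Function.Injective (mul x) := by
      intro a b hab
      have h1 : mul x (a - b) = 0 := by rw [map_sub, hab, sub_self]
      rcases hnz _ _ h1 with h | h
      · exact absurd h hx
      · exact sub_eq_zero.mp h
    exact Finite.surjective_of_injective hinj e
  let R : CommRing V :=
    { (inferInstance : AddCommGroup V) with
      mul := fun x y => mul x y
      one := e
      mul_assoc := ha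
      one_mul := hl
      mul_one := hr
      left_distrib := fun a b c => map_add (mul a) b c
      right_distrib := fun a b c => by
        show mul (a + b) c = mul a c + mul b c
        rw [map_add, AddMonoidHom.add_apply]
      zero_mul := fun a => by
        show mul 0 a = 0
        rw [map_zero, AddMonoidHom.zero_apply]
      mul_zero := fun a => map_zero (mul a)
      mul_comm := hc }
  have hF : @IsField V R.toSemiring :=
    { exists_pair_ne := ⟨e, 0, he⟩
      mul_comm := hc
      mul_inv_cancel := fun {x} hx => hinv x hx }
  exact ⟨V, @IsField.toField V R.toRing hF, Equiv.refl V, fun _ _ => rfl, fun _ _ => rfl, rfl, rfl⟩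

theorem s_SFG4 : S_SFG4 := by
  intro hA7b P L V _ _ _ _ mul e hnz he hl hr hc ha C
  obtain ⟨F, _, r, radd, rmul, r0, r1⟩ := SFG4_field V mul e hnz he hl hr hc ha
  have hcancel : ∀ x : V, x ≠ 0 → Function.Injective (mul x) := by
    intro x hx a b hab
    have h1 : mul x (a - b) = 0 := by rw [map_sub, hab, sub_self]
    rcases hnz _ _ h1 with h | h
    · exact absurd h hx
    · exact sub_eq_zero.mp h
  have sadd : ∀ a b : F, r.symm (a + b) = r.symm a + r.symm b := fun a b => by
    rw [Equiv.symm_apply_eq, radd, Equiv.apply_symm_apply, Equiv.apply_symm_apply]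
  have smul : ∀ a b : F, r.symm (a * b) = mul (r.symm a) (r.symm b) := fun a b => by
    rw [Equiv.symm_apply_eq, rmul, Equiv.apply_symm_apply, Equiv.apply_symm_apply]
  have s0 : r.symm 0 = 0 := by rw [Equiv.symm_apply_eq, r0]
  have s1 : r.symm 1 = e := by rw [Equiv.symm_apply_eq, r1]
  letI : Module F V :=
    { smul := fun a x => mul (r.symm a) x
      one_smul := fun x => by
        show mul (r.symm 1) x = x
        rw [s1, hl]
      mul_smul := fun a b x => by
        show mul (r.symm (a * b)) x = mul (r.symm a) (mul (r.symm b) x)
        rw [smul, ha]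
      smul_zero := fun a => map_zero (mul (r.symm a))
      smul_add := fun a x y => map_add (mul (r.symm a)) x y
      add_smul := fun a b x => by
        show mul (r.symm (a + b)) x = mul (r.symm a) x + mul (r.symm b) x
        rw [sadd, map_add, AddMonoidHom.add_apply]
      zero_smul := fun x => by
        show mul (r.symm 0) x = 0
        rw [s0, map_zero, AddMonoidHom.zero_apply] }
  have hsm : ∀ (a : F) (x : V), a • x = mul (r.symm a) x := fun _ _ => rfl
  let mk : V → Module.End F V := fun k =>
    { toFun := fun x => mul x k
      map_add' := fun x y => by rw [map_add, AddMonoidHom.add_apply]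
      map_smul' := fun a x => by
        rw [hsm, ha]
        rfl }
  have hmk : ∀ k x : V, mk k x = mul x k := fun _ _ => rfl
  let S : Set (Module.End F V) := {M | ∀ x, M x = mul x (M e)}
  have hS : ∀ k, mk k ∈ S := by
    intro k x
    rw [hmk, hmk, hl]
  have heq : ∀ M ∈ S, ∀ N ∈ S, M e = N e → M = N := by
    intro M hM N hN h
    refine LinearMap.ext fun x => ?_
    rw [hM x, hN x, h]
  have hmke : ∀ k, mk k e = k := fun k => by rw [hmk, hl]
  let C' : Coor P L F V :=
    { S := S
      inf := C.inf
      Z := C.Z
      pt := C.pt
      Zp := fun M => C.sl (M e)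
      vt := C.vt
      ln := fun M b => C.ln (M e) b
      zero := fun x => by
        rw [LinearMap.zero_apply, LinearMap.zero_apply, map_zero]
      one := fun x => by
        rw [Module.End.one_apply, Module.End.one_apply, hr]
      ex := fun x hx y => by
        obtain ⟨k, hk⟩ := Finite.surjective_of_injective (hcancel x hx) y
        exact ⟨mk k, hS k, hk⟩
      uq := fun M hM N hN x hx h => by
        rw [hM x, hN x] at h
        exact heq M hM N hN (hcancel x hx h)
      pts := fun q => by
        rcases C.pts q with h | ⟨k, h⟩ | h
        · exact Or.inl h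
        · refine Or.inr (Or.inl ⟨mk k, hS k, ?_⟩)
          rw [hmke]
          exact h
        · exact Or.inr (Or.inr h)
      lns := fun l => by
        rcases C.lns l with h | h | ⟨k, b, h⟩
        · exact Or.inl h
        · exact Or.inr (Or.inl h)
        · refine Or.inr (Or.inr ⟨mk k, hS k, b, ?_⟩)
          rw [hmke]
          exact h
      pt_inf := C.pt_inf
      pt_vt := C.pt_vt
      pt_ln := fun M hM b x y => by
        rw [C.pt_ln, hM x]
      Zp_inf := fun M _ => C.sl_inf (M e)
      Zp_vt := fun M _ c => C.sl_vt (M e) c
      Zp_ln := fun M hM N hN b => by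
        rw [C.sl_ln]
        exact ⟨heq M hM N hN, fun h => by rw [h]⟩
      Z_inf := C.Z_inf
      Z_vt := C.Z_vt
      Z_ln := fun M _ b => C.Z_ln (M e) b }
  let t : C'.S ≃ F :=
    { toFun := fun M => r ((M : Module.End F V) e)
      invFun := fun a => ⟨mk (r.symm a), hS _⟩
      left_inv := fun M => by
        refine Subtype.ext ?_
        refine heq _ (hS _) _ M.2 ?_
        rw [hmke, Equiv.symm_apply_apply]
      right_inv := fun a => by
        show r (mk (r.symm a) e) = a
        rw [hmke, Equiv.apply_symm_apply] }
  refine hA7b P L F V C' F r t fun M x b => ?_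
  have hM : (M : Module.End F V) x = mul x ((M : Module.End F V) e) := M.2 x
  rw [radd, hM, rmul, mul_comm (r x)]
  rfl

end Pool.Agent.TP3
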