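import Pool.Agent.Lib.MP_a1e562_co.SF.Stm

set_option autoImplicit false

namespace Pool.Agent.TP3

open Configuration Polynomial

private theorem grp_pow {K V : Type} [Field K] [AddCommGroup V] [Module K V]
    (h : V ≃ₗ[K] V) (e : V) (he : h e = -e) (n : ℕ) :
    (h ^ n) e = if Even n then e else -e := by
  induction n with
  | zero => simp
  | succ n ih =>
    have h1 : (h ^ (n + 1)) e = (h ^ n) (h e) := by rw [pow_succ]; rfl
    rw [h1, he, map_neg, ih]
    by_cases hn : Even n
    · rw [if_pos hn, if_neg (by rw [Nat.even_add_one]; exact fun h => h hn)]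
    · rw [if_neg hn, if_pos (by rw [Nat.even_add_one]; exact hn), neg_neg]

theorem s_SFGRP : S_SFGRP := by
  intro hSYL K V _ _ _ _ m e ι U hQ h2 hfund htr hno ℓ hℓ hℓ2 hdvd
  classical
  have he : e ≠ 0 := hQ.e_ne
  -- `U e = 1`
  have hie : ι e = e := by
    have h1 := hQ.il e he
    rwa [hQ.right] at h1
  have hUe : ∀ v, U e v = v := by
    intro v
    have h1 := hQ.Ul e v he
    rwa [hie, hQ.left, hQ.right] at h1
  have hee : -e ≠ e := by
    intro h1
    have h3 : (2 : K) • e = 0 := by
      rw [two_smul]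
      nth_rewrite 1 [← h1]
      exact neg_add_cancel e
    exact (smul_ne_zero h2 he) h3
  haveI hfinE : Finite (V ≃ₗ[K] V) :=
    Finite.of_injective (fun g : V ≃ₗ[K] V => (g : V → V)) DFunLike.coe_injective
  set G := StrGrp K ι with hG
  haveI hfinG : Finite G := inferInstance
  -- the swap
  let t : G ≃* G :=
    { toFun := fun g => ⟨(g.1.2, g.1.1), StrGrp_swap hQ.ii g.2⟩
      invFun := fun g => ⟨(g.1.2, g.1.1), StrGrp_swap hQ.ii g.2⟩
      left_inv := fun g => rfl
      right_inv := fun g => rfl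
      map_mul' := fun a b => rfl }
  -- the scalars
  let Z : Subgroup G :=
    { carrier := {g | ∃ f : K, ∀ v, g.1.1 v = f • v}
      one_mem' := ⟨1, fun v => (one_smul K v).symm⟩
      mul_mem' := by
        rintro a b ⟨f, hf⟩ ⟨f', hf'⟩
        refine ⟨f * f', fun v => ?_⟩
        change a.1.1 (b.1.1 v) = _
        rw [hf', hf, smul_smul]
      inv_mem' := by
        rintro a ⟨f, hf⟩
        have hf0 : f ≠ 0 := by
          rintro rfl
          have h1 := hf e
          rw [zero_smul] at h1
          exact he (by simpa using h1)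
        refine ⟨f⁻¹, fun v => ?_⟩
        change a.1.1.symm v = _
        rw [LinearEquiv.symm_apply_eq, hf, smul_smul, mul_inv_cancel₀ hf0, one_smul] }
  have hsnd : ∀ g : G, ∀ f : K, (∀ v, g.1.1 v = f • v) → ∀ v, g.1.2 v = f⁻¹ • v := by
    intro g f hf v
    have h1 : ∀ v, ι (g.1.1 v) = g.1.2 (ι v) := g.2
    have h3 := h1 (ι v)
    rw [hQ.ii] at h3
    rw [← h3, hf, hQ.is, hQ.ii]
  have hZ : Z ≤ Subgroup.center G := by
    rintro g ⟨f, hf⟩
    rw [Subgroup.mem_center_iff]
    intro x
    apply Subtype.ext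
    apply Prod.ext
    · apply LinearEquiv.ext
      intro v
      change x.1.1 (g.1.1 v) = g.1.1 (x.1.1 v)
      rw [hf, hf, map_smul]
    · apply LinearEquiv.ext
      intro v
      change x.1.2 (g.1.2 v) = g.1.2 (x.1.2 v)
      rw [hsnd g f hf, hsnd g f hf, map_smul]
  have hno' : ∀ g : G, g * g ∈ Z → g ∈ Z := by
    rintro g ⟨f, hf⟩
    exact hno g.1.1 g.1.2 g.2 ⟨f, hf⟩
  obtain ⟨P, hP, hPi, hPt⟩ := hSYL G Z t ℓ hℓ hZ hno' (fun g => rfl)
  have hodd : ∀ n : ℕ, ¬ Even (ℓ ^ n) := by
    intro n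
    rw [Nat.not_even_iff_odd]
    exact (hℓ.odd_of_ne_two hℓ2).pow
  by_cases hex : ∃ g ∈ P, g.1.1 e ≠ e ∧ g.1.1 e ≠ -e
  · obtain ⟨g, hg, h3, h4⟩ := hex
    have hb0 : g.1.1 e ≠ 0 := by
      intro h5
      exact he (by simpa using h5)
    have hmem : g * (t g)⁻¹ ∈ P := P.mul_mem hg (P.inv_mem (hPt g hg))
    obtain ⟨j, hj⟩ := hP ⟨_, hmem⟩
    refine ⟨g.1.1 e, j, hb0, h3, h4, fun v => ?_⟩
    have hU : U (g.1.1 e) = g.1.1 * (g.1.2)⁻¹ := by
      apply LinearEquiv.ext
      intro v
      have h5 := hfund g.1.1 g.1.2 g.2 e (g.1.2.symm v) he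
      rw [LinearEquiv.apply_symm_apply, hUe] at h5
      exact h5
    have h6 : (g * (t g)⁻¹) ^ (ℓ ^ j) = 1 := by
      have h7 := congrArg Subtype.val hj
      simpa using h7
    have h8 : (g.1.1 * (g.1.2)⁻¹) ^ (ℓ ^ j) = 1 := by
      have h9 := congrArg (fun x : G => x.1.1) h6
      have h10 : (g.1.1 * ((t g).1.1)⁻¹) ^ (ℓ ^ j) = 1 := by simpa using h9
      exact h10
    rw [hU, h8]
    rfl
  · exfalso
    push Not at hex
    have hfix : ∀ g ∈ P, g.1.1 e = e := by
      intro g hg
      by_contra h3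
      have h4 := hex g hg h3
      obtain ⟨n, hn⟩ := hP ⟨g, hg⟩
      have h5 : g ^ (ℓ ^ n) = 1 := by
        have h7 := congrArg Subtype.val hn
        simpa using h7
      have h6 : g.1.1 ^ (ℓ ^ n) = 1 := by
        have h9 := congrArg (fun x : G => x.1.1) h5
        simpa using h9
      have h7 := grp_pow g.1.1 e h4 (ℓ ^ n)
      rw [h6, if_neg (hodd n)] at h7
      exact hee h7.symm
    -- the action on `V`
    letI act : MulAction G V :=
      { smul := fun g v => g.1.1 v
        one_smul := fun v => rfl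
        mul_smul := fun a b v => rfl }
    have hPs : P ≤ MulAction.stabilizer G e := by
      intro g hg
      rw [MulAction.mem_stabilizer_iff]
      exact hfix g hg
    have horb : MulAction.orbit G e = {v : V | v ≠ 0} := by
      ext v
      constructor
      · rintro ⟨g, rfl⟩
        intro h5
        have h6 : g.1.1 e = 0 := h5
        exact he (by simpa using h6)
      · intro hv
        obtain ⟨h, k, hmem, hhe⟩ := htr v hv
        exact ⟨⟨(h, k), hmem⟩, hhe⟩
    have hcard : (MulAction.orbit G e).ncard = Nat.card V - 1 := by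
      rw [horb]
      have h5 : {v : V | v ≠ 0} = (Set.univ : Set V) \ {0} := by
        ext v; simp
      rw [h5, Set.ncard_diff (by simp), Set.ncard_univ, Set.ncard_singleton]
    have h5 : (MulAction.stabilizer G e).index = Nat.card V - 1 := by
      rw [MulAction.index_stabilizer, hcard]
    apply hPi
    refine dvd_trans ?_ (Subgroup.index_dvd_of_le hPs)
    rw [h5]
    exact hdvd

end Pool.Agent.TP3
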