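import Pool.Agent.Lib.MP_a1e562_co.SF.Stm

/-!
# [SF HU1] Hua's identity, first form
-/

set_option autoImplicit false

namespace Pool.Agent.TP3

open Polynomial

theorem s_SFHU1 : S_SFHU1 := by
  intro K V _ _ _ _ m e h hLE hHF a d a' d' s z ha hd had haa hdd hs hz
  have he := h.e_ne
  have ha' : a' ≠ 0 := by
    intro h0
    apply he
    rw [← haa, h0, map_zero, LinearMap.zero_apply]
  have hd' : d' ≠ 0 := by
    intro h0
    apply he
    rw [← hdd, h0, map_zero, LinearMap.zero_apply]
  obtain ⟨T, hT⟩ := h.toPS.exT hd' a'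
  have hTa : T a = d := by
    apply h.toPS.cancelL hd'
    rw [hT, haa, hdd]
  have hTz : T z = a := by
    apply h.toPS.cancelL hd'
    rw [hT, hz]
  obtain ⟨F, _, _, _, E, θ, hEθ, hF⟩ := hHF d' a' T hd' ha' hT
  have h1θ : (1 : F) + θ ≠ 0 := by
    intro h0
    apply had
    have h2 : E (1 + θ) a = 0 := by rw [h0, map_zero, LinearMap.zero_apply]
    rw [map_add, map_one, hEθ, LinearMap.add_apply, Module.End.one_apply, hTa] at h2
    exact h2
  obtain ⟨φ, hφ⟩ := hF (θ / (1 + θ))
  have key : aeval T φ * (1 + T) = T := by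
    have h2 : aeval T φ = E (θ / (1 + θ)) := by
      rw [hφ, ← hEθ, Polynomial.aeval_algHom_apply]
    have h3 : (1 + T : Module.End K V) = E (1 + θ) := by
      rw [map_add, map_one, hEθ]
    rw [h2, h3, ← map_mul, div_mul_cancel₀ _ h1θ, hEθ]
  obtain ⟨p, hp⟩ := hLE d' a' T hd' ha' hT z φ
  have e1 : m p (a + d) = e := by
    have h2 := hp (X + X ^ 2)
    have h3 : aeval T (X + X ^ 2 : K[X]) z = a + d := by
      rw [map_add, map_pow, aeval_X, LinearMap.add_apply, pow_two, Module.End.mul_apply, hTz, hTa]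
    have h4 : aeval T (φ * (X + X ^ 2) : K[X]) z = d := by
      have h5 : aeval T (φ * (X + X ^ 2) : K[X]) = T * T := by
        have h6 : (φ * (X + X ^ 2) : K[X]) = φ * (1 + X) * X := by ring
        rw [h6, map_mul, map_mul, map_add, map_one, aeval_X, key]
      rw [h5, Module.End.mul_apply, hTz, hTa]
    rw [h3, h4, hdd] at h2
    exact h2
  have hps : p = s := by
    apply h.toPS.cancelR had
    rw [e1, hs]
  have h2 := hp (1 + X)
  have h3 : aeval T (1 + X : K[X]) z = a + z := by
    rw [map_add, map_one, aeval_X, LinearMap.add_apply, Module.End.one_apply, hTz, add_comm]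
  have h4 : aeval T (φ * (1 + X) : K[X]) z = a := by
    rw [map_mul, map_add, map_one, aeval_X, key, hTz]
  rw [h3, h4, hps] at h2
  exact h2

end Pool.Agent.TP3
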