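import Pool.Agent.Lib.MP_a1e562_co.SF.Stm

/-!
# [SF HU2] the two definitions of the quadratic operator agree
-/

set_option autoImplicit false

namespace Pool.Agent.TP3

theorem s_SFHU2 : S_SFHU2 := by
  intro K V _ _ _ _ m e h h1 h2 a b v z z' ha hab hz hz'
  have hba : m b a = e := h.two_sided hab
  have hb : b ≠ 0 := by
    rintro rfl
    rw [map_zero] at hab
    exact h.e_ne hab.symm
  by_cases hv : v = 0
  · subst hv
    rw [map_zero, LinearMap.zero_apply] at hz
    rw [map_zero] at hz'
    have e1 : z = 0 := (h.nz _ _ hz).resolve_left hb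
    have e2 : z' = 0 := (h.nz _ _ hz').resolve_right hb
    rw [e1, e2]
  · obtain ⟨d, hvd⟩ := h.toPS.exL hv e
    have hdv : m d v = e := h.two_sided hvd
    have hd : d ≠ 0 := by
      rintro rfl
      rw [map_zero] at hvd
      exact h.e_ne hvd.symm
    by_cases hs : a + d = 0
    · have hda : d = -a := by
        rw [← sub_eq_zero, sub_neg_eq_add, add_comm]
        exact hs
      have e1 : m v a = -e := by
        rw [← hvd, hda, map_neg, neg_neg]
      have e2 : m a v = -e := by
        rw [← hdv, hda, map_neg, LinearMap.neg_apply, neg_neg]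
      have e3 : z = -a := by
        refine h.toPS.cancelL hb ?_
        rw [hz, e1, map_neg, hba]
      have e4 : z' = -a := by
        refine h.toPS.cancelR hb ?_
        rw [hz', e2, map_neg, LinearMap.neg_apply, hab]
      rw [e3, e4]
    · obtain ⟨s, hs1⟩ := h.toPS.exR hs e
      have hs2 : m (a + d) s = e := h.two_sided hs1
      have e1 : m s (a + z) = m v a := h1 a d b v s z ha hd hs hba hvd hs1 hz
      have e2 : m (a + z') s = m a v := h2 a d b v s z' ha hd hs hab hdv hs2 hz'
      have e3 : m (b - s) (a + z) = e := by
        rw [map_sub, LinearMap.sub_apply, e1, map_add, hba, hz, add_sub_cancel_right]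
      have e4 : m (a + z') (b - s) = e := by
        rw [map_sub, e2, map_add, LinearMap.add_apply, hab, hz', add_sub_cancel_right]
      have e5 : m (b - s) (a + z') = e := h.two_sided e4
      have hbs : b - s ≠ 0 := by
        intro h0
        rw [h0, map_zero, LinearMap.zero_apply] at e3
        exact h.e_ne e3.symm
      exact add_left_cancel (h.toPS.cancelL hbs (e3.trans e5.symm))

end Pool.Agent.TP3
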