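import Pool.Agent.Lib.MP_a1e562_co.SF.Stm

/-!
# Piece SF LE: left elements for polynomials
-/

set_option autoImplicit false

namespace Pool.Agent.TP3

open Configuration Polynomial

theorem s_SFLE : S_SFLE := by
  intro hDS K V _ _ _ _ m hPS p0 p1 T hp0 hp1 hT g φ
  have hk := hDS K V m hPS p0 p1 T hp0 hp1 hT g
  have haev : ∀ (j : ℕ) (b : K), (aeval T (monomial j b)) g = b • (T ^ j) g := by
    intro j b
    rw [aeval_monomial, Module.End.mul_apply, Module.algebraMap_end_apply]
  induction φ using Polynomial.induction_on' with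
  | add φ₁ φ₂ h₁ h₂ =>
    obtain ⟨q₁, hq₁⟩ := h₁
    obtain ⟨q₂, hq₂⟩ := h₂
    refine ⟨q₁ + q₂, fun ψ => ?_⟩
    rw [map_add, LinearMap.add_apply, hq₁, hq₂, add_mul, map_add, LinearMap.add_apply, map_add]
  | monomial k a =>
    obtain ⟨q, hq⟩ := hk k
    refine ⟨a • q, fun ψ => ?_⟩
    induction ψ using Polynomial.induction_on' with
    | add ψ₁ ψ₂ h₁ h₂ =>
      rw [map_add, LinearMap.add_apply, map_add, h₁, h₂, mul_add, map_add, LinearMap.add_apply,
        map_add]
    | monomial j b =>
      rw [monomial_mul_monomial, haev, haev, map_smul, map_smul, LinearMap.smul_apply, map_smul,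
        hq j, smul_smul, mul_comm]

end Pool.Agent.TP3
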