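import Pool.Agent.Lib.MP_a1e562_co.SF.Stm

/-!
# Piece SF NOINV: no element of even order modulo scalars
-/

set_option autoImplicit false

namespace Pool.Agent.TP3

open Configuration Polynomial

section noinv

variable {K V : Type} [Field K] [AddCommGroup V] [Module K V]

theorem noinv_ie {m : V →ₗ[K] V →ₗ[K] V} {e : V} {ι : V → V} {U : V → (V ≃ₗ[K] V)}
    (h : Qd K V m e ι U) : ι e = e := by
  have h1 := h.ir e h.e_ne
  rwa [h.left] at h1

theorem noinv_Ue {m : V →ₗ[K] V →ₗ[K] V} {e : V} {ι : V → V} {U : V → (V ≃ₗ[K] V)}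
    (h : Qd K V m e ι U) (v : V) : U e v = v := by
  have h1 := h.Ul e v h.e_ne
  rwa [noinv_ie h, h.left, h.right] at h1

/-- invariant subspaces have odd dimension -/
theorem noinv_odd (hPAR : S_SFPAR) [Finite K] [Finite V] {m : V →ₗ[K] V →ₗ[K] V} {e : V}
    {ι : V → V} {U : V → (V ≃ₗ[K] V)} (h : Qd K V m e ι U) (h2 : (2 : K) ≠ 0)
    (hsq : ∀ v, (∃ c : K, ι v = c • v) → ∃ f : K, v = f • e) (W : Submodule K V) (he : e ∈ W)
    (hW : ∀ v ∈ W, ι v ∈ W) : Odd (Module.finrank K W) := by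
  refine hPAR K W ⟨e, he⟩ (fun v => ⟨ι v, hW v v.2⟩) h2 ?_ ?_ ?_ ?_ ?_
  · intro h3
    exact h.e_ne (congrArg Subtype.val h3)
  · intro v
    exact Subtype.ext (h.ii v)
  · intro f v
    exact Subtype.ext (h.is f v)
  · exact ⟨1, Subtype.ext (by rw [one_smul]; exact noinv_ie h)⟩
  · rintro v ⟨c, hc⟩
    obtain ⟨f, hf⟩ := hsq v ⟨c, congrArg Subtype.val hc⟩
    exact ⟨f, Subtype.ext hf⟩

/-- elements fixing `e` commute with `ι` -/
theorem noinv_comm {m : V →ₗ[K] V →ₗ[K] V} {e : V} {ι : V → V} {U : V → (V ≃ₗ[K] V)}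
    (h : Qd K V m e ι U)
    (hfund : ∀ h k : V ≃ₗ[K] V, (h, k) ∈ StrGrp K ι → ∀ b v : V, b ≠ 0 →
      U (h b) (k v) = h (U b v))
    {S : (V ≃ₗ[K] V) × (V ≃ₗ[K] V)} (hS : S ∈ StrGrp K ι) (hSe : S.1 e = e) (v : V) :
    ι (S.1 v) = S.1 (ι v) := by
  have h1 : ∀ w, S.2 w = S.1 w := by
    intro w
    have h2 := hfund S.1 S.2 hS e w h.e_ne
    rwa [hSe, noinv_Ue h, noinv_Ue h] at h2
  rw [mem_StrGrp.1 hS v, h1]

theorem s_SFNOINV : S_SFNOINV := by
  intro hPAR hEVD K V _ _ _ _ _ m e ι U hQ h2 hodd hfund hsq htr h k hk ⟨f, hf⟩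
  have he := hQ.e_ne
  have hf0 : f ≠ 0 := by
    intro h0
    have h3 := hf e
    rw [h0, zero_smul] at h3
    exact he (by simpa using h3)
  -- `f` is a square
  have hfs : IsSquare f := by
    by_contra hns
    exact (Nat.not_even_iff_odd.2 hodd) (hEVD K V h.toLinearMap f hns hf)
  obtain ⟨c, hc⟩ := hfs
  have hc0 : c ≠ 0 := by
    intro h0
    apply hf0
    rw [hc, h0, mul_zero]
  by_cases hneg : ∀ v, h v = (-c) • v
  · exact ⟨-c, hneg⟩
  push Not at hneg
  obtain ⟨u, hu⟩ := hneg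
  obtain ⟨v0, hv0⟩ : ∃ v0, v0 = h u + c • u := ⟨_, rfl⟩
  have hv0n : v0 ≠ 0 := by
    intro h0
    apply hu
    rw [hv0] at h0
    rw [neg_smul]
    exact eq_neg_of_add_eq_zero_left h0
  have hhv0 : h v0 = c • v0 := by
    rw [hv0, map_add, hf, map_smul, hc, smul_add, mul_smul, add_comm]
  obtain ⟨h1, k1, hg1, h1e⟩ := htr v0 hv0n
  -- the conjugate
  obtain ⟨S, hS⟩ : ∃ S : (V ≃ₗ[K] V) × (V ≃ₗ[K] V),
      S = (scal V c⁻¹ (inv_ne_zero hc0), scal V c⁻¹⁻¹ (inv_ne_zero (inv_ne_zero hc0))) *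
        ((h1, k1)⁻¹ * (h, k) * (h1, k1)) := ⟨_, rfl⟩
  have hSG : S ∈ StrGrp K ι := by
    rw [hS]
    exact mul_mem (StrGrp_scal hQ.is _ _) (mul_mem (mul_mem (inv_mem hg1) hk) hg1)
  have hSv : ∀ v, S.1 v = c⁻¹ • h1.symm (h (h1 v)) := by
    intro v
    rw [hS]
    rfl
  have hSe : S.1 e = e := by
    rw [hSv, h1e, hhv0, map_smul, ← h1e, LinearEquiv.symm_apply_apply, smul_smul,
      inv_mul_cancel₀ hc0, one_smul]
  have hSS : ∀ v, S.1 (S.1 v) = v := by
    intro v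
    rw [hSv, hSv, map_smul, LinearEquiv.apply_symm_apply, map_smul, map_smul, hf, map_smul,
      LinearEquiv.symm_apply_apply, smul_smul, smul_smul, hc]
    have h3 : c⁻¹ * c⁻¹ * (c * c) = 1 := by
      field_simp
    rw [h3, one_smul]
  have hSι := noinv_comm hQ hfund hSG hSe
  -- the two eigenspaces
  obtain ⟨Vp, hVp⟩ : ∃ Vp : Submodule K V, Vp = LinearMap.ker (S.1.toLinearMap - LinearMap.id) :=
    ⟨_, rfl⟩
  obtain ⟨Vm, hVm⟩ : ∃ Vm : Submodule K V, Vm = LinearMap.ker (S.1.toLinearMap + LinearMap.id) :=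
    ⟨_, rfl⟩
  have mp : ∀ v, v ∈ Vp ↔ S.1 v = v := by
    intro v
    rw [hVp, LinearMap.mem_ker, LinearMap.sub_apply, LinearMap.id_apply, LinearEquiv.coe_coe,
      sub_eq_zero]
  have mm : ∀ v, v ∈ Vm ↔ S.1 v = -v := by
    intro v
    rw [hVm, LinearMap.mem_ker, LinearMap.add_apply, LinearMap.id_apply, LinearEquiv.coe_coe,
      ← eq_neg_iff_add_eq_zero]
  have hcompl : IsCompl Vp Vm := by
    constructor
    · rw [Submodule.disjoint_def]
      intro v hv1 hv2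
      rw [mp] at hv1
      rw [mm, hv1] at hv2
      have h3 : (2 : K) • v = 0 := by
        rw [two_smul]
        nth_rewrite 1 [hv2]
        rw [neg_add_cancel]
      exact (smul_eq_zero.1 h3).resolve_left h2
    · rw [codisjoint_iff, eq_top_iff]
      intro v _
      have h3 : v = (2 : K)⁻¹ • (v + S.1 v) + (2 : K)⁻¹ • (v - S.1 v) := by
        rw [← smul_add]
        have h4 : v + S.1 v + (v - S.1 v) = (2 : K) • v := by
          rw [two_smul]
          abel
        rw [h4, smul_smul, inv_mul_cancel₀ h2, one_smul]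
      rw [h3]
      refine Submodule.add_mem_sup (Submodule.smul_mem _ _ ?_) (Submodule.smul_mem _ _ ?_)
      · rw [mp, map_add, hSS, add_comm]
      · rw [mm, map_sub, hSS, neg_sub]
  have hoddp : Odd (Module.finrank K Vp) :=
    noinv_odd hPAR hQ h2 hsq Vp ((mp e).2 hSe) fun v hv => by
      rw [mp] at hv ⊢
      rw [← hSι, hv]
  have hsum := Submodule.finrank_add_eq_of_isCompl hcompl
  have hevm : Even (Module.finrank K Vm) := by
    rw [← hsum, Nat.odd_add] at hodd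
    exact hodd.1 hoddp
  -- the second eigenspace is zero
  have hVm0 : ∀ x ∈ Vm, x = 0 := by
    intro x0 hx0
    by_contra hx
    obtain ⟨h2', k2, hg2, h2e⟩ := htr x0 hx
    have hm1 : (-1 : K) ≠ 0 := neg_ne_zero.2 one_ne_zero
    obtain ⟨R, hR⟩ : ∃ R : (V ≃ₗ[K] V) × (V ≃ₗ[K] V),
        R = (scal V (-1 : K) hm1, scal V (-1 : K)⁻¹ (inv_ne_zero hm1)) *
          ((h2', k2)⁻¹ * S * (h2', k2)) := ⟨_, rfl⟩
    have hRG : R ∈ StrGrp K ι := by
      rw [hR]
      exact mul_mem (StrGrp_scal hQ.is _ _) (mul_mem (mul_mem (inv_mem hg2) hSG) hg2)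
    have hRv : ∀ v, R.1 v = (-1 : K) • h2'.symm (S.1 (h2' v)) := by
      intro v
      rw [hR]
      rfl
    have hRm : ∀ v, h2' v ∈ Vm ↔ R.1 v = v := by
      intro v
      rw [mm, hRv, neg_smul, one_smul]
      constructor
      · intro h3
        rw [h3, map_neg, neg_neg, LinearEquiv.symm_apply_apply]
      · intro h3
        have h4 : h2'.symm (S.1 (h2' v)) = -v := by
          rw [← h3, neg_neg]
          rw [h3]
        rw [LinearEquiv.symm_apply_eq] at h4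
        rw [h4, map_neg]
    have hRe : R.1 e = e := by
      rw [← hRm, h2e]
      exact hx0
    have hRι := noinv_comm hQ hfund hRG hRe
    have hW : ∀ v, v ∈ Vm.map (h2'.symm : V →ₗ[K] V) ↔ R.1 v = v := by
      intro v
      rw [← hRm, Submodule.mem_map_equiv, LinearEquiv.symm_symm]
    have hoddm : Odd (Module.finrank K (Vm.map (h2'.symm : V →ₗ[K] V))) :=
      noinv_odd hPAR hQ h2 hsq _ ((hW e).2 hRe) fun v hv => by
        rw [hW] at hv ⊢
        rw [← hRι, hv]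
    rw [LinearEquiv.finrank_map_eq] at hoddm
    exact (Nat.not_even_iff_odd.2 hoddm) hevm
  refine ⟨c, fun w => ?_⟩
  obtain ⟨v, rfl⟩ := h1.surjective w
  have h3 : v - S.1 v = 0 := hVm0 _ (by rw [mm, map_sub, hSS, neg_sub])
  have h4 := hSv v
  rw [← sub_eq_zero.1 h3] at h4
  have h5 : c • v = h1.symm (h (h1 v)) := by
    nth_rewrite 1 [h4]
    rw [smul_smul, mul_inv_cancel₀ hc0, one_smul]
  rw [← map_smul, h5, LinearEquiv.apply_symm_apply]

end noinv

end Pool.Agent.TP3
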