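import Mathlib
import Pool.Agent.Lib.MP_a1e562_co.SF.Stm

/-!
# [SF PAR] of MP_a1e562_co

The inversion induces an involution of the projective space with exactly one fixed point.
-/

set_option autoImplicit false

namespace Pool.Agent.TP3

open scoped LinearAlgebra.Projectivization

theorem s_SFPAR : S_SFPAR := by
  intro K V _ _ _ _ _ e ι h2 he hinv hsc hfe hfix
  classical
  have h0 : ι 0 = 0 := by
    by_contra hne
    have h1 : ∀ f : K, f⁻¹ • ι 0 = ι 0 := fun f => by
      rw [← hsc f 0, smul_zero]
    have := h1 0
    rw [inv_zero, zero_smul] at this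
    exact hne this.symm
  have hne : ∀ v : V, v ≠ 0 → ι v ≠ 0 := by
    intro v hv h
    apply hv
    rw [← hinv v, h, h0]
  -- the induced map
  let σf : ℙ K V → ℙ K V := fun p => Projectivization.mk K (ι p.rep) (hne _ p.rep_nonzero)
  have hmk : ∀ (v : V) (hv : v ≠ 0), σf (Projectivization.mk K v hv) =
      Projectivization.mk K (ι v) (hne v hv) := by
    intro v hv
    have h1 : Projectivization.mk K (Projectivization.mk K v hv).rep
        (Projectivization.rep_nonzero _) = Projectivization.mk K v hv :=
      Projectivization.mk_rep _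
    rw [Projectivization.mk_eq_mk_iff'] at h1
    obtain ⟨a, ha⟩ := h1
    show Projectivization.mk K (ι (Projectivization.mk K v hv).rep) _ = _
    rw [Projectivization.mk_eq_mk_iff']
    refine ⟨a⁻¹, ?_⟩
    rw [← hsc, ha]
  have hσσ : ∀ p, σf (σf p) = p := by
    intro p
    have h1 : σf p = Projectivization.mk K (ι p.rep) (hne _ p.rep_nonzero) := rfl
    rw [h1, hmk]
    have h3 : ∀ (w : V) (hw : w ≠ 0), w = p.rep → Projectivization.mk K w hw = p := by
      intro w hw h
      subst h
      exact Projectivization.mk_rep p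
    exact h3 _ _ (hinv _)
  let σ : Equiv.Perm (ℙ K V) := ⟨σf, σf, hσσ, hσσ⟩
  have hσ2 : σ ^ 2 ^ 1 = 1 := by
    rw [pow_one, pow_two]
    ext1 p
    show σf (σf p) = p
    exact hσσ p
  haveI : Fintype (ℙ K V) := Fintype.ofFinite _
  have hcard := Equiv.Perm.card_compl_support_modEq (p := 2) (n := 1) hσ2
  have hsupp : σ.supportᶜ = {Projectivization.mk K e he} := by
    ext p
    rw [Finset.mem_compl, Equiv.Perm.mem_support, not_not, Finset.mem_singleton]
    constructor
    · intro hp
      have h1 : Projectivization.mk K (ι p.rep) (hne _ p.rep_nonzero) = p := hp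
      have h2 : Projectivization.mk K (ι p.rep) (hne _ p.rep_nonzero) =
          Projectivization.mk K p.rep p.rep_nonzero := by
        rw [h1, Projectivization.mk_rep]
      rw [Projectivization.mk_eq_mk_iff'] at h2
      obtain ⟨a, ha⟩ := h2
      obtain ⟨f, hf⟩ := hfix p.rep ⟨a, ha.symm⟩
      rw [← Projectivization.mk_rep p, Projectivization.mk_eq_mk_iff']
      exact ⟨f, hf.symm⟩
    · intro hp
      rw [hp]
      show σf _ = _
      rw [hmk]
      rw [Projectivization.mk_eq_mk_iff']
      obtain ⟨c, hc⟩ := hfe
      exact ⟨c, hc.symm⟩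
  rw [hsupp, Finset.card_singleton] at hcard
  have hodd : Odd (Nat.card (ℙ K V)) := by
    rw [Nat.card_eq_fintype_card, Nat.odd_iff]
    exact hcard.symm
  have hq : Odd (Nat.card K) := by
    haveI : Fintype K := Fintype.ofFinite K
    rw [Nat.card_eq_fintype_card, Nat.odd_iff]
    apply FiniteField.odd_card_of_char_ne_two
    intro h
    apply h2
    have := ringChar.Nat.cast_ringChar (R := K)
    rw [h] at this
    exact_mod_cast this
  rw [Projectivization.card_of_finrank K V rfl] at hodd
  have key : ∀ n : ℕ, (∑ i ∈ Finset.range n, Nat.card K ^ i) % 2 = n % 2 := by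
    intro n
    induction n with
    | zero => simp
    | succ n ih =>
      rw [Finset.sum_range_succ, Nat.add_mod, ih]
      have : Nat.card K ^ n % 2 = 1 := Nat.odd_iff.1 (hq.pow)
      rw [this]
      omega
  rw [Nat.odd_iff, key] at hodd
  exact Nat.odd_iff.2 hodd

end Pool.Agent.TP3
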