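import Pool.Agent.Lib.MP_a1e562_co.SF.Stm

/-!
# MP_a1e562_co, piece [SF POW]: powers
-/

set_option autoImplicit false

namespace Pool.Agent.TP3

open Polynomial

private theorem pow_end {K V : Type} [Field K] [AddCommGroup V] [Module K V]
    (A : V ≃ₗ[K] V) (T : Module.End K V) (h : ∀ v, A v = T v) (n : ℕ) (v : V) :
    (A ^ n) v = (T ^ n) v := by
  induction n generalizing v with
  | zero => simp
  | succ n ih =>
    rw [pow_succ, pow_succ]
    change (A ^ n) (A v) = (T ^ n) (T v)
    rw [ih, h]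

theorem s_SFPOW : S_SFPOW := by
  intro K V _ _ _ _ m e h hLE b b' hb hbb k
  have hT : ∀ v, m e (m b v) = m b v := fun v => h.left _
  -- left elements
  have hel : ∀ n : ℕ, ∀ ψ : K[X], m (((m b) ^ n) e) (aeval (m b) ψ e) =
      ((m b) ^ n) (aeval (m b) ψ e) := by
    intro n ψ
    obtain ⟨p, hp⟩ := hLE e b (m b) h.e_ne hb hT e (X ^ n)
    have h1 := hp 1
    rw [mul_one, map_one, map_pow, aeval_X, h.left] at h1
    change m p e = _ at h1
    rw [h.right] at h1
    have h2 := hp ψ
    rw [h.left, map_mul, map_pow, aeval_X] at h2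
    rw [← h1]
    exact h2
  have hTe : m b e = b := h.right b
  constructor
  · have h1 := hel k X
    rw [aeval_X, hTe] at h1
    rw [h1, pow_succ]
    change _ = ((m b) ^ k) (m b e)
    rw [hTe]
  · obtain ⟨A, hA⟩ := h.toPS.equivL hb
    have : Finite (V ≃ₗ[K] V) :=
      Finite.of_injective (fun B : V ≃ₗ[K] V => (B : V → V)) DFunLike.coe_injective
    obtain ⟨N, hN0, hN⟩ := isOfFinOrder_iff_pow_eq_one.1 (isOfFinOrder_of_finite A)
    obtain ⟨M, rfl⟩ : ∃ M, N = M + 1 := ⟨N - 1, by omega⟩
    have hTN : ∀ v, ((m b) ^ (M + 1)) v = v := by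
      intro v
      rw [← pow_end A (m b) hA, hN]
      rfl
    have hb' : b' = ((m b) ^ M) e := by
      refine h.toPS.cancelL hb ?_
      rw [h.two_sided hbb]
      have h2 := hTN e
      rw [pow_succ'] at h2
      exact h2.symm
    have h1 := hel M (X ^ (k + 2))
    rw [map_pow, aeval_X, ← hb'] at h1
    rw [h1]
    change ((m b) ^ M * (m b) ^ (k + 2)) e = _
    rw [← pow_add, show M + (k + 2) = (M + 1) + (k + 1) by ring, pow_add]
    exact hTN _

end Pool.Agent.TP3
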