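import Pool.Agent.Lib.MP_a1e562_co.SF.Stm

/-!
# [SF QD] inverses and quadratic operators
-/

set_option autoImplicit false

namespace Pool.Agent.TP3

private theorem qd_inv {K V : Type} [Field K] [AddCommGroup V] [Module K V] [Finite V]
    {m : V →ₗ[K] V →ₗ[K] V} {e : V} (h : SF K V m e) :
    ∃ ι : V → V, ι 0 = 0 ∧ (∀ v : V, v ≠ 0 → m v (ι v) = e) := by
  classical
  have hinv : ∀ v : V, ∃ w : V, (v = 0 → w = 0) ∧ (v ≠ 0 → m v w = e) := by
    intro v
    by_cases hv : v = 0
    · exact ⟨0, fun _ => rfl, fun h => absurd hv h⟩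
    · obtain ⟨w, hw⟩ := h.toPS.exL hv e
      exact ⟨w, fun h => absurd h hv, fun _ => hw⟩
  choose ι hι using hinv
  exact ⟨ι, (hι 0).1 rfl, fun v hv => (hι v).2 hv⟩

private theorem qd_U {K V : Type} [Field K] [AddCommGroup V] [Module K V] [Finite V]
    {m : V →ₗ[K] V →ₗ[K] V} {e : V} (h : SF K V m e) (ι : V → V)
    (hne : ∀ v : V, v ≠ 0 → ι v ≠ 0) :
    ∃ U : V → (V ≃ₗ[K] V), ∀ a v : V, a ≠ 0 → m (ι a) (U a v) = m v a := by
  have hU : ∀ a : V, ∃ W : V ≃ₗ[K] V, a ≠ 0 → ∀ v : V, m (ι a) (W v) = m v a := by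
    intro a
    by_cases ha : a = 0
    · exact ⟨LinearEquiv.refl K V, fun h => absurd ha h⟩
    · obtain ⟨A, hA⟩ := h.toPS.equivL (hne a ha)
      obtain ⟨B, hB⟩ := h.toPS.flip.equivL ha
      refine ⟨B.trans A.symm, fun _ v => ?_⟩
      rw [← hA, LinearEquiv.trans_apply, LinearEquiv.apply_symm_apply, hB, LinearMap.flip_apply]
  choose U hU using hU
  exact ⟨U, fun a v ha => hU a ha v⟩

theorem s_SFQD : S_SFQD := by
  intro K V _ _ _ _ m e h h1
  obtain ⟨ι, hi0, hir⟩ := qd_inv h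
  have hil : ∀ v : V, v ≠ 0 → m (ι v) v = e := fun v hv => h.two_sided (hir v hv)
  have hne : ∀ v : V, v ≠ 0 → ι v ≠ 0 := by
    intro v hv h0
    have := hir v hv
    rw [h0, map_zero] at this
    exact h.e_ne this.symm
  obtain ⟨U, hU⟩ := qd_U h ι hne
  refine ⟨ι, U, ⟨h, hi0, hil, hir, ?_, ?_, hU, ?_, ?_⟩⟩
  · intro v
    by_cases hv : v = 0
    · rw [hv, hi0, hi0]
    · refine h.toPS.cancelL (hne v hv) ?_
      rw [hir _ (hne v hv), hil v hv]
  · intro f v
    by_cases hf : f = 0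
    · rw [hf, zero_smul, hi0, inv_zero, zero_smul]
    · by_cases hv : v = 0
      · rw [hv, smul_zero, hi0, smul_zero]
      · have hfv : f • v ≠ 0 := smul_ne_zero hf hv
        refine h.toPS.cancelL hfv ?_
        rw [hir _ hfv, map_smul, map_smul, LinearMap.smul_apply, hir v hv, smul_smul,
          inv_mul_cancel₀ hf, one_smul]
  · intro a v ha
    by_cases hv : v = 0
    · rw [hv, map_zero, hi0, map_zero]
    · have hy : U a v ≠ 0 := by
        rw [Ne, LinearEquiv.map_eq_zero_iff]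
        exact hv
      have hx : m (ι a) (ι v) = m ((U a).symm (ι v)) a := by
        rw [← hU a _ ha, LinearEquiv.apply_symm_apply]
      have h3 : m ((U a).symm (ι v)) (U a v) = m (ι a) a :=
        h.hex (ι a) ((U a).symm (ι v)) v a (ι v) (U a v) (hne a ha) ha
          ((hir v hv).trans (hil a ha).symm) hx.symm (hU a v ha)
      refine h.toPS.cancelR hy ?_
      rw [hil _ hy]
      exact ((h3.trans (hil a ha))).symm
  · intro a d ha hd had
    have hz := hU a (ι d) ha
    have e1 := h1 a d (ι a) (ι d) (ι (a + d)) (U a (ι d)) ha hd had (hil a ha) (hil d hd)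
      (hil _ had) hz
    have e2 : m (ι a - ι (a + d)) (a + U a (ι d)) = e := by
      rw [map_sub, LinearMap.sub_apply, e1, map_add, hil a ha, hz, add_sub_cancel_right]
    have hw : ι a - ι (a + d) ≠ 0 := by
      intro h0
      rw [h0, map_zero, LinearMap.zero_apply] at e2
      exact h.e_ne e2.symm
    have e3 : a + U a (ι d) = ι (ι a - ι (a + d)) :=
      h.toPS.cancelL hw (e2.trans (hir _ hw).symm)
    rw [← e3, add_sub_cancel_left]

end Pool.Agent.TP3
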