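import Pool.Agent.Lib.MP_a1e562_co.SF.Stm

/-! [SF ROOT] Existence of a root of a given nonsquare. -/

set_option autoImplicit false

namespace Pool.Agent.TP3

theorem s_SFROOT : S_SFROOT := by
  intro hPAR K V _ _ _ _ _ m e h h2 hev c hc
  classical
  have := Fintype.ofFinite K
  choose inv hinv using fun (v : V) (hv : v ≠ 0) => h.toPS.exL hv e
  obtain ⟨ι, hι0, hι⟩ : ∃ ι : V → V, ι 0 = 0 ∧ ∀ v, v ≠ 0 → m v (ι v) = e := by
    refine ⟨fun v => if hv : v = 0 then 0 else inv v hv, by simp, fun v hv => ?_⟩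
    simp only [hv, dite_false]
    exact hinv v hv
  have hιl : ∀ v, v ≠ 0 → m (ι v) v = e := fun v hv => h.two_sided (hι v hv)
  have hιne : ∀ v, v ≠ 0 → ι v ≠ 0 := by
    intro v hv h0
    have h1 := hι v hv
    rw [h0, map_zero] at h1
    exact h.e_ne h1.symm
  have hii : ∀ v, ι (ι v) = v := by
    intro v
    by_cases hv : v = 0
    · rw [hv, hι0, hι0]
    · exact h.toPS.cancelL (hιne v hv) ((hι _ (hιne v hv)).trans (hιl v hv).symm)
  have his : ∀ (f : K) (v : V), ι (f • v) = f⁻¹ • ι v := by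
    intro f v
    by_cases hf : f = 0
    · rw [hf, zero_smul, hι0, inv_zero, zero_smul]
    by_cases hv : v = 0
    · rw [hv, smul_zero, hι0, smul_zero]
    have hfv : f • v ≠ 0 := smul_ne_zero hf hv
    apply h.toPS.cancelL hfv
    rw [hι _ hfv, map_smul, map_smul, LinearMap.smul_apply, hι v hv, smul_smul,
      inv_mul_cancel₀ hf, one_smul]
  have hιe : ∃ a : K, ι e = a • e := by
    refine ⟨1, ?_⟩
    rw [one_smul]
    apply h.toPS.cancelL h.e_ne
    rw [hι e h.e_ne, h.left]
  have hnot : ¬ ∀ v, (∃ a : K, ι v = a • v) → ∃ f : K, v = f • e := fun hall =>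
    (Nat.not_odd_iff_even.mpr hev) (hPAR K V e ι h2 h.e_ne hii his hιe hall)
  push Not at hnot
  obtain ⟨v, ⟨c', hc'⟩, hv⟩ := hnot
  have hv0 : v ≠ 0 := fun h0 => hv 0 (by rw [h0, zero_smul])
  have hvv : c' • m v v = e := by
    have h1 := hι v hv0
    rwa [hc', map_smul] at h1
  have hc'0 : c' ≠ 0 := by
    intro h0
    rw [h0, zero_smul] at hvv
    exact h.e_ne hvv.symm
  have hvv' : m v v = c'⁻¹ • e := by
    rw [← hvv, smul_smul, inv_mul_cancel₀ hc'0, one_smul]
  have hns : ¬ IsSquare c'⁻¹ := by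
    rintro ⟨f, hf⟩
    have h1 : m (v - f • e) (v + f • e) = 0 := by
      simp only [map_sub, map_add, map_smul, LinearMap.sub_apply, LinearMap.smul_apply, h.left,
        h.right, hvv', hf]
      module
    rcases h.nz _ _ h1 with h3 | h3
    · exact hv f (sub_eq_zero.mp h3)
    · exact hv (-f) (by rw [neg_smul]; exact eq_neg_of_add_eq_zero_left h3)
  have hsq : IsSquare (c * c'⁻¹) := by
    have h0 : c * c'⁻¹ ≠ 0 := by
      refine mul_ne_zero ?_ (inv_ne_zero hc'0)
      intro h0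
      exact hc (by rw [h0]; exact IsSquare.zero)
    rw [← quadraticChar_one_iff_isSquare h0, map_mul,
      quadraticChar_neg_one_iff_not_isSquare.mpr hc, quadraticChar_neg_one_iff_not_isSquare.mpr hns]
    norm_num
  obtain ⟨s, hs⟩ := hsq
  refine ⟨(s * c') • v, ?_⟩
  rw [map_smul, map_smul, LinearMap.smul_apply, hvv', smul_smul, smul_smul]
  congr 1
  have h5 : s * c' * (s * c') * c'⁻¹ = (s * s) * c' := by
    field_simp
  rw [h5, ← hs, mul_assoc, inv_mul_cancel₀ hc'0, mul_one]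

end Pool.Agent.TP3
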