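import Pool.Agent.Lib.MP_a1e562_co.SF.Stm

/-! Piece SQC: every line contains a square (odd dimension). -/

set_option autoImplicit false

namespace Pool.Agent.TP3

open Configuration Polynomial

private theorem sqc_par (q : ℕ) (hq : q % 2 = 1) (r : ℕ) :
    (∑ i ∈ Finset.range r, q ^ i) % 2 = r % 2 := by
  induction r with
  | zero => simp
  | succ r ih =>
    rw [Finset.sum_range_succ, Nat.add_mod, ih]
    have h1 : q ^ r % 2 = 1 := by
      rw [Nat.pow_mod, hq]
      simp
    rw [h1]
    omega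

private theorem sqc_card (K F : Type) [Field K] [Finite K] [Field F] [Finite F] [Algebra K F] :
    Nat.card F = Nat.card K ^ Module.finrank K F := by
  let _ := Fintype.ofFinite K
  let _ := Fintype.ofFinite F
  rw [Nat.card_eq_fintype_card, Nat.card_eq_fintype_card]
  exact Module.card_eq_pow_finrank

private theorem sqc_odd (K : Type) [Field K] [Finite K] (h2 : (2 : K) ≠ 0) : Nat.card K % 2 = 1 := by
  let _ := Fintype.ofFinite K
  rw [Nat.card_eq_fintype_card]
  refine FiniteField.odd_card_of_char_ne_two fun h => h2 ?_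
  have h3 : ((ringChar K : ℕ) : K) = 0 := ringChar.Nat.cast_ringChar
  rw [h] at h3
  exact_mod_cast h3

/-- an odd exponent with values in the ground field -/
private theorem sqc_norm (K F : Type) [Field K] [Finite K] [Field F] [Finite F] [Algebra K F]
    (h2 : (2 : K) ≠ 0) (hr : Odd (Module.finrank K F)) (θ : F) (hθ : θ ≠ 0) :
    ∃ (N : ℕ) (f : K), Odd N ∧ f ≠ 0 ∧ algebraMap K F f = θ ^ N := by
  have hq2 : 2 ≤ Nat.card K := Finite.one_lt_card
  refine ⟨∑ i ∈ Finset.range (Module.finrank K F), (Nat.card K) ^ i, Algebra.norm K θ, ?_, ?_, ?_⟩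
  · rw [Nat.odd_iff, sqc_par _ (sqc_odd K h2)]
    exact Nat.odd_iff.1 hr
  · intro h
    apply hθ
    have h1 := FiniteField.algebraMap_norm_eq_pow (K := K) (x := θ)
    rw [h, map_zero] at h1
    exact eq_zero_of_pow_eq_zero h1.symm
  · rw [FiniteField.algebraMap_norm_eq_pow, sqc_card K F, Nat.geomSum_eq hq2]

theorem s_SFSQC : S_SFSQC := by
  intro K V _ _ _ _ _ m e hSF h2 hLE hHF hodd z hz
  have hT : ∀ v, m e ((m z) v) = m z v := fun v => hSF.left _
  obtain ⟨F, iF, iFf, iA, E, θ, hE, _⟩ := hHF e z (m z) hSF.e_ne hz hT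
  have hθ : θ ≠ 0 := by
    rintro rfl
    rw [map_zero] at hE
    have h1 : (0 : Module.End K V) e = m z e := by rw [hE]
    rw [hSF.right, LinearMap.zero_apply] at h1
    exact hz h1.symm
  have hr : Odd (Module.finrank K F) := by
    let _ : Module F V := Module.compHom V E.toRingHom
    have hsm : ∀ (f : F) (v : V), f • v = E f v := fun f v => rfl
    have _ : IsScalarTower K F V := ⟨fun k f v => by
      rw [hsm, hsm, map_smul, LinearMap.smul_apply]⟩
    have h1 : Module.finrank K F * Module.finrank F V = Module.finrank K V :=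
      Module.finrank_mul_finrank K F V
    rw [← h1] at hodd
    exact (Nat.odd_mul.1 hodd).1
  obtain ⟨N, f, hN, hf, hNf⟩ := sqc_norm K F h2 hr θ hθ
  obtain ⟨k, hk⟩ : ∃ k, N + 1 = k + k := hN.add_one
  obtain ⟨p, hp⟩ := hLE e z (m z) hSF.e_ne hz hT e (X ^ k)
  have hp1 := hp 1
  have hpk := hp (X ^ k)
  rw [mul_one, map_one, map_pow, aeval_X, Module.End.one_apply, hSF.right, hSF.left] at hp1
  rw [← pow_add, map_pow, map_pow, aeval_X, ← hk, hSF.left, ← hp1] at hpk
  have hpow : ∀ j : ℕ, ((m z) ^ j) = E (θ ^ j) := fun j => by rw [map_pow, hE]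
  refine ⟨p, f, ?_, hf, ?_⟩
  · rintro h0
    rw [h0] at hp1
    have h3 : E (θ⁻¹ ^ k) (((m z) ^ k) e) = e := by
      rw [hpow k, ← Module.End.mul_apply, ← map_mul, ← mul_pow, inv_mul_cancel₀ hθ, one_pow, map_one,
        Module.End.one_apply]
    rw [← hp1, map_zero] at h3
    exact hSF.e_ne h3.symm
  · rw [hpk, hpow (N + 1), pow_succ, ← hNf, map_mul, AlgHom.commutes, hE, Module.End.mul_apply,
      hSF.right, Module.algebraMap_end_apply]

end Pool.Agent.TP3
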