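import Pool.Agent.Lib.MP_a1e562_co.SF.Stm

set_option autoImplicit false

namespace Pool.Agent.TP3

open scoped Pointwise in
theorem s_SFSYL : S_SFSYL := by
  intro G _ _ Z t ℓ hℓ hZ h2 ht
  have : Fact ℓ.Prime := ⟨hℓ⟩
  have f2 : Fact (Nat.Prime 2) := ⟨Nat.prime_two⟩
  have hn : Z.Normal := ⟨fun n hn g => by
    have := Subgroup.mem_center_iff.mp (hZ hn) g
    rw [this, mul_assoc, mul_inv_cancel, mul_one]
    exact hn⟩
  have hodd : ¬ 2 ∣ Z.index := by
    intro h
    obtain ⟨x, hx⟩ := exists_prime_orderOf_dvd_card' (G := G ⧸ Z) 2 h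
    obtain ⟨g, rfl⟩ := QuotientGroup.mk_surjective x
    have h1 : ((g : G ⧸ Z)) ^ 2 = 1 := by
      rw [← hx]
      exact pow_orderOf_eq_one _
    have h3 : g * g ∈ Z := by
      rw [← QuotientGroup.eq_one_iff, QuotientGroup.mk_mul, ← sq]
      exact h1
    have h4 : ((g : G ⧸ Z)) = 1 := (QuotientGroup.eq_one_iff g).mpr (h2 g h3)
    rw [h4, orderOf_one] at hx
    omega
  have hs : ¬ 2 ∣ Nat.card (Sylow ℓ G) := by
    intro h
    obtain ⟨Q⟩ : Nonempty (Sylow ℓ G) := inferInstance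
    rw [Q.card_eq_index_normalizer] at h
    apply hodd
    refine h.trans (Subgroup.index_dvd_of_le ?_)
    exact hZ.trans (Subgroup.center_le_normalizer _)
  let τ : MulAut G := t
  have hτ : τ ^ 2 = 1 := by
    ext g
    simp only [sq, MulAut.mul_apply, MulAut.one_apply]
    exact ht g
  obtain ⟨Q, hQ⟩ : ∃ Q : Sylow ℓ G, τ • Q = Q := by
    have := Fintype.ofFinite (Sylow ℓ G)
    have hc : ¬ 2 ∣ Fintype.card (Sylow ℓ G) := by
      rw [← Nat.card_eq_fintype_card]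
      exact hs
    have hσ : (MulAction.toPerm τ : Equiv.Perm (Sylow ℓ G)) ^ 2 ^ 1 = 1 := by
      rw [pow_one]
      ext Q : 1
      simp only [sq, Equiv.Perm.mul_apply, Equiv.Perm.one_apply, MulAction.toPerm_apply]
      rw [← mul_smul, ← sq, hτ, one_smul]
    obtain ⟨Q, hQ⟩ := Equiv.Perm.exists_fixed_point_of_prime hc hσ
    exact ⟨Q, hQ⟩
  refine ⟨Q, Q.isPGroup', Q.not_dvd_index, ?_⟩
  intro g hg
  have h1 : τ • g ∈ (τ • (Q : Subgroup G)) := Subgroup.smul_mem_pointwise_smul g τ _ hg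
  have h2 : (τ • (Q : Subgroup G)) = (Q : Subgroup G) := by
    have := congrArg (fun R : Sylow ℓ G => (R : Subgroup G)) hQ
    exact this
  rw [h2] at h1
  exact h1

end Pool.Agent.TP3
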