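import Pool.Agent.Lib.MP_a1e562_co.SF.Stm

/-!
# Piece ZSIG: a primitive prime divisor of `3 ^ n - 1` for `n ≥ 3`
-/

set_option autoImplicit false

namespace Pool.Agent.TP3

open Polynomial

/-- The order of `3` modulo a prime divisor of the value of the cyclotomic polynomial at `3`. -/
lemma zsig_order {n k m r : ℕ} (hr : r.Prime) (hn : n = r ^ k * m) (hm : ¬ r ∣ m)
    (hd : (r : ℤ) ∣ (cyclotomic n ℤ).eval 3) : orderOf (3 : ZMod r) = m := by
  have : Fact r.Prime := ⟨hr⟩
  have hroot : (cyclotomic n (ZMod r)).IsRoot 3 := by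
    rw [IsRoot.def, ← map_cyclotomic_int n (ZMod r)]
    have e : (3 : ZMod r) = (Int.castRingHom (ZMod r)) 3 := by simp
    rw [e, eval_map, eval₂_hom]
    simpa using (ZMod.intCast_zmod_eq_zero_iff_dvd _ r).2 hd
  rw [hn] at hroot
  have : NeZero ((m : ℕ) : ZMod r) := ⟨by
    rw [Ne, ZMod.natCast_eq_zero_iff]; exact hm⟩
  exact (isRoot_cyclotomic_prime_pow_mul_iff_of_charP.1 hroot).eq_orderOf.symm

/-- The value divides the geometric sum. -/
lemma zsig_geom {n p : ℕ} (hp : p.Prime) (hpn : p ∣ n) (hn0 : 0 < n) :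
    (cyclotomic n ℤ).eval 3 ∣ ∑ i ∈ Finset.range p, ((3 : ℤ) ^ (n / p)) ^ i := by
  obtain ⟨d, hd⟩ := hpn
  have hp0 : 0 < p := hp.pos
  have hdiv : n / p = d := by rw [hd]; exact Nat.mul_div_cancel_left d hp0
  rw [hdiv]
  have hd0 : 0 < d := by
    rcases Nat.eq_zero_or_pos d with h | h
    · subst h; omega
    · exact h
  have hprop : d ∈ n.properDivisors := by
    rw [Nat.mem_properDivisors]
    refine ⟨⟨p, by rw [hd, mul_comm]⟩, ?_⟩
    rw [hd]
    have := hp.two_le
    nlinarith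
  have h1 := X_pow_sub_one_mul_cyclotomic_dvd_X_pow_sub_one_of_dvd ℤ hprop
  have h2 : ((X ^ d - 1) * cyclotomic n ℤ : ℤ[X]).eval 3 ∣ (X ^ n - 1 : ℤ[X]).eval 3 :=
    eval_dvd h1
  simp only [eval_mul, eval_sub, eval_pow, eval_X, eval_one] at h2
  have hgeom : (3 : ℤ) ^ n - 1 = (3 ^ d - 1) * ∑ i ∈ Finset.range p, ((3 : ℤ) ^ d) ^ i := by
    rw [mul_geom_sum, ← pow_mul, hd, mul_comm p d]
  rw [hgeom] at h2
  have hne : (3 : ℤ) ^ d - 1 ≠ 0 := by
    have : (3 : ℤ) ^ 1 ≤ 3 ^ d := pow_le_pow_right₀ (by norm_num) hd0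
    intro h
    linarith
  exact (mul_dvd_mul_iff_left hne).1 h2

/-- The square of the bad odd prime does not divide the value. -/
lemma zsig_sq {n p : ℕ} (hp : p.Prime) (hodd : Odd p) (hpn : p ∣ n) (hn0 : 0 < n)
    (hx : (p : ℤ) ∣ 3 ^ (n / p) - 1) : ¬ ((p : ℤ) ^ 2 ∣ (cyclotomic n ℤ).eval 3) := by
  intro h
  obtain ⟨b, hb⟩ := hx
  have h4 := h.trans (zsig_geom hp hpn hn0)
  have h5 := odd_sq_dvd_geom_sum₂_sub (a := (1 : ℤ)) (b := b) hodd
  have e1 : (1 : ℤ) + p * b = 3 ^ (n / p) := by linarith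
  simp only [one_pow, mul_one, e1] at h5
  have h6 : ((p : ℤ) ^ 2) ∣ p := by
    have := dvd_sub h4 h5
    simpa using this
  have h7 : (p : ℤ) ^ 2 ≤ p := Int.le_of_dvd (by exact_mod_cast hp.pos) h6
  have h8 : (2 : ℤ) ≤ p := by exact_mod_cast hp.two_le
  nlinarith

/-- The same at the prime two. -/
lemma zsig_four {n : ℕ} (hn : 4 ∣ n) (hn0 : 0 < n) :
    ¬ ((2 : ℤ) ^ 2 ∣ (cyclotomic n ℤ).eval 3) := by
  intro h
  have h4 := h.trans (zsig_geom Nat.prime_two (dvd_trans (by norm_num) hn) hn0)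
  obtain ⟨k, rfl⟩ := hn
  have e1 : 4 * k / 2 = 2 * k := by omega
  rw [e1] at h4
  simp only [Finset.sum_range_succ, Finset.sum_range_zero, pow_zero, pow_one, zero_add] at h4
  have h5 : (4 : ℤ) ∣ (3 ^ (2 * k) - 1) := by
    have h6 := sub_dvd_pow_sub_pow ((3 : ℤ) ^ 2) 1 k
    rw [one_pow, ← pow_mul] at h6
    exact dvd_trans (by norm_num) h6
  obtain ⟨a, ha⟩ := h5
  obtain ⟨b, hb⟩ := h4
  omega

theorem s_SFZSIG : S_SFZSIG := by
  intro n hn
  by_contra hcon
  push Not at hcon
  -- no prime has order exactly `n`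
  have hcon' : ∀ q : ℕ, q.Prime → orderOf (3 : ZMod q) ≠ n := by
    intro q hq hord
    have : Fact q.Prime := ⟨hq⟩
    have hdv : ∀ i : ℕ, q ∣ 3 ^ i - 1 ↔ (3 : ZMod q) ^ i = 1 := by
      intro i
      rw [← ZMod.natCast_eq_zero_iff, Nat.cast_sub (Nat.one_le_pow _ _ (by norm_num))]
      push_cast
      exact sub_eq_zero
    obtain ⟨i, hi0, hin, hi⟩ := hcon q hq ((hdv n).2 (by rw [← hord]; exact pow_orderOf_eq_one _))
    have h1 := orderOf_dvd_of_pow_eq_one ((hdv i).1 hi)
    rw [hord] at h1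
    exact absurd (Nat.le_of_dvd hi0 h1) (by omega)
  set c : ℕ := ((cyclotomic n ℤ).eval 3).natAbs with hc
  have hpos : 0 < (cyclotomic n ℤ).eval 3 := cyclotomic_pos' n (R := ℤ) (x := 3) (by norm_num)
  have hcZ : (c : ℤ) = (cyclotomic n ℤ).eval 3 := by
    rw [hc]
    exact Int.natAbs_of_nonneg hpos.le
  have hcR : (2 : ℝ) ^ n.totient < c := by
    have h1 := sub_one_pow_totient_lt_cyclotomic_eval (n := n) (q := 3) (by omega) (by norm_num)
    have h2 : (c : ℝ) = (cyclotomic n ℝ).eval 3 := by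
      rw [← map_cyclotomic_int n ℝ]
      have e : (3 : ℝ) = ((3 : ℤ) : ℝ) := by norm_num
      rw [e, eval_intCast_map]
      have e2 : ((3 : ℤ) : ℤ) = 3 := rfl
      have e3 : (Int.castRingHom ℝ) (eval (3 : ℤ) (cyclotomic n ℤ)) = ((c : ℤ) : ℝ) := by
        rw [hcZ]; rfl
      exact (e3.trans (Int.cast_natCast c)).symm
    rw [h2]
    norm_num at h1 ⊢
    exact h1
  have hcN : 2 ^ n.totient < c := by exact_mod_cast hcR
  have hc1 : 1 < c := by
    have := Nat.one_le_two_pow (n := n.totient)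
    omega
  -- structure at a prime divisor
  have hst : ∀ r : ℕ, r.Prime → r ∣ c → ∃ k m : ℕ, 1 ≤ k ∧ ¬ r ∣ m ∧ n = r ^ k * m ∧
      orderOf (3 : ZMod r) = m ∧ m ∣ r - 1 ∧ 0 < m := by
    intro r hr hrc
    obtain ⟨k, m, hm, hnm⟩ := Nat.exists_eq_pow_mul_and_not_dvd (n := n) (by omega) r hr.ne_one
    have hd : (r : ℤ) ∣ (cyclotomic n ℤ).eval 3 := by
      rw [← hcZ]; exact_mod_cast hrc
    have hord := zsig_order hr hnm hm hd
    have hm0 : 0 < m := by
      rcases Nat.eq_zero_or_pos m with h | h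
      · subst h; simp at hm
      · exact h
    refine ⟨k, m, ?_, hm, hnm, hord, ?_, hm0⟩
    · rcases Nat.eq_zero_or_pos k with h | h
      · subst h
        rw [pow_zero, one_mul] at hnm
        exact absurd (hnm ▸ hord) (hcon' r hr)
      · exact h
    · have : Fact r.Prime := ⟨hr⟩
      rw [← hord]
      apply ZMod.orderOf_dvd_card_sub_one
      intro h2
      rw [h2, orderOf_zero] at hord
      omega
  obtain ⟨p, hp, hpc⟩ := Nat.exists_prime_and_dvd (n := c) (by omega)
  obtain ⟨k, m, hk, hm, hnm, hord, hmp, hm0⟩ := hst p hp hpc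
  have huniq : ∀ {r : ℕ}, r.Prime → r ∣ c → r = p := by
    intro r hr hrc
    obtain ⟨k', m', hk', hm', hnm', hord', hmp', hm0'⟩ := hst r hr hrc
    have hmle : m < p := by
      have := Nat.le_of_dvd (by have := hp.two_le; omega) hmp
      have := hp.two_le
      omega
    have hm'le : m' < r := by
      have := Nat.le_of_dvd (by have := hr.two_le; omega) hmp'
      have := hr.two_le
      omega
    by_contra hne
    have h1 : r ∣ m := by
      have : r ∣ p ^ k * m := by
        rw [← hnm, hnm']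
        exact Dvd.dvd.mul_right (dvd_pow_self r (by omega)) m'
      rcases (hr.dvd_mul).1 this with h | h
      · exact absurd ((Nat.prime_dvd_prime_iff_eq hr hp).1 (hr.dvd_of_dvd_pow h)) hne
      · exact h
    have h2 : p ∣ m' := by
      have : p ∣ r ^ k' * m' := by
        rw [← hnm', hnm]
        exact Dvd.dvd.mul_right (dvd_pow_self p (by omega)) m
      rcases (hp.dvd_mul).1 this with h | h
      · exact absurd ((Nat.prime_dvd_prime_iff_eq hp hr).1 (hp.dvd_of_dvd_pow h)).symm hne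
      · exact h
    have h3 := Nat.le_of_dvd hm0 h1
    have h4 := Nat.le_of_dvd hm0' h2
    omega
  have hpn : p ∣ n := by
    rw [hnm]
    exact Dvd.dvd.mul_right (dvd_pow_self p (by omega)) m
  have hsq : ¬ ((p : ℤ) ^ 2 ∣ (cyclotomic n ℤ).eval 3) := by
    rcases hp.eq_two_or_odd' with h | hodd
    · subst h
      have hm1 : m = 1 := by
        have := Nat.le_of_dvd (by norm_num) hmp
        omega
      subst hm1
      apply zsig_four _ (by omega)
      rw [hnm, mul_one]
      have hk2 : 2 ≤ k := by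
        by_contra hlt
        have : k = 1 := by omega
        subst this
        omega
      exact pow_dvd_pow 2 hk2
    · apply zsig_sq hp hodd hpn (by omega)
      have h1 : n / p = m * p ^ (k - 1) := by
        rw [hnm]
        obtain ⟨k', rfl⟩ : ∃ k', k = k' + 1 := ⟨k - 1, by omega⟩
        rw [pow_succ]
        have : p ^ k' * p * m = p * (m * p ^ k') := by ring
        rw [this, Nat.mul_div_cancel_left _ hp.pos]
        simp
      have h2 : ((3 : ZMod p)) ^ (n / p) = 1 := by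
        rw [h1, pow_mul, ← hord, pow_orderOf_eq_one, one_pow]
      rw [← ZMod.intCast_zmod_eq_zero_iff_dvd]
      push_cast
      rw [h2, sub_self]
  have hcp : c = p := by
    have h1 := Nat.eq_prime_pow_of_unique_prime_dvd (n := c) (p := p) (by omega) huniq
    set a := c.primeFactorsList.length with ha
    have ha1 : a = 1 := by
      by_contra hne
      rcases Nat.eq_zero_or_pos a with h | h
      · rw [h, pow_zero] at h1; omega
      · apply hsq
        rw [← hcZ, h1]
        push_cast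
        exact pow_dvd_pow _ (by omega)
    rw [ha1, pow_one] at h1
    exact h1
  have htot : p - 1 ≤ n.totient := by
    have h1 := Nat.totient_dvd_of_dvd hpn
    rw [Nat.totient_prime hp] at h1
    exact Nat.le_of_dvd (Nat.totient_pos.2 (by omega)) h1
  have h1 : 2 ^ (p - 1) ≤ 2 ^ n.totient := Nat.pow_le_pow_right (by norm_num) htot
  have h2 : p - 1 < 2 ^ (p - 1) := Nat.lt_two_pow_self
  have h3 := hp.two_le
  omega

end Pool.Agent.TP3
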