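import Pool.Agent.Lib.MP_a1e562_co.SF.Asm
import Pool.Agent.Lib.MP_a1e562_co.A1
import Pool.Agent.Lib.MP_a1e562_co.A7b
import Pool.Agent.Lib.MP_a1e562_co.B9
import Pool.Agent.Lib.MP_a1e562_co.SF.PG0
import Pool.Agent.Lib.MP_a1e562_co.SF.PG0B
import Pool.Agent.Lib.MP_a1e562_co.SF.PG1
import Pool.Agent.Lib.MP_a1e562_co.SF.PG2
import Pool.Agent.Lib.MP_a1e562_co.SF.PG3
import Pool.Agent.Lib.MP_a1e562_co.SF.PG4
import Pool.Agent.Lib.MP_a1e562_co.SF.PDS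
import Pool.Agent.Lib.MP_a1e562_co.SF.PLE
import Pool.Agent.Lib.MP_a1e562_co.SF.PFL
import Pool.Agent.Lib.MP_a1e562_co.SF.PFF
import Pool.Agent.Lib.MP_a1e562_co.SF.PHU1
import Pool.Agent.Lib.MP_a1e562_co.SF.PHU2
import Pool.Agent.Lib.MP_a1e562_co.SF.PQD
import Pool.Agent.Lib.MP_a1e562_co.SF.PPAR
import Pool.Agent.Lib.MP_a1e562_co.SF.PROOT
import Pool.Agent.Lib.MP_a1e562_co.SF.PE2
import Pool.Agent.Lib.MP_a1e562_co.SF.PE3
import Pool.Agent.Lib.MP_a1e562_co.SF.PE4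
import Pool.Agent.Lib.MP_a1e562_co.SF.PE5
import Pool.Agent.Lib.MP_a1e562_co.SF.PEVD
import Pool.Agent.Lib.MP_a1e562_co.SF.PPOW
import Pool.Agent.Lib.MP_a1e562_co.SF.PSQC
import Pool.Agent.Lib.MP_a1e562_co.SF.PFUND
import Pool.Agent.Lib.MP_a1e562_co.SF.PNOINV
import Pool.Agent.Lib.MP_a1e562_co.SF.PSYL
import Pool.Agent.Lib.MP_a1e562_co.SF.PGRP
import Pool.Agent.Lib.MP_a1e562_co.SF.PZSIG
import Pool.Agent.Lib.MP_a1e562_co.SF.PEND
import Pool.Agent.Lib.MP_a1e562_co.SF.PCEN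

/-! # Finite semifield planes of characteristic three are desarguesian -/

set_option autoImplicit false

namespace Pool.Agent.TP3

open Configuration

theorem semifield_main (P L : Type) [Membership P L] [ProjectivePlane P L] [Finite P]
    (h : Char3 P L) (hs : SemifieldPlane P L) : Desarguesian P L :=
  SFA_main s_A1 s_A7b s_SFG0 s_SFG0B s_SFG1 s_SFG2 s_SFG3 s_SFG4 s_SFDS s_SFLE s_SFFL s_SFFF
    s_SFHU1 s_SFHU2 s_B9 s_SFROOT s_SFE2 s_SFE3 s_SFE4 s_SFE5 s_SFQD s_SFPAR s_SFEVD s_SFPOW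
    s_SFSQC s_SFFUND s_SFNOINV s_SFSYL s_SFGRP s_SFZSIG s_SFEND s_SFCEN P L h hs

end Pool.Agent.TP3
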