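import Pool.Agent.Lib.MP_a1e562_co.SF.All

/-!
# Definitions used in the statement on semifield planes of characteristic three
-/

set_option autoImplicit false

namespace Pool.Agent.TP3

open Configuration

/-- Every quadrangle generates (by joining and intersecting) a subplane with exactly 13 points;
the condition is copied from the frozen statement S10505. -/
def CharThree (P L : Type) [Membership P L] : Prop :=
  ∀ a b c d : P,
    (¬ ∃ l : L, a ∈ l ∧ b ∈ l ∧ c ∈ l) →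
    (¬ ∃ l : L, a ∈ l ∧ b ∈ l ∧ d ∈ l) →
    (¬ ∃ l : L, a ∈ l ∧ c ∈ l ∧ d ∈ l) →
    (¬ ∃ l : L, b ∈ l ∧ c ∈ l ∧ d ∈ l) →
    Set.ncard {x : P | ∀ (S : Set P) (T : Set L),
        a ∈ S → b ∈ S → c ∈ S → d ∈ S →
        (∀ p ∈ S, ∀ q ∈ S, p ≠ q → ∀ l : L, p ∈ l → q ∈ l → l ∈ T) →
        (∀ l ∈ T, ∀ m ∈ T, l ≠ m → ∀ p : P, p ∈ l → p ∈ m → p ∈ S) →
        x ∈ S} = 13

/-- The plane is isomorphic to the plane over some field. -/
def IsDesarguesian (P L : Type) [Membership P L] : Prop :=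
  ∃ (F : Type) (_ : Field F) (f : P ≃ Projectivization F (Fin 3 → F))
    (g : L ≃ {W : Submodule F (Fin 3 → F) // Module.finrank F W = 2}),
    ∀ (p : P) (l : L), p ∈ l ↔ (f p).submodule ≤ (g l).1

/-- The plane is a semifield plane: there are a line `ℓ`, an abelian group `V` with a product
`mul` that is additive in both variables and has no zero divisors (a presemifield), and a bijection
of the points off `ℓ` with `V × V` such that the lines other than `ℓ` are exactly the sets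
`x = c` and `y = mul x k + b`. -/
def IsSemifieldPlane (P L : Type) [Membership P L] : Prop :=
  ∃ (V : Type) (_ : AddCommGroup V) (mul : V → V → V) (ℓ : L)
    (φ : {x : P // x ∉ ℓ} ≃ V × V),
    (∀ x y k : V, mul (x + y) k = mul x k + mul y k) ∧
    (∀ x k l : V, mul x (k + l) = mul x k + mul x l) ∧
    (∀ x k : V, mul x k = 0 → x = 0 ∨ k = 0) ∧
    (∀ m : L, m ≠ ℓ →
      (∃ c : V, ∀ p : {x : P // x ∉ ℓ}, (p : P) ∈ m ↔ (φ p).1 = c) ∨
      ∃ k b : V, ∀ p : {x : P // x ∉ ℓ}, (p : P) ∈ m ↔ (φ p).2 = mul (φ p).1 k + b) ∧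
    (∀ c : V, ∃ m : L, m ≠ ℓ ∧ ∀ p : {x : P // x ∉ ℓ}, (p : P) ∈ m ↔ (φ p).1 = c) ∧
    (∀ k b : V, ∃ m : L, m ≠ ℓ ∧
      ∀ p : {x : P // x ∉ ℓ}, (p : P) ∈ m ↔ (φ p).2 = mul (φ p).1 k + b)

theorem semifield_short (P L : Type) [Membership P L] [ProjectivePlane P L] [Finite P]
    (hc : CharThree P L) (h : IsSemifieldPlane P L) : IsDesarguesian P L := by
  obtain ⟨V, iV, mul, ℓ, φ, h1, h2, h3, h4, h5, h6⟩ := h
  exact semifield_main P L hc ⟨V, iV, AddMonoidHom.mk' (fun x => AddMonoidHom.mk' (mul x) (h2 x))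
    (fun x y => AddMonoidHom.ext (h1 x y)), ℓ, φ, h3, h4, h5, h6⟩

end Pool.Agent.TP3
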