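import Pool.Agent.Lib.MP_a1e562_co.SF.Stm

/-! # Assembly of the theorem on semifield planes from the pieces -/

set_option autoImplicit false

namespace Pool.Agent.TP3

open Configuration Polynomial

section

variable {K V : Type} [Field K] [AddCommGroup V] [Module K V]

theorem SFA_LE (hDS : S_SFDS) (hLE : S_SFLE) [Finite V] {m : V →ₗ[K] V →ₗ[K] V}
    (h : PS K V m) : LeftEl m := hLE hDS K V m h

theorem SFA_FL (hDS : S_SFDS) (hLE : S_SFLE) (hFL : S_SFFL) [Finite V] {m : V →ₗ[K] V →ₗ[K] V}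
    (h : PS K V m) : FieldLem m := hFL K V m h (hLE hDS K V m h)

theorem SFA_FF (hDS : S_SFDS) (hLE : S_SFLE) (hFL : S_SFFL) (hFF : S_SFFF) [Finite V]
    {m : V →ₗ[K] V →ₗ[K] V} (h : PS K V m) :
    ∀ (p0 p1 : V) (T : Module.End K V), p0 ≠ 0 → p1 ≠ 0 → (∀ v, m p0 (T v) = m p1 v) →
      HasField T := fun p0 p1 T hp0 hp1 hT =>
  hFF K V T ⟨p0, hp0⟩ (fun g φ hg h0 => SFA_FL hDS hLE hFL h p0 p1 T hp0 hp1 hT g φ hg h0)

theorem SFA_HU1 (hDS : S_SFDS) (hLE : S_SFLE) (hFL : S_SFFL) (hFF : S_SFFF) (hHU1 : S_SFHU1)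
    [Finite V] {m : V →ₗ[K] V →ₗ[K] V} {e : V} (h : SF K V m e) :
    ∀ a d a' d' s z : V, a ≠ 0 → d ≠ 0 → a + d ≠ 0 → m a' a = e → m d' d = e →
      m s (a + d) = e → m a' z = m d' a → m s (a + z) = m d' a :=
  hHU1 K V m e h (SFA_LE hDS hLE h.toPS) (SFA_FF hDS hLE hFL hFF h.toPS)

theorem SFA_HU2 (hDS : S_SFDS) (hLE : S_SFLE) (hFL : S_SFFL) (hFF : S_SFFF) (hHU1 : S_SFHU1)
    (hHU2 : S_SFHU2)
    [Finite V] {m : V →ₗ[K] V →ₗ[K] V} {e : V} (h : SF K V m e) :
    ∀ a b v z z' : V, a ≠ 0 → m a b = e → m b z = m v a → m z' b = m a v → z = z' :=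
  hHU2 K V m e h (SFA_HU1 hDS hLE hFL hFF hHU1 h) (by
    intro a d a' d' s z ha hd had h1 h2 h3 h4
    have := SFA_HU1 hDS hLE hFL hFF hHU1 h.flip a d a' d' s z ha hd had
      (by simpa using h1) (by simpa using h2) (by simpa using h3) (by simpa using h4)
    simpa using this)

/-- even dimension: there is a central element outside `K e` -/
theorem SFA_even (hDS : S_SFDS) (hLE : S_SFLE) (hFL : S_SFFL) (hFF : S_SFFF) (hHU1 : S_SFHU1)
    (hHU2 : S_SFHU2) (hPAR : S_SFPAR) (hROOT : S_SFROOT) (hB9 : S_B9) (hE2 : S_SFE2)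
    (hE3 : S_SFE3) (hE4 : S_SFE4) (hE5 : S_SFE5)
    [Finite K] [Finite V] {m : V →ₗ[K] V →ₗ[K] V} {e : V} (h : SF K V m e) (h3 : (3 : K) = 0)
    (hd : Even (Module.finrank K V)) :
    ∃ x : V, (∀ k : K, x ≠ k • e) ∧ (∀ a, m a x = m x a) ∧ (∀ a v, m (m a x) v = m a (m x v)) ∧
      (∀ a v, m (m x a) v = m x (m a v)) ∧ (∀ a v, m (m a v) x = m a (m v x)) := by
  have h2 : (2 : K) ≠ 0 := by
    intro h2
    have : (1 : K) = 3 - 2 := by norm_num
    rw [h3, h2, sub_zero] at this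
    exact one_ne_zero this
  have hchar : ringChar K ≠ 2 := by
    intro hc
    have : ((2 : ℕ) : K) = 0 := by
      rw [← hc]; exact ringChar.Nat.cast_ringChar
    exact h2 (by exact_mod_cast this)
  obtain ⟨c, hc⟩ := FiniteField.exists_nonsquare (F := K) hchar
  have hc0 : c ≠ 0 := by
    rintro rfl
    exact hc (IsSquare.zero)
  have hroot : ∀ (m : V →ₗ[K] V →ₗ[K] V) (e : V), SF K V m e → ∃ x : V, m x x = c • e :=
    fun m e h => hROOT hPAR K V m e h h2 hd c hc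
  have huq : ∀ (m : V →ₗ[K] V →ₗ[K] V) (e : V), SF K V m e → ∀ x : V, m x x = c • e →
      ∀ y, m y y = c • e → y = x ∨ y = -x := fun m e h x hx y hy =>
    hE2 hB9 K V m e h h2 (SFA_LE hDS hLE h.toPS) (SFA_FL hDS hLE hFL h.toPS)
      (SFA_FF hDS hLE hFL hFF h.toPS) c x y hc0 hx hy
  obtain ⟨x, hx⟩ := hroot m e h
  obtain ⟨r1, r2, r3, r4⟩ := hE5 K V c hc0 hroot
    (fun m e h x hx a k w ha hk hw => (hE3 K V m e h (SFA_FL hDS hLE hFL h.toPS)
      (SFA_FL hDS hLE hFL h.toPS.flip) c x hc0 hx (huq m e h x hx) a k w ha hk hw).2)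
    (fun m e h x hx hN => hE4 K V m e h h2 (SFA_FL hDS hLE hFL h.toPS.flip)
      (SFA_HU2 hDS hLE hFL hFF hHU1 hHU2 h) c x hc0 hx hN (fun a k w ha hk hw => by
        have := (hE3 K V m.flip e h.flip (SFA_FL hDS hLE hFL h.toPS.flip)
          (SFA_FL hDS hLE hFL h.toPS.flip.flip) c x hc0 (by simpa using hx)
          (fun y hy => huq m e h x hx y (by simpa using hy)) a k w ha
          (by simpa using hk) (by simpa using hw)).1
        simpa using this))
    m e h x hx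
  refine ⟨x, fun k hk => ?_, r1, r2, r3, r4⟩
  apply hc
  have h1 : m x x = (k * k) • e := by
    rw [hk]
    simp only [map_smul, LinearMap.smul_apply, h.left, smul_smul]
  rw [hx] at h1
  have h4 : (c - k * k) • e = 0 := by rw [sub_smul, h1, sub_self]
  rcases smul_eq_zero.1 h4 with h5 | h5
  · exact ⟨k, sub_eq_zero.1 h5⟩
  · exact absurd h5 h.e_ne

/-- odd dimension `> 1`: the product is commutative and associative -/
theorem SFA_odd (hDS : S_SFDS) (hLE : S_SFLE) (hFL : S_SFFL) (hFF : S_SFFF) (hHU1 : S_SFHU1)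
    (hQD : S_SFQD) (hPAR : S_SFPAR) (hEVD : S_SFEVD) (hPOW : S_SFPOW) (hSQC : S_SFSQC)
    (hFUND : S_SFFUND) (hNOINV : S_SFNOINV) (hSYL : S_SFSYL) (hGRP : S_SFGRP)
    (hZSIG : S_SFZSIG) (hEND : S_SFEND)
    [Finite K] [Finite V] {m : V →ₗ[K] V →ₗ[K] V} {e : V} (h : SF K V m e) (h3 : (3 : K) = 0)
    (hd : Odd (Module.finrank K V)) (hd1 : 1 < Module.finrank K V) :
    (∀ x y, m x y = m y x) ∧ ∀ x y z, m (m x y) z = m x (m y z) := by
  have h2 : (2 : K) ≠ 0 := by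
    intro h2
    have : (1 : K) = 3 - 2 := by norm_num
    rw [h3, h2, sub_zero] at this
    exact one_ne_zero this
  have hle := SFA_LE hDS hLE h.toPS
  have hfl := SFA_FL hDS hLE hFL h.toPS
  have hff := SFA_FF hDS hLE hFL hFF h.toPS
  obtain ⟨ι, U, q⟩ := hQD K V m e h (SFA_HU1 hDS hLE hFL hFF hHU1 h)
  have hιe : ι e = e := by
    have := q.ir e h.e_ne
    rwa [h.left] at this
  have hιne : ∀ a, a ≠ 0 → ι a ≠ 0 := fun a ha h0 => ha (by rw [← q.ii a, h0, q.i0])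
  -- powers
  have hUpow : ∀ a, a ≠ 0 → ∀ k : ℕ, U a (((m a) ^ k) e) = ((m a) ^ (k + 2)) e := by
    intro a ha k
    obtain ⟨p1, p2⟩ := hPOW K V m e h hle a (ι a) ha (q.il a ha) k
    have hinv : (ι a) ≠ 0 := hιne a ha
    apply h.toPS.cancelL hinv
    rw [q.Ul a _ ha, p1, p2]
  have hUe : ∀ a, a ≠ 0 → U a e = m a a := by
    intro a ha
    have := hUpow a ha 0
    simp only [pow_zero, Module.End.one_apply, zero_add] at this
    rw [this, pow_two, Module.End.mul_apply, h.right]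
  have hUn : ∀ a, a ≠ 0 → ∀ n : ℕ, ((U a) ^ n) e = ((m a) ^ (2 * n)) e := by
    intro a ha n
    induction n with
    | zero => simp
    | succ n ih =>
      rw [pow_succ', LinearEquiv.mul_apply, ih, hUpow a ha]
      rfl
  -- transitivity
  have htr : ∀ z : V, z ≠ 0 → ∃ h k : V ≃ₗ[K] V, (h, k) ∈ StrGrp K ι ∧ h e = z := by
    intro z hz
    obtain ⟨a, f, ha, hf, hsq⟩ := hSQC K V m e h h2 hle hff hd z hz
    refine ⟨scal V f⁻¹ (inv_ne_zero hf) * U a,
      scal V f⁻¹⁻¹ (inv_ne_zero (inv_ne_zero hf)) * (U a).symm, ?_, ?_⟩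
    · exact (StrGrp K ι).mul_mem (StrGrp_scal q.is f⁻¹ (inv_ne_zero hf)) (StrGrp_U q ha)
    · rw [LinearEquiv.mul_apply, scal_apply, hUe a ha, hsq, smul_smul, inv_mul_cancel₀ hf,
        one_smul]
  -- fixed points of inversion
  have hsq : ∀ v, (∃ c : K, ι v = c • v) → ∃ f : K, v = f • e := by
    rintro v ⟨c, hc⟩
    by_cases hv : v = 0
    · exact ⟨0, by rw [hv, zero_smul]⟩
    have hc0 : c ≠ 0 := by
      rintro rfl
      rw [zero_smul] at hc
      exact hιne v hv hc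
    have h1 : m v v = c⁻¹ • e := by
      have h1 := q.ir v hv
      rw [hc, map_smul] at h1
      rw [← h1, smul_smul, inv_mul_cancel₀ hc0, one_smul]
    by_cases hs : IsSquare c⁻¹
    · obtain ⟨f, hf⟩ := hs
      have h4 : m (v - f • e) (v + f • e) = 0 := by
        simp only [map_sub, map_add, map_smul, LinearMap.sub_apply, LinearMap.smul_apply,
          h.left, h.right, h1, hf, smul_sub, smul_smul]
        abel
      rcases h.nz _ _ h4 with h5 | h5
      · exact ⟨f, sub_eq_zero.1 h5⟩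
      · exact ⟨-f, by rw [neg_smul]; exact eq_neg_of_add_eq_zero_left h5⟩
    · exfalso
      have hT : ∀ w, m e ((m v) w) = m v w := fun w => h.left _
      have h5 := hfl e v (m v) h.e_ne hv hT e (X ^ 2 - C c⁻¹) h.e_ne (by
        simp only [map_sub, map_mul, aeval_X, aeval_C, LinearMap.sub_apply, pow_two,
          Module.End.mul_apply, Module.algebraMap_end_apply]
        rw [h.right, h1, sub_self])
      have h6 : ∀ w, m v (m v w) = c⁻¹ • w := by
        intro w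
        have := congrArg (fun (f : Module.End K V) => f w) h5
        simp only [map_sub, map_mul, aeval_X, aeval_C, LinearMap.sub_apply, pow_two,
          Module.End.mul_apply, Module.algebraMap_end_apply, LinearMap.zero_apply] at this
        exact sub_eq_zero.1 this
      have h7 := hEVD K V (m v) c⁻¹ hs h6
      exact (Nat.not_even_iff_odd.2 hd) h7
  have hfund := hFUND K V m e ι U q h2
  have hno := hNOINV hPAR hEVD K V m e ι U q h2 hd hfund hsq htr
  -- cardinalities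
  have hcardV : Nat.card V = Nat.card K ^ Module.finrank K V := Module.natCard_eq_pow_finrank
  obtain ⟨r, hr0, hr⟩ : ∃ r : ℕ, 0 < r ∧ Nat.card K = 3 ^ r := by
    have : Fintype K := Fintype.ofFinite K
    haveI : CharP K 3 := (CharP.charP_iff_prime_eq_zero (by norm_num)).2 (by exact_mod_cast h3)
    obtain ⟨n, hn, hcard⟩ := FiniteField.card K 3
    exact ⟨n, n.pos, by rw [Nat.card_eq_fintype_card, hcard]⟩
  have hpow3 : ∀ i, Nat.card K ^ i = 3 ^ (r * i) := fun i => by rw [hr, ← pow_mul]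
  obtain ⟨ℓ, hℓ, hℓd, hℓp⟩ := hZSIG (r * Module.finrank K V) (by
    have h5 : 3 ≤ Module.finrank K V := by
      rcases hd with ⟨t, ht⟩
      omega
    calc 3 ≤ Module.finrank K V := h5
      _ ≤ r * Module.finrank K V := Nat.le_mul_of_pos_left _ hr0)
  have hℓ2 : ℓ ≠ 2 := by
    rintro rfl
    refine hℓp 1 one_pos ?_ (by norm_num)
    have : 1 < Module.finrank K V := hd1
    calc 1 < Module.finrank K V := hd1
      _ ≤ r * Module.finrank K V := Nat.le_mul_of_pos_left _ hr0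
  obtain ⟨b, j, hb0, hbe, hbe', hU⟩ := hGRP hSYL K V m e ι U q h2 hfund htr hno ℓ hℓ hℓ2 (by
    rw [hcardV, hpow3]
    exact hℓd)
  refine hEND K V m e h hle hfl hff ℓ hℓ ?_ b j hb0 ?_ ?_
  · intro i hi0 hi
    rw [hpow3]
    exact hℓp (r * i) (Nat.mul_pos hr0 hi0) (Nat.mul_lt_mul_of_pos_left hi hr0)
  · intro hbb
    have h4 : m (b - e) (b + e) = 0 := by
      simp only [map_sub, map_add, LinearMap.sub_apply, h.left, h.right, hbb]
      abel
    rcases h.nz _ _ h4 with h5 | h5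
    · exact hbe (sub_eq_zero.1 h5)
    · exact hbe' (eq_neg_of_add_eq_zero_left h5)
  · rw [← hUn b hb0]
    exact hU e

end

/-- the algebraic theorem -/
theorem SFA_alg (hDS : S_SFDS) (hLE : S_SFLE) (hFL : S_SFFL) (hFF : S_SFFF) (hHU1 : S_SFHU1)
    (hHU2 : S_SFHU2) (hB9 : S_B9) (hROOT : S_SFROOT) (hE2 : S_SFE2)
    (hE3 : S_SFE3) (hE4 : S_SFE4) (hE5 : S_SFE5)
    (hQD : S_SFQD) (hPAR : S_SFPAR) (hEVD : S_SFEVD) (hPOW : S_SFPOW) (hSQC : S_SFSQC)
    (hFUND : S_SFFUND) (hNOINV : S_SFNOINV) (hSYL : S_SFSYL) (hGRP : S_SFGRP)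
    (hZSIG : S_SFZSIG) (hEND : S_SFEND) (hCEN : S_SFCEN)
    (V : Type) [AddCommGroup V] [Finite V] (mul : V →+ V →+ V) (e : V)
    (hnz : ∀ x y : V, mul x y = 0 → x = 0 ∨ y = 0) (he : e ≠ 0) (hl : ∀ v, mul e v = v)
    (hr : ∀ v, mul v e = v) (h3 : ∀ v : V, v + v + v = 0) (hhex : HexLaw (fun x y => mul x y)) :
    (∀ x y, mul x y = mul y x) ∧ (∀ x y z, mul (mul x y) z = mul x (mul y z)) := by
  obtain ⟨K, iK, fK, iM, m, hK3, hm, hcen⟩ := hCEN V mul e hnz he hl hr h3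
  have hSF : SF K V m e := by
    refine ⟨⟨fun x y hxy => hnz x y (by rw [← hm]; exact hxy), ?_⟩, he, fun v => ?_, fun v => ?_⟩
    · intro p0 p1 q g0 g1 g2 hp hg e1 e2 e3
      simp only [hm] at e1 e2 e3 ⊢
      exact hhex p0 p1 q g0 g1 g2 hp hg e1 e2 e3
    · rw [hm, hl]
    · rw [hm, hr]
  haveI : Module.Finite K V := Module.Finite.of_finite
  haveI : Nontrivial V := ⟨⟨e, 0, he⟩⟩
  have key : (∀ x y, m x y = m y x) ∧ ∀ x y z, m (m x y) z = m x (m y z) := by
    rcases Nat.even_or_odd (Module.finrank K V) with hd | hd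
    · exfalso
      obtain ⟨x, hx, c1, c2, c3, c4⟩ := SFA_even hDS hLE hFL hFF hHU1 hHU2 hPAR hROOT hB9 hE2 hE3
        hE4 hE5 hSF hK3 hd
      obtain ⟨k, hk⟩ := hcen x (fun y => by rw [← hm, ← hm, c1])
        (fun y z => by simpa only [hm] using c3 y z)
        (fun y z => by simpa only [hm] using c2 y z)
        (fun y z => by simpa only [hm] using c4 y z)
      exact hx k hk
    · by_cases hd1 : Module.finrank K V = 1
      · obtain ⟨v0, hv0, hspan⟩ := finrank_eq_one_iff'.1 hd1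
        obtain ⟨c0, hc0⟩ := hspan e
        have hc0' : c0 ≠ 0 := by
          rintro rfl
          rw [zero_smul] at hc0
          exact he hc0.symm
        have hall : ∀ v : V, ∃ c : K, v = c • e := by
          intro v
          obtain ⟨c, hc⟩ := hspan v
          exact ⟨c * c0⁻¹, by rw [← hc0, smul_smul, mul_assoc, inv_mul_cancel₀ hc0', mul_one, hc]⟩
        constructor
        · intro x y
          obtain ⟨a, rfl⟩ := hall x
          obtain ⟨b, rfl⟩ := hall y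
          simp only [map_smul, LinearMap.smul_apply, hSF.left, smul_smul, mul_comm]
        · intro x y z
          obtain ⟨a, rfl⟩ := hall x
          obtain ⟨b, rfl⟩ := hall y
          obtain ⟨c, rfl⟩ := hall z
          simp only [map_smul, LinearMap.smul_apply, hSF.left]
      · exact SFA_odd hDS hLE hFL hFF hHU1 hQD hPAR hEVD hPOW hSQC hFUND hNOINV hSYL hGRP hZSIG
          hEND hSF hK3 hd (by rcases hd with ⟨t, ht⟩; omega)
  exact ⟨fun x y => by simpa only [hm] using key.1 x y,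
    fun x y z => by simpa only [hm] using key.2 x y z⟩

/-- the theorem on planes -/
theorem SFA_main (hA1 : S_A1) (hA7b : S_A7b) (hG0 : S_SFG0) (hG0B : S_SFG0B) (hG1 : S_SFG1)
    (hG2 : S_SFG2) (hG3 : S_SFG3) (hG4 : S_SFG4)
    (hDS : S_SFDS) (hLE : S_SFLE) (hFL : S_SFFL) (hFF : S_SFFF) (hHU1 : S_SFHU1)
    (hHU2 : S_SFHU2) (hB9 : S_B9) (hROOT : S_SFROOT) (hE2 : S_SFE2)
    (hE3 : S_SFE3) (hE4 : S_SFE4) (hE5 : S_SFE5)
    (hQD : S_SFQD) (hPAR : S_SFPAR) (hEVD : S_SFEVD) (hPOW : S_SFPOW) (hSQC : S_SFSQC)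
    (hFUND : S_SFFUND) (hNOINV : S_SFNOINV) (hSYL : S_SFSYL) (hGRP : S_SFGRP)
    (hZSIG : S_SFZSIG) (hEND : S_SFEND) (hCEN : S_SFCEN)
    (P L : Type) [Membership P L] [ProjectivePlane P L] [Finite P] (h : Char3 P L)
    (hs : SemifieldPlane P L) : Desarguesian P L := by
  have hQ : Quad4 P L := hA1 P L h
  obtain ⟨V, iV, fV, mul0, hnz0, hne, ⟨C0⟩⟩ := hG0 P L hs
  obtain ⟨mul, e, hnz, he, hl, hr, ⟨C⟩⟩ := hG0B P L V mul0 hnz0 hne C0
  have h3 := hG1 P L V mul e he hl hr C hQ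
  have hhex := hG3 P L V mul hnz h3 C (hG2 P L hQ)
  obtain ⟨hc, ha⟩ := SFA_alg hDS hLE hFL hFF hHU1 hHU2 hB9 hROOT hE2 hE3 hE4 hE5 hQD hPAR hEVD
    hPOW hSQC hFUND hNOINV hSYL hGRP hZSIG hEND hCEN V mul e hnz he hl hr h3 hhex
  exact hG4 hA7b P L V mul e hnz he hl hr hc ha C

end Pool.Agent.TP3
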