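import Mathlib
import Pool.Agent.Lib.MP_a1e562_co.Defs

/-!
# Finite semifield planes of characteristic three: definitions and basic lemmas
-/

set_option autoImplicit false

namespace Pool.Agent.TP3

open Configuration Polynomial

/-! ## statement level -/

/-- The plane is a semifield plane: there are a line `ℓ`, an abelian group `V` with a biadditive
product `∘` without zero divisors (a presemifield) and a bijection of the points off `ℓ` with
`V × V` such that the lines other than `ℓ` are exactly the sets `x = c` and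
`y = x ∘ k + b`. -/
def SemifieldPlane (P L : Type) [Membership P L] : Prop :=
  ∃ (V : Type) (_ : AddCommGroup V) (mul : V →+ V →+ V) (ℓ : L)
    (φ : {x : P // x ∉ ℓ} ≃ V × V),
    (∀ x y : V, mul x y = 0 → x = 0 ∨ y = 0) ∧
    (∀ m : L, m ≠ ℓ →
      (∃ c : V, ∀ p : {x : P // x ∉ ℓ}, (p : P) ∈ m ↔ (φ p).1 = c) ∨
      ∃ k b : V, ∀ p : {x : P // x ∉ ℓ}, (p : P) ∈ m ↔ (φ p).2 = mul (φ p).1 k + b) ∧
    (∀ c : V, ∃ m : L, m ≠ ℓ ∧ ∀ p : {x : P // x ∉ ℓ}, (p : P) ∈ m ↔ (φ p).1 = c) ∧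
    (∀ k b : V, ∃ m : L, m ≠ ℓ ∧
      ∀ p : {x : P // x ∉ ℓ}, (p : P) ∈ m ↔ (φ p).2 = mul (φ p).1 k + b)

/-! ## coordinates -/

/-- Coordinates of a plane over a presemifield: points `pt x y`, `sl k` (the point at infinity of
the lines of slope `k`), `Z`; lines `ln k b` (`y = x ∘ k + b`), `vt c` (`x = c`), `inf`. -/
structure SCoor (P L V : Type) [Membership P L] [AddCommGroup V] (mul : V →+ V →+ V) where
  inf : L
  Z : P
  pt : V → V → P
  sl : V → P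
  vt : V → L
  ln : V → V → L
  pts : ∀ q : P, (∃ x y : V, q = pt x y) ∨ (∃ k : V, q = sl k) ∨ q = Z
  lns : ∀ l : L, l = inf ∨ (∃ c : V, l = vt c) ∨ ∃ k b : V, l = ln k b
  pt_inf : ∀ x y : V, pt x y ∉ inf
  pt_vt : ∀ x y c : V, pt x y ∈ vt c ↔ x = c
  pt_ln : ∀ k b x y : V, pt x y ∈ ln k b ↔ y = mul x k + b
  sl_inf : ∀ k : V, sl k ∈ inf
  sl_vt : ∀ k c : V, sl k ∉ vt c
  sl_ln : ∀ j k b : V, sl j ∈ ln k b ↔ j = k
  Z_inf : Z ∈ inf
  Z_vt : ∀ c : V, Z ∈ vt c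
  Z_ln : ∀ k b : V, Z ∉ ln k b

/-- The incidence theorem of characteristic 3 that is used for semifield planes. -/
def IncJ (P L : Type) [Membership P L] : Prop :=
  ∀ (Z X0 X0' X1 X1' c0 c1 c2 X2 D D' : P) (v r0 r1 r2 a a' b b' s t : L),
    Z ∉ v → r0 ≠ r1 → Z ∈ r0 → Z ∈ r1 →
    X0 ∈ r0 → X0' ∈ r0 → X0 ≠ X0' → X0 ≠ Z → X0' ≠ Z → X0 ∉ v → X0' ∉ v →
    X1 ∈ r1 → X1' ∈ r1 → X1 ≠ X1' → X1 ≠ Z → X1' ≠ Z → X1 ∉ v → X1' ∉ v →
    X0 ∈ a → X1 ∈ a → X0' ∈ a' → X1' ∈ a' → D ∈ a → D ∈ a' → D ∈ v →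
    X0 ∈ b → X1' ∈ b → X0' ∈ b' → X1 ∈ b' → D' ∈ b → D' ∈ b' → D' ∈ v →
    c0 ∈ r0 → c0 ∈ v → c1 ∈ r1 → c1 ∈ v →
    c0 ∈ s → X1 ∈ s → c1 ∈ t → X0 ∈ t → X2 ∈ s → X2 ∈ t →
    Z ∈ r2 → X2 ∈ r2 → c2 ∈ r2 → c2 ∈ v →
    c2 ∈ b

/-! ## the algebra -/

/-- The hexagon law of a product (in any presemifield). -/
def HexLaw {V : Type} [Zero V] (f : V → V → V) : Prop :=
  ∀ p0 p1 q g0 g1 g2 : V, p0 ≠ 0 → g0 ≠ 0 → f q g1 = f p0 g0 → f p1 g0 = f p0 g1 →
    f p0 g2 = f q g0 → f p1 g2 = f p0 g0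

/-- A presemifield (bilinear over `K`, no zero divisors) with the hexagon law. -/
structure PS (K V : Type) [Field K] [AddCommGroup V] [Module K V]
    (m : V →ₗ[K] V →ₗ[K] V) : Prop where
  nz : ∀ x y : V, m x y = 0 → x = 0 ∨ y = 0
  hex : HexLaw (fun x y => m x y)

/-- A semifield (bilinear over `K`, no zero divisors, unit `e`) with the hexagon law. -/
structure SF (K V : Type) [Field K] [AddCommGroup V] [Module K V]
    (m : V →ₗ[K] V →ₗ[K] V) (e : V) : Prop extends PS K V m where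
  e_ne : e ≠ 0
  left : ∀ v : V, m e v = v
  right : ∀ v : V, m v e = v

variable {K V : Type} [Field K] [AddCommGroup V] [Module K V]

theorem PS.flip {m : V →ₗ[K] V →ₗ[K] V} (h : PS K V m) : PS K V m.flip := by
  refine ⟨fun x y hxy => ?_, ?_⟩
  · rcases h.nz y x (by simpa using hxy) with h1 | h1
    · exact Or.inr h1
    · exact Or.inl h1
  · intro p0 p1 q g0 g1 g2 hp0 hg0 h1 h2 h3
    simp only [LinearMap.flip_apply] at h1 h2 h3 ⊢
    exact h.hex g0 g2 g1 p0 q p1 hg0 hp0 h1 h3 h2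

theorem SF.flip {m : V →ₗ[K] V →ₗ[K] V} {e : V} (h : SF K V m e) : SF K V m.flip e where
  toPS := h.toPS.flip
  e_ne := h.e_ne
  left v := by simpa using h.right v
  right v := by simpa using h.left v

theorem PS.cancelL {m : V →ₗ[K] V →ₗ[K] V} (h : PS K V m) {p v w : V} (hp : p ≠ 0)
    (e : m p v = m p w) : v = w := by
  have h1 : m p (v - w) = 0 := by rw [map_sub, e, sub_self]
  rcases h.nz _ _ h1 with h2 | h2
  · exact absurd h2 hp
  · exact sub_eq_zero.1 h2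

theorem PS.cancelR {m : V →ₗ[K] V →ₗ[K] V} (h : PS K V m) {p v w : V} (hp : p ≠ 0)
    (e : m v p = m w p) : v = w := by
  have h1 : m (v - w) p = 0 := by rw [map_sub, LinearMap.sub_apply, e, sub_self]
  rcases h.nz _ _ h1 with h2 | h2
  · exact sub_eq_zero.1 h2
  · exact absurd h2 hp

theorem PS.mul_ne {m : V →ₗ[K] V →ₗ[K] V} (h : PS K V m) {p v : V} (hp : p ≠ 0) (hv : v ≠ 0) :
    m p v ≠ 0 := fun h1 => (h.nz p v h1).elim hp hv

theorem PS.exL {m : V →ₗ[K] V →ₗ[K] V} [Finite V] (h : PS K V m) {p : V} (hp : p ≠ 0) (v : V) :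
    ∃ w, m p w = v := by
  have hinj : Function.Injective (m p) := fun a b hab => h.cancelL hp hab
  exact Finite.surjective_of_injective hinj v

theorem PS.exR {m : V →ₗ[K] V →ₗ[K] V} [Finite V] (h : PS K V m) {p : V} (hp : p ≠ 0) (v : V) :
    ∃ w, m w p = v := by
  obtain ⟨w, hw⟩ := h.flip.exL hp v
  exact ⟨w, by simpa using hw⟩

/-- left multiplication as a linear equivalence -/
theorem PS.equivL {m : V →ₗ[K] V →ₗ[K] V} [Finite V] (h : PS K V m) {p : V} (hp : p ≠ 0) :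
    ∃ A : V ≃ₗ[K] V, ∀ v, A v = m p v := by
  have hinj : Function.Injective (m p) := fun a b hab => h.cancelL hp hab
  exact ⟨LinearEquiv.ofBijective (m p) ⟨hinj, Finite.surjective_of_injective hinj⟩, fun v => rfl⟩

/-- the operator `L_{p0}⁻¹ L_{p1}` -/
theorem PS.exT {m : V →ₗ[K] V →ₗ[K] V} [Finite V] (h : PS K V m) {p0 : V} (hp : p0 ≠ 0) (p1 : V) :
    ∃ T : Module.End K V, ∀ v, m p0 (T v) = m p1 v := by
  obtain ⟨A, hA⟩ := h.equivL hp
  refine ⟨A.symm.toLinearMap ∘ₗ m p1, fun v => ?_⟩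
  rw [← hA]
  simp

theorem PS.T_inj {m : V →ₗ[K] V →ₗ[K] V} (h : PS K V m) {p0 p1 : V} (hp : p1 ≠ 0)
    {T : Module.End K V} (hT : ∀ v, m p0 (T v) = m p1 v) : Function.Injective T := by
  intro a b hab
  have : m p1 a = m p1 b := by rw [← hT, ← hT, hab]
  exact h.cancelL hp this

/-- Isotopes are presemifields with the hexagon law. -/
theorem PS.isotope {m : V →ₗ[K] V →ₗ[K] V} (h : PS K V m) (A B C : V ≃ₗ[K] V)
    (m' : V →ₗ[K] V →ₗ[K] V) (hm : ∀ u v, m' u v = C (m (A u) (B v))) : PS K V m' := by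
  refine ⟨fun x y hxy => ?_, ?_⟩
  · rw [hm] at hxy
    have h1 : m (A x) (B y) = 0 := by simpa using hxy
    rcases h.nz _ _ h1 with h2 | h2
    · exact Or.inl (by simpa using h2)
    · exact Or.inr (by simpa using h2)
  · intro p0 p1 q g0 g1 g2 hp0 hg0 h1 h2 h3
    simp only [hm, EmbeddingLike.apply_eq_iff_eq] at h1 h2 h3 ⊢
    exact h.hex (A p0) (A p1) (A q) (B g0) (B g1) (B g2) (by simpa using hp0)
      (by simpa using hg0) h1 h2 h3

/-- The isotope `u ∘ v = u * (a \ v)`, a semifield with unit `a`. -/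
theorem SF.isotope {m : V →ₗ[K] V →ₗ[K] V} {e : V} [Finite V] (h : SF K V m e) {a : V}
    (ha : a ≠ 0) : ∃ (m' : V →ₗ[K] V →ₗ[K] V) (A : V ≃ₗ[K] V), SF K V m' a ∧
      (∀ u v, m' u v = m u (A v)) ∧ (∀ v, m a (A v) = v) ∧ (∀ v, A (m a v) = v) ∧ A a = e := by
  obtain ⟨B, hB⟩ := h.toPS.equivL ha
  have hAe : B.symm a = e := by
    rw [LinearEquiv.symm_apply_eq, hB, h.right]
  refine ⟨m.compl₂ B.symm.toLinearMap, B.symm, ?_, ?_, ?_, ?_, hAe⟩
  · refine ⟨h.toPS.isotope (LinearEquiv.refl K V) B.symm (LinearEquiv.refl K V) _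
      (fun u v => by simp), ha, fun v => ?_, fun v => ?_⟩
    · simp only [LinearMap.compl₂_apply, LinearEquiv.coe_coe]
      rw [← hB]; simp
    · simp only [LinearMap.compl₂_apply, LinearEquiv.coe_coe]
      rw [hAe, h.right]
  · intro u v; simp
  · intro v; rw [← hB]; simp
  · intro v; rw [← hB]; simp

/-- Inverses are two-sided. -/
theorem SF.two_sided {m : V →ₗ[K] V →ₗ[K] V} {e : V} (h : SF K V m e) {a b : V}
    (hab : m a b = e) : m b a = e := by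
  have h1 := h.hex e b a e b a h.e_ne h.e_ne (by simp [hab, h.left]) (by simp [h.left, h.right])
    (by simp [h.left, h.right])
  simpa [h.left] using h1

/-- a vector space is not the union of the kernels of two linear maps, unless one is zero -/
theorem union_ker (f g : V →ₗ[K] V) (h : ∀ v, f v = 0 ∨ g v = 0) : f = 0 ∨ g = 0 := by
  by_contra hc
  push Not at hc
  obtain ⟨hf, hg⟩ := hc
  obtain ⟨u, hu⟩ : ∃ u, f u ≠ 0 := by
    by_contra hh
    push Not at hh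
    exact hf (LinearMap.ext hh)
  obtain ⟨v, hv⟩ : ∃ v, g v ≠ 0 := by
    by_contra hh
    push Not at hh
    exact hg (LinearMap.ext hh)
  have hgu : g u = 0 := (h u).resolve_left hu
  have hfv : f v = 0 := (h v).resolve_right hv
  rcases h (u + v) with h1 | h1
  · rw [map_add, hfv, add_zero] at h1
    exact hu h1
  · rw [map_add, hgu, zero_add] at h1
    exact hv h1

/-! ## the structure used for odd dimension -/

/-- Inverses `ι` and the quadratic operators `U a = L_{a⁻¹}⁻¹ R_a`. -/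
structure Qd (K V : Type) [Field K] [AddCommGroup V] [Module K V]
    (m : V →ₗ[K] V →ₗ[K] V) (e : V) (ι : V → V) (U : V → (V ≃ₗ[K] V)) : Prop
    extends SF K V m e where
  i0 : ι 0 = 0
  il : ∀ v : V, v ≠ 0 → m (ι v) v = e
  ir : ∀ v : V, v ≠ 0 → m v (ι v) = e
  ii : ∀ v : V, ι (ι v) = v
  is : ∀ (f : K) (v : V), ι (f • v) = f⁻¹ • ι v
  Ul : ∀ a v : V, a ≠ 0 → m (ι a) (U a v) = m v a
  Ui : ∀ a v : V, a ≠ 0 → ι (U a v) = (U a).symm (ι v)
  hua : ∀ a d : V, a ≠ 0 → d ≠ 0 → a + d ≠ 0 → U a (ι d) = ι (ι a - ι (a + d)) - a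

/-- The structure group: pairs `(h, k)` of linear bijections with `ι (h v) = k (ι v)`. -/
def StrGrp (K : Type) {V : Type} [Field K] [AddCommGroup V] [Module K V] (ι : V → V) :
    Subgroup ((V ≃ₗ[K] V) × (V ≃ₗ[K] V)) where
  carrier := {g | ∀ v, ι (g.1 v) = g.2 (ι v)}
  one_mem' := fun v => rfl
  mul_mem' := by
    intro a b ha hb v
    have h1 : ((a * b).1 : V ≃ₗ[K] V) v = a.1 (b.1 v) := rfl
    have h2 : ((a * b).2 : V ≃ₗ[K] V) (ι v) = a.2 (b.2 (ι v)) := rfl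
    rw [h1, h2, ha, hb]
  inv_mem' := by
    intro a ha v
    have h1 : (a⁻¹).1 v = a.1.symm v := rfl
    have h2 : (a⁻¹).2 (ι v) = a.2.symm (ι v) := rfl
    rw [h1, h2, LinearEquiv.eq_symm_apply, ← ha, LinearEquiv.apply_symm_apply]

theorem mem_StrGrp {ι : V → V} {g : (V ≃ₗ[K] V) × (V ≃ₗ[K] V)} :
    g ∈ StrGrp K ι ↔ ∀ v, ι (g.1 v) = g.2 (ι v) := Iff.rfl

/-- swapping the two components preserves the structure group -/
theorem StrGrp_swap {ι : V → V} (hi : ∀ v, ι (ι v) = v) {h k : V ≃ₗ[K] V}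
    (hg : (h, k) ∈ StrGrp K ι) : (k, h) ∈ StrGrp K ι := by
  intro v
  have h1 : ∀ v, ι (h v) = k (ι v) := hg
  show ι (k v) = h (ι v)
  have h2 := h1 (ι v)
  rw [hi] at h2
  rw [← h2, hi]

theorem StrGrp_U {m : V →ₗ[K] V →ₗ[K] V} {e : V} {ι : V → V} {U : V → (V ≃ₗ[K] V)}
    (h : Qd K V m e ι U) {a : V} (ha : a ≠ 0) : (U a, (U a).symm) ∈ StrGrp K ι :=
  fun v => h.Ui a v ha

/-- nonzero scalars, as linear equivalences -/
noncomputable def scal (V : Type) [AddCommGroup V] [Module K V] (f : K) (hf : f ≠ 0) :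
    V ≃ₗ[K] V := LinearEquiv.smulOfNeZero K V f hf

theorem scal_apply (f : K) (hf : f ≠ 0) (v : V) : scal V f hf v = f • v := rfl

theorem StrGrp_scal {ι : V → V} (his : ∀ (f : K) (v : V), ι (f • v) = f⁻¹ • ι v) (f : K)
    (hf : f ≠ 0) : (scal V f hf, scal V f⁻¹ (inv_ne_zero hf)) ∈ StrGrp K ι := by
  intro v
  show ι (scal V f hf v) = scal V f⁻¹ (inv_ne_zero hf) (ι v)
  rw [scal_apply, scal_apply, his]

end Pool.Agent.TP3
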