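import Pool.Agent.Lib.MP_a1e562_co.SF.Stm

set_option autoImplicit false

namespace Pool.Agent.TP3

private theorem cen_aux (V : Type) [NonAssocRing V] [Finite V] [Nontrivial V]
    (hnz : ∀ x y : V, x * y = 0 → x = 0 ∨ y = 0) (h3 : ∀ v : V, v + v + v = 0) :
    ∃ (K : Type) (_ : Field K) (_ : Finite K) (_ : Module K V) (m : V →ₗ[K] V →ₗ[K] V),
      (3 : K) = 0 ∧ (∀ x y, m x y = x * y) ∧
      ∀ c : V, IsMulCentral c → ∃ k : K, c = k • (1 : V) := by
  classical
  have hc : ∀ k : Subring.center V, IsMulCentral (k : V) := fun k => k.2
  let R : CommRing (Subring.center V) :=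
    { (inferInstance : NonAssocRing (Subring.center V)) with
      mul_assoc := fun a b c => Subtype.ext ((hc a).left_assoc _ _).symm
      mul_comm := fun a b => Subtype.ext ((hc a).comm b).eq }
  have hcoe1 : ((1 : Subring.center V) : V) = 1 := rfl
  have hcoemul : ∀ a b : Subring.center V, ((a * b : Subring.center V) : V) = (a : V) * b :=
    fun _ _ => rfl
  have hcoeadd : ∀ a b : Subring.center V, ((a + b : Subring.center V) : V) = (a : V) + b :=
    fun _ _ => rfl
  have hnt : Nontrivial (Subring.center V) := ⟨0, 1, fun h => zero_ne_one (congrArg Subtype.val h)⟩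
  have hnzd : NoZeroDivisors (Subring.center V) := by
    constructor
    intro a b hab
    rcases hnz a b (congrArg Subtype.val hab) with h | h
    · exact Or.inl (Subtype.ext h)
    · exact Or.inr (Subtype.ext h)
  have hdom : IsDomain (Subring.center V) := NoZeroDivisors.to_isDomain _
  have hfin : Finite (Subring.center V) := Subtype.finite
  have hfield : IsField (Subring.center V) := Finite.isField_of_domain _
  let F : Field (Subring.center V) := hfield.toField
  let M : Module (Subring.center V) V :=
    { smul := fun k v => (k : V) * v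
      one_smul := fun v => one_mul v
      mul_smul := fun a b v => ((hc a).left_assoc _ _).symm
      smul_zero := fun a => mul_zero _
      smul_add := fun a v w => mul_add _ _ _
      add_smul := fun a b v => add_mul _ _ _
      zero_smul := fun v => zero_mul v }
  have hsm : ∀ (k : Subring.center V) (v : V), k • v = (k : V) * v := fun _ _ => rfl
  refine ⟨Subring.center V, F, hfin, M, LinearMap.mk₂ _ (fun x y : V => x * y) add_mul ?_ mul_add ?_,
    ?_, ?_, ?_⟩
  · intro c x y
    simp only [hsm]
    exact ((hc c).left_assoc _ _).symm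
  · intro c x y
    simp only [hsm]
    rw [← (hc c).mid_assoc, ← ((hc c).comm x).eq, ← (hc c).left_assoc]
  · have h1 : (3 : Subring.center V) = 1 + 1 + 1 := by norm_num
    rw [h1]
    apply Subtype.ext
    exact h3 1
  · intro x y
    rfl
  · intro c hcc
    exact ⟨⟨c, hcc⟩, (mul_one c).symm⟩

theorem s_SFCEN : S_SFCEN := by
  intro V _ _ mul e hnz he hl hr h3
  let R : NonAssocRing V :=
    { (inferInstance : AddCommGroup V) with
      mul := fun x y => mul x y
      left_distrib := fun a b c => map_add (mul a) b c
      right_distrib := fun a b c => by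
        change mul (a + b) c = mul a c + mul b c
        rw [map_add]; rfl
      zero_mul := fun a => by
        change mul 0 a = 0
        rw [map_zero]; rfl
      mul_zero := fun a => map_zero (mul a)
      one := e
      one_mul := hl
      mul_one := hr }
  have hnt : Nontrivial V := ⟨e, 0, he⟩
  obtain ⟨K, F, hfin, M, m, h1, h2, h4⟩ := cen_aux V hnz h3
  exact ⟨K, F, hfin, M, m, h1, h2, fun c hc1 hc2 hc3 hc4 =>
    h4 c ⟨fun x => hc1 x, fun x y => (hc2 x y).symm, hc4⟩⟩

end Pool.Agent.TP3
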