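import Pool.Agent.Lib.MP_a1e562_co.SF.Stm

/-!
# [SF DS] Left elements
-/

set_option autoImplicit false

namespace Pool.Agent.TP3

section
variable {K V : Type} [Field K] [AddCommGroup V] [Module K V] [Finite V]
  {m : V →ₗ[K] V →ₗ[K] V}

/-- one step downwards -/
theorem sfds_down (h : PS K V m) {p0 p1 q x0 x1 x2 : V} (hp0 : p0 ≠ 0) (hp1 : p1 ≠ 0)
    (hx1 : x1 ≠ 0) (h0 : m p1 x0 = m p0 x1) (h1 : m p1 x1 = m p0 x2)
    (hq : m q x2 = m p0 x1) : m q x1 = m p0 x0 := by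
  obtain ⟨g2, hg2⟩ := h.exL hp0 (m q x1)
  have h3 : m p1 g2 = m p0 x1 := h.hex p0 p1 q x1 x2 g2 hp0 hx1 hq h1 hg2
  have h4 : g2 = x0 := h.cancelL hp1 (h3.trans h0.symm)
  rw [← hg2, h4]

/-- the left element that shifts a sequence by `-1` -/
theorem sfds_seq (h : PS K V m) {p0 p1 : V} (hp0 : p0 ≠ 0) (hp1 : p1 ≠ 0) (x : ℤ → V)
    (hx : ∀ j, x j ≠ 0) (hs : ∀ j, m p1 (x j) = m p0 (x (j + 1))) :
    ∃ q, ∀ j, m q (x j) = m p0 (x (j - 1)) := by
  obtain ⟨q, hq⟩ := h.exR (hx 0) (m p0 (x (0 - 1)))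
  have key : ∀ (q : V) (j : ℤ), m q (x (j + 1)) = m p0 (x j) → m q (x j) = m p0 (x (j - 1)) := by
    intro q j hq
    have h0 := hs (j - 1)
    rw [sub_add_cancel] at h0
    exact sfds_down h hp0 hp1 (hx j) h0 (hs j) hq
  refine ⟨q, fun j => ?_⟩
  induction j using Int.induction_on with
  | zero => exact hq
  | succ i ih =>
    obtain ⟨q', hq'⟩ := h.exR (hx ((i : ℤ) + 1)) (m p0 (x i))
    have h1 := key q' i hq'
    have h2 : q' = q := h.cancelR (hx i) (h1.trans ih.symm)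
    rw [← h2, hq', add_sub_cancel_right]
  | pred i ih =>
    apply key
    rw [sub_add_cancel]
    exact ih

/-- the left element that shifts a sequence by `2` -/
theorem sfds_two (h : PS K V m) {p0 p1 : V} (hp0 : p0 ≠ 0) (hp1 : p1 ≠ 0) (x : ℤ → V)
    (hx : ∀ j, x j ≠ 0) (hs : ∀ j, m p1 (x j) = m p0 (x (j + 1))) :
    ∃ q, ∀ j, m q (x j) = m p0 (x (j + 2)) := by
  obtain ⟨q, hq⟩ := sfds_seq h hp1 hp0 (fun j => x (-j)) (fun j => hx _) (fun j => by
    have h1 := hs (-(j + 1))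
    have h2 : -(j + 1) + 1 = -j := by ring
    rw [h2] at h1
    exact h1.symm)
  refine ⟨q, fun j => ?_⟩
  have h1 := hq (-j)
  have h2 : -(-j - 1) = j + 1 := by ring
  simp only [neg_neg, h2] at h1
  rw [h1, hs]
  have h3 : j + 1 + 1 = j + 2 := by ring
  rw [h3]

/-- the left elements that shift a sequence by `k` and `k + 1` -/
theorem sfds_all (h : PS K V m) {p0 p1 : V} (hp0 : p0 ≠ 0) (hp1 : p1 ≠ 0) (x : ℤ → V)
    (hx : ∀ j, x j ≠ 0) (hs : ∀ j, m p1 (x j) = m p0 (x (j + 1))) (k : ℕ) :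
    ∃ q q' : V, q ≠ 0 ∧ q' ≠ 0 ∧ (∀ j, m q (x j) = m p0 (x (j + k))) ∧
      ∀ j, m q' (x j) = m p0 (x (j + k + 1)) := by
  induction k with
  | zero =>
    refine ⟨p0, p1, hp0, hp1, fun j => ?_, fun j => ?_⟩
    · simp
    · simpa using hs j
  | succ k ih =>
    obtain ⟨q, q', hq, hq', h1, h2⟩ := ih
    obtain ⟨r, hr⟩ := sfds_two h hq hq' x hx (fun j => by
      rw [h1, h2]
      have h3 : j + (k : ℤ) + 1 = j + 1 + k := by ring
      rw [h3])
    have h4 : ∀ j, m r (x j) = m p0 (x (j + ((k + 1 : ℕ) : ℤ) + 1)) := by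
      intro j
      rw [hr, h1]
      have h3 : j + 2 + (k : ℤ) = j + ((k + 1 : ℕ) : ℤ) + 1 := by push_cast; ring
      rw [h3]
    refine ⟨q', r, hq', ?_, fun j => ?_, h4⟩
    · intro h0
      have h5 := h4 0
      rw [h0, map_zero, LinearMap.zero_apply] at h5
      exact h.mul_ne hp0 (hx _) h5.symm
    · rw [h2]
      have h3 : j + (k : ℤ) + 1 = j + ((k + 1 : ℕ) : ℤ) := by push_cast; ring
      rw [h3]

end

theorem s_SFDS : S_SFDS := by
  intro K V _ _ _ _ m h p0 p1 T hp0 hp1 hT g k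
  by_cases hg : g = 0
  · refine ⟨0, fun j => ?_⟩
    rw [hg]
    simp
  have hinj : Function.Injective T := h.T_inj hp1 hT
  have hbij : Function.Bijective T := ⟨hinj, Finite.surjective_of_injective hinj⟩
  let S : Equiv.Perm V := Equiv.ofBijective T hbij
  have hS0 : ∀ v, S v = T v := fun v => rfl
  have hSz : ∀ j : ℤ, (S ^ j) 0 = 0 := by
    have h0 : S 0 = 0 := by rw [hS0, map_zero]
    intro j
    exact Equiv.Perm.zpow_apply_eq_self_of_apply_eq_self h0 j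
  have hne : ∀ j : ℤ, (S ^ j) g ≠ 0 := by
    intro j hj
    apply hg
    have h1 : (S ^ j) g = (S ^ j) 0 := by rw [hj, hSz]
    exact (S ^ j).injective h1
  have hstep : ∀ j : ℤ, m p1 ((S ^ j) g) = m p0 ((S ^ (j + 1)) g) := by
    intro j
    rw [← hT, ← hS0, add_comm j 1, zpow_add, zpow_one, Equiv.Perm.mul_apply]
  have hnat : ∀ j : ℕ, (S ^ (j : ℤ)) g = (T ^ j) g := by
    intro j
    rw [zpow_natCast]
    induction j with
    | zero => simp
    | succ j ih =>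
      rw [pow_succ', pow_succ', Equiv.Perm.mul_apply, ih, hS0, Module.End.mul_apply]
  obtain ⟨q, -, -, -, h1, -⟩ := sfds_all h hp0 hp1 (fun j => (S ^ j) g) hne hstep k
  refine ⟨q, fun j => ?_⟩
  have h2 := h1 j
  have h3 : (j : ℤ) + (k : ℤ) = ((k + j : ℕ) : ℤ) := by push_cast; ring
  simp only [h3] at h2
  rw [hnat, hnat] at h2
  exact h2

end Pool.Agent.TP3
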