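import Pool.Agent.Lib.MP_a1e562_co.SF.Stm

/-!
# [SF E4] Roots commute with everything
-/

set_option autoImplicit false

namespace Pool.Agent.TP3

open Configuration Polynomial

/-- for `a ≠ 0` one has `a * x = x * a` or `a * x = -(x * a)` -/
private theorem sfe4_pm {K V : Type} [Field K] [AddCommGroup V] [Module K V] [Finite V]
    (m : V →ₗ[K] V →ₗ[K] V) (e : V) (h : SF K V m e) (hR : FieldLem m.flip)
    (hHU : ∀ a b v z z' : V, a ≠ 0 → m a b = e → m b z = m v a → m z' b = m a v → z = z')
    (c : K) (x : V) (hx : x ≠ 0) (hxx : m x x = c • e)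
    (hN : ∀ a v, m (m a x) v = m a (m x v))
    (huR : ∀ a k w : V, a ≠ 0 → m w a = k → m w k = c • a → k = m x a ∨ k = -m x a)
    (a : V) (ha : a ≠ 0) : m a x = m x a ∨ m a x = -m x a := by
  have hL : ∀ v, m x (m x v) = c • v := by
    intro v
    rw [← hN x v, hxx, map_smul, LinearMap.smul_apply, h.left]
  set k : V := m a x with hk
  have hk0 : k ≠ 0 := h.toPS.mul_ne ha hx
  obtain ⟨b, hab⟩ := h.toPS.exL ha e
  have hba : m b a = e := h.two_sided hab
  have hb0 : b ≠ 0 := by
    rintro rfl
    rw [map_zero] at hab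
    exact h.e_ne hab.symm
  obtain ⟨k', hkk'⟩ := h.toPS.exL hk0 e
  have hk'k : m k' k = e := h.two_sided hkk'
  have h1 : ∀ v, m k (m x v) = c • m a v := by
    intro v
    rw [hk, hN a (m x v), hL, map_smul]
  have h2 : m x k' = b := by
    refine h.toPS.cancelL ha ?_
    rw [hab, ← hN a k', ← hk, hkk']
  have h3 : m k b = c • m a k' := by
    rw [← h2, h1]
  -- the Hua type condition
  obtain ⟨z, hz⟩ := h.toPS.exL (p := k') (by
    rintro rfl
    rw [map_zero] at hkk'
    exact h.e_ne hkk'.symm) (m b k)
  have h4 : z = c • a := by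
    refine hHU k k' b z (c • a) hk0 hkk' hz ?_
    rw [map_smul, LinearMap.smul_apply, h3]
  have h5 : m b k = c • m k' a := by
    rw [← hz, h4, map_smul]
  obtain ⟨w, hw⟩ := h.toPS.exR ha k
  obtain ⟨N, hNN⟩ := h.toPS.flip.exT ha k
  simp only [LinearMap.flip_apply] at hNN
  have hNe : N e = w := by
    refine h.toPS.cancelR ha ?_
    rw [hNN, h.left, hw]
  have hNb : N b = c • k' := by
    refine h.toPS.cancelR ha ?_
    rw [hNN, h5, map_smul, LinearMap.smul_apply]
  have hNk : N k' = b := by
    refine h.toPS.cancelR ha ?_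
    rw [hNN, hk'k, hba]
  have hpoly : ∀ v, aeval N (X ^ 2 - C c : K[X]) v = N (N v) - c • v := by
    intro v
    rw [map_sub, LinearMap.sub_apply, aeval_C, map_pow, aeval_X, pow_two]
    rfl
  have h6 : aeval N (X ^ 2 - C c : K[X]) = 0 := by
    refine hR a k N ha hk0 (fun v => by simpa only [LinearMap.flip_apply] using hNN v) b _ hb0 ?_
    rw [hpoly, hNb, map_smul, hNk, sub_self]
  have h7 : N (N e) = c • e := by
    have := hpoly e
    rw [h6, LinearMap.zero_apply] at this
    exact (sub_eq_zero.1 this.symm)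
  have h8 : m w k = c • a := by
    rw [← hNN w, ← hNe, h7, map_smul, LinearMap.smul_apply, h.left]
  exact huR a k w ha hw h8

theorem s_SFE4 : S_SFE4 := by
  intro K V _ _ _ _ m e h h2 hR hHU c x hc hxx hN huR a
  have hx : x ≠ 0 := by
    rintro rfl
    rw [map_zero] at hxx
    exact (smul_ne_zero hc h.e_ne) hxx.symm
  have key : ∀ v, (m x - m.flip x) v = 0 ∨ (m x + m.flip x) v = 0 := by
    intro v
    rw [LinearMap.sub_apply, LinearMap.add_apply, LinearMap.flip_apply]
    by_cases hv : v = 0
    · left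
      rw [hv]
      simp
    · rcases sfe4_pm m e h hR hHU c x hx hxx hN huR v hv with h1 | h1
      · left
        rw [h1, sub_self]
      · right
        rw [h1, add_neg_cancel]
  rcases union_ker _ _ key with h1 | h1
  · have := LinearMap.congr_fun h1 a
    rw [LinearMap.sub_apply, LinearMap.flip_apply, LinearMap.zero_apply] at this
    exact (sub_eq_zero.1 this).symm
  · exfalso
    have := LinearMap.congr_fun h1 e
    rw [LinearMap.add_apply, LinearMap.flip_apply, LinearMap.zero_apply, h.left, h.right,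
      ← two_smul K x] at this
    rcases smul_eq_zero.1 this with h3 | h3
    · exact h2 h3
    · exact hx h3

end Pool.Agent.TP3
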